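import Pool.Agent.Y787.AS.Step

/-!
# Linear spaces through a point of a variety: the abstract theorem
-/

set_option autoImplicit false

namespace Pool.Agent.Y787.AS
open MvPolynomial Module
open Pool.Agent.W254.PA (Hyp)

variable {K E : Type} [Field K] [Field E] [Algebra K E] {m N q : ℕ}

/-- the extension of scalars of a space -/
def RE (E : Type) [Field E] [Algebra K E] (R : Submodule K (Fin m → K)) :
    Submodule E (Fin m → E) :=
  Submodule.span E {x | ∃ c ∈ R, x = fun i => algebraMap K E (c i)}

/-- **The abstract theorem.** -/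
theorem abs_main [CharZero E] {L : Submodule K E} (hL : Hyp L) (hw : Wts K E) (l : Fin N → E)
    (hl : ∀ j, l j ∈ L) (hli : LinearIndependent K l) (b : Fin m → Fin N → K)
    (D : Fin q → Derivation ℤ E E) (g : Fin q → K → K)
    (hg : ∀ k a, D k (algebraMap K E a) = algebraMap K E (g k a)) (hDl : ∀ k j, D k (l j) = 0)
    (T0 : Submodule K (Fin q → K)) (hinj : ∀ δ ∈ T0, (∀ i j, gd g δ (b i j) = 0) → δ = 0)
    (𝓕 : Set (MvPolynomial (Fin m) E))
    (hF0 : ∀ F ∈ 𝓕, eval (fun i => ∑ j, algebraMap K E (b i j) * l j) F = 0)
    (hFD : ∀ δ ∈ T0, ∀ F ∈ 𝓕, coefD (Dd D δ) F = 0) :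
    ∃ R : Submodule K (Fin m → K),
      finrank K T0 ≤ finrank K R * N + (m - finrank K R) * (m - 1) ∧
      ∀ F ∈ 𝓕, ∀ c ∈ RE E R,
        eval (fun i => ∑ j, algebraMap K E (b i j) * l j + c i) F = 0 := by
  classical
  set y : Fin m → E := fun i => ∑ j, algebraMap K E (b i j) * l j with hy
  have hex : ∃ n, ∃ (R : Submodule K (Fin m → K)) (T : Submodule K (Fin q → K)),
      finrank K R = n ∧ Valid g b T0 R T :=
    ⟨m, ⊤, T0, by rw [finrank_top, finrank_fintype_fun_eq_card, Fintype.card_fin],
      ⟨le_refl _, fun _ _ _ _ => Submodule.mem_top, fun _ _ _ => Submodule.mem_top,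
        Nat.le_add_right _ _⟩⟩
  obtain ⟨R, T, hRn, hV⟩ := Nat.find_spec hex
  have hmin := fun k (hk : k < Nat.find hex) => Nat.find_min hex hk
  rw [← hRn] at hmin
  have hRm : finrank K R ≤ m := by
    have := Submodule.finrank_le R
    rwa [finrank_fintype_fun_eq_card, Fintype.card_fin] at this
  -- first derivatives
  have hA : ∀ S : Submodule E (MvPolynomial (Fin m) E), Adm D y T S → ∀ G ∈ S, ∀ c ∈ R,
      eval y (dirD (fun i => algebraMap K E (c i)) G) = 0 := by
    intro S hS
    obtain ⟨R', T', hR', hT', h1, h2, h3, h4⟩ := rank_step hL hw l hl hli b D g hg hDl T R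
      hV.pres hV.cols S hS
    have h5 : finrank K R' ≤ finrank K R := Submodule.finrank_mono hR'
    have h6 : ¬ finrank K R' < finrank K R := by
      intro hlt
      refine hmin _ hlt ⟨R', T', rfl, hT'.trans hV.le, h2, h3, ?_⟩
      have h7 := hV.bound
      obtain ⟨v, hv⟩ : ∃ v, finrank K R = finrank K R' + v := ⟨_, (Nat.add_sub_cancel' h5).symm⟩
      obtain ⟨w, hw'⟩ : ∃ w, m = finrank K R + w := ⟨_, (Nat.add_sub_cancel' hRm).symm⟩
      have h8 : finrank K R - finrank K R' = v := by omega
      have h9 : m - finrank K R = w := by omega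
      have h10 : m - finrank K R' = v + w := by omega
      rw [h8] at h4
      rw [h9] at h7
      rw [h10]
      have h11 : v * (finrank K R - 1) ≤ v * (m - 1) := Nat.mul_le_mul_left _ (by omega)
      have h12 : (v + w) * (m - 1) = v * (m - 1) + w * (m - 1) := by ring
      omega
    have h7 : R' = R := Submodule.eq_of_le_of_finrank_le hR' (not_lt.1 h6)
    intro G hG c hc
    exact h1 c (h7 ▸ hc) G hG
  -- higher derivatives
  have hB : ∀ (k : ℕ) (S : Submodule E (MvPolynomial (Fin m) E)), Adm D y T S → ∀ F ∈ S,
      ∀ c ∈ RE E R, eval y ((dirD c)^[k] F) = 0 := by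
    intro k
    induction k with
    | zero => intro S hS F hF c _; exact hS.ev F hF
    | succ k ih =>
      intro S hS F hF c hc
      rw [Function.iterate_succ_apply]
      obtain ⟨S', hS', _, h1⟩ := adm_next D g hg y T R hV.pres S hS (hA S hS)
      refine ih S' hS' _ ?_ c hc
      induction hc using Submodule.span_induction with
      | mem x hx =>
        obtain ⟨c', hc', rfl⟩ := hx
        exact h1 F hF c' hc'
      | zero => rw [dirD_zero_left]; exact S'.zero_mem
      | add x z _ _ hx hz => rw [dirD_add_left]; exact S'.add_mem hx hz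
      | smul t x _ hx => rw [dirD_smul_left, ← smul_eq_C_mul]; exact S'.smul_mem t hx
  refine ⟨R, ?_, ?_⟩
  · have h1 : finrank K T ≤ finrank K R * N := by
      let Ψ : T →ₗ[K] (Fin N → R) :=
        { toFun := fun δ j => ⟨fun i => gd g δ (b i j), hV.cols δ δ.2 j⟩
          map_add' := fun δ δ' => by
            funext j
            apply Subtype.ext
            funext i
            exact gd_add g δ δ' _
          map_smul' := fun p δ => by
            funext j
            apply Subtype.ext
            funext i
            exact gd_smul g p δ _ }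
      have h2 : Function.Injective Ψ := by
        rw [injective_iff_map_eq_zero]
        intro δ hδ
        apply Subtype.ext
        refine hinj δ (hV.le δ.2) fun i j => ?_
        have h3 := congrArg (fun x : R => (x : Fin m → K) i) (congrFun hδ j)
        exact h3
      have h3 := LinearMap.finrank_le_finrank_of_injective h2
      rw [Module.finrank_pi_fintype] at h3
      simp only [Finset.sum_const, Finset.card_univ, Fintype.card_fin, smul_eq_mul] at h3
      rwa [mul_comm] at h3
    exact hV.bound.trans (Nat.add_le_add_right h1 _)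
  · intro F hF c hc
    have h1 : Adm D y T (Submodule.span E 𝓕) := adm_span D y T 𝓕 hF0 (fun δ hδ G hG => by
      rw [hFD δ (hV.le hδ) G hG]
      exact Submodule.zero_mem _)
    have h2 := eval_line y c F (fun k => hB k _ h1 F (Submodule.subset_span hF) c hc) 1
    simp only [one_mul] at h2
    exact h2

end Pool.Agent.Y787.AS
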