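import Pool.Agent.Y787.AS.Main

/-!
# Singular matrices of size three
-/

set_option autoImplicit false

namespace Pool.Agent.Y787.AS
open MvPolynomial Module Filter
open Pool.Agent.W254.PA (Hyp)

variable {k Cc : Type} [Field k] [Field Cc] [Algebra k Cc]

/-- a zero after base changes over `k` on both sides -/
def RZ (k : Type) {Cc : Type} [Field k] [Field Cc] [Algebra k Cc] {n : ℕ}
    (M : Matrix (Fin n) (Fin n) Cc) : Prop :=
  ∃ w v : Fin n → k, w ≠ 0 ∧ v ≠ 0 ∧
    ∑ i, ∑ j, algebraMap k Cc (w i) * M i j * algebraMap k Cc (v j) = 0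

theorem RZ.of_submatrix {n : ℕ} {M : Matrix (Fin n) (Fin n) Cc} (σ : Fin n ≃ Fin n)
    (h : RZ k (M.submatrix σ σ)) : RZ k M := by
  obtain ⟨w, v, hw, hv, h⟩ := h
  refine ⟨w ∘ σ.symm, v ∘ σ.symm, ?_, ?_, ?_⟩
  · intro h0
    apply hw
    funext i
    have := congrFun h0 (σ i)
    simpa using this
  · intro h0
    apply hv
    funext i
    have := congrFun h0 (σ i)
    simpa using this
  · rw [← h, ← Equiv.sum_comp σ]
    refine Finset.sum_congr rfl fun i _ => ?_
    rw [← Equiv.sum_comp σ]
    refine Finset.sum_congr rfl fun j _ => ?_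
    simp

theorem RZ.of_mul {n : ℕ} {M : Matrix (Fin n) (Fin n) Cc} (P Q : Matrix (Fin n) (Fin n) k)
    (hP : P.det ≠ 0) (hQ : Q.det ≠ 0)
    (h : RZ k (P.map (algebraMap k Cc) * M * Q.map (algebraMap k Cc))) : RZ k M := by
  obtain ⟨w, v, hw, hv, h⟩ := h
  refine ⟨Matrix.vecMul w P, Matrix.mulVec Q v, ?_, ?_, ?_⟩
  · intro h0
    exact hw (Matrix.eq_zero_of_vecMul_eq_zero hP h0)
  · intro h0
    exact hv (Matrix.eq_zero_of_mulVec_eq_zero hQ h0)
  · rw [← h]
    simp only [Matrix.vecMul, Matrix.mulVec, dotProduct, Matrix.mul_apply, Matrix.map_apply,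
      map_sum, map_mul, Finset.mul_sum, Finset.sum_mul]
    -- both sides are sums over four indices
    have e1 : ∀ i j : Fin n, ∑ b, ∑ a, algebraMap k Cc (w a) * algebraMap k Cc (P a i) * M i j *
        (algebraMap k Cc (Q j b) * algebraMap k Cc (v b)) =
        ∑ a, ∑ b, algebraMap k Cc (w a) * algebraMap k Cc (P a i) * M i j *
          (algebraMap k Cc (Q j b) * algebraMap k Cc (v b)) := fun i j => Finset.sum_comm
    have e2 : (∑ i, ∑ j, ∑ a, ∑ b, algebraMap k Cc (w a) * algebraMap k Cc (P a i) * M i j *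
          (algebraMap k Cc (Q j b) * algebraMap k Cc (v b))) =
        ∑ a, ∑ b, ∑ j, ∑ i, algebraMap k Cc (w a) * algebraMap k Cc (P a i) * M i j *
          (algebraMap k Cc (Q j b) * algebraMap k Cc (v b)) := by
      have f1 : ∀ i : Fin n, (∑ j, ∑ a, ∑ b, algebraMap k Cc (w a) * algebraMap k Cc (P a i) *
          M i j * (algebraMap k Cc (Q j b) * algebraMap k Cc (v b))) =
          ∑ a, ∑ j, ∑ b, algebraMap k Cc (w a) * algebraMap k Cc (P a i) *
          M i j * (algebraMap k Cc (Q j b) * algebraMap k Cc (v b)) := fun i => Finset.sum_comm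
      simp only [f1]
      rw [Finset.sum_comm]
      refine Finset.sum_congr rfl fun a _ => ?_
      have f2 : ∀ i : Fin n, (∑ j, ∑ b, algebraMap k Cc (w a) * algebraMap k Cc (P a i) *
          M i j * (algebraMap k Cc (Q j b) * algebraMap k Cc (v b))) =
          ∑ b, ∑ j, algebraMap k Cc (w a) * algebraMap k Cc (P a i) *
          M i j * (algebraMap k Cc (Q j b) * algebraMap k Cc (v b)) := fun i => Finset.sum_comm
      simp only [f2]
      rw [Finset.sum_comm]
      refine Finset.sum_congr rfl fun b _ => ?_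
      rw [Finset.sum_comm]
    calc _ = ∑ i, ∑ j, ∑ a, ∑ b, algebraMap k Cc (w a) * algebraMap k Cc (P a i) * M i j *
          (algebraMap k Cc (Q j b) * algebraMap k Cc (v b)) := by
          refine Finset.sum_congr rfl fun i _ => Finset.sum_congr rfl fun j _ => ?_
          first
            | rfl
            | exact e1 i j
      _ = _ := by
          rw [e2]
          refine Finset.sum_congr rfl fun a _ => Finset.sum_congr rfl fun b _ =>
            Finset.sum_congr rfl fun j _ => Finset.sum_congr rfl fun i _ => ?_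
          ring

/-- six exponentials: a `2 × 3` matrix of rank one -/
theorem two_three {Lt : Submodule k Cc} (hL : Hyp Lt) {p q r s c1 c2 : Cc} (hp : p ∈ Lt)
    (hq : q ∈ Lt) (hr : r ∈ Lt) (hs : s ∈ Lt) (hc1 : c1 ∈ Lt) (hc2 : c2 ∈ Lt)
    (h1 : p * s = q * r) (h2 : r * c1 = p * c2)
    (hne : ∀ α β : k, algebraMap k Cc α * p + algebraMap k Cc β * r = 0 → α = 0 ∧ β = 0) :
    ∃ v : Fin 3 → k, v ≠ 0 ∧ algebraMap k Cc (v 0) * c1 + algebraMap k Cc (v 1) * p +
      algebraMap k Cc (v 2) * q = 0 := by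
  by_contra hcon
  push Not at hcon
  have h3 := hL 2 3 ![r, -p] ![![c1, p, q], ![c2, r, s]] (by
    rw [Fintype.linearIndependent_iff]
    intro g hg
    rw [Fin.sum_univ_two] at hg
    simp only [Matrix.cons_val_zero, Matrix.cons_val_one, Algebra.smul_def] at hg
    have h4 := hne (-g 1) (g 0) (by
      rw [map_neg]
      linear_combination hg)
    intro i
    fin_cases i
    · exact h4.2
    · exact neg_eq_zero.1 h4.1) (by
    intro i j
    fin_cases i <;> fin_cases j <;> assumption) (by
    intro j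
    rw [Fin.sum_univ_two]
    fin_cases j
    · simp
      linear_combination h2
    · simp
      ring
    · simp
      linear_combination -h1) (by
    rw [Fintype.linearIndependent_iff]
    intro g hg
    have h4 := congrFun hg 0
    rw [Finset.sum_apply, Fin.sum_univ_three] at h4
    simp only [Pi.smul_apply, Algebra.smul_def, Matrix.cons_val_zero, Matrix.cons_val_one,
      Matrix.cons_val, Pi.zero_apply] at h4
    by_contra h5
    push Not at h5
    obtain ⟨i, hi⟩ := h5
    exact hcon g (fun h0 => hi (congrFun h0 i)) h4)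
  omega

theorem minor_rz {Lt : Submodule k Cc} (hL : Hyp Lt) (M : Matrix (Fin 3) (Fin 3) Cc)
    (hM : ∀ i j, M i j ∈ Lt) (h1 : M 1 1 * M 2 2 - M 1 2 * M 2 1 = 0) (h2 : M.det = 0) :
    RZ k M := by
  have hmk : ∀ w v : Fin 3 → k, w ≠ 0 → v ≠ 0 →
      (algebraMap k Cc (w 0) * (M 0 0 * algebraMap k Cc (v 0) + M 0 1 * algebraMap k Cc (v 1) +
        M 0 2 * algebraMap k Cc (v 2)) +
      algebraMap k Cc (w 1) * (M 1 0 * algebraMap k Cc (v 0) + M 1 1 * algebraMap k Cc (v 1) +
        M 1 2 * algebraMap k Cc (v 2)) +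
      algebraMap k Cc (w 2) * (M 2 0 * algebraMap k Cc (v 0) + M 2 1 * algebraMap k Cc (v 1) +
        M 2 2 * algebraMap k Cc (v 2))) = 0 → RZ k M := by
    intro w v hw hv h
    refine ⟨w, v, hw, hv, ?_⟩
    simp only [Fin.sum_univ_three]
    rw [← h]
    ring
  have hpne : M 1 1 = 0 → RZ k M := by
    intro h0
    refine hmk ![0, 1, 0] ![0, 1, 0] (fun h => by simpa using congrFun h 1)
      (fun h => by simpa using congrFun h 1) ?_
    simp [h0]
  by_cases hp0 : M 1 1 = 0
  · exact hpne hp0
  rw [Matrix.det_fin_three] at h2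
  have h3 : (M 0 1 * M 1 2 - M 0 2 * M 1 1) * (M 2 1 * M 1 0 - M 1 1 * M 2 0) = 0 := by
    have h4 : M 1 1 * (M 0 0 * M 1 1 * M 2 2 - M 0 0 * M 1 2 * M 2 1 - M 0 1 * M 1 0 * M 2 2 +
      M 0 1 * M 1 2 * M 2 0 + M 0 2 * M 1 0 * M 2 1 - M 0 2 * M 1 1 * M 2 0) = 0 := by
      rw [h2, mul_zero]
    linear_combination -h4 + (M 0 0 * M 1 1 - M 0 1 * M 1 0) * h1
  have hsn := hM 2 2
  rcases mul_eq_zero.1 h3 with h4 | h4
  · -- the column side
    by_cases hne : ∀ α β : k, algebraMap k Cc α * M 1 1 + algebraMap k Cc β * M 1 2 = 0 →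
        α = 0 ∧ β = 0
    · obtain ⟨v, hv0, hv⟩ := two_three hL (hM 1 1) (hM 2 1) (hM 1 2) (hM 2 2) (hM 0 1) (hM 0 2)
        (by linear_combination h1) (by linear_combination h4) hne
      refine hmk v ![0, 1, 0] hv0 (fun h => by simpa using congrFun h 1) ?_
      simp
      linear_combination hv
    · push Not at hne
      obtain ⟨α, β, h5, h6⟩ := hne
      refine hmk ![0, 1, 0] ![0, α, β] (fun h => by simpa using congrFun h 1) (fun h => ?_) ?_
      · have e1 : α = 0 := by simpa using congrFun h 1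
        have e2 : β = 0 := by simpa using congrFun h 2
        exact h6 e1 e2
      · simp
        linear_combination h5
  · -- the row side
    by_cases hne : ∀ α β : k, algebraMap k Cc α * M 1 1 + algebraMap k Cc β * M 2 1 = 0 →
        α = 0 ∧ β = 0
    · obtain ⟨v, hv0, hv⟩ := two_three hL (hM 1 1) (hM 1 2) (hM 2 1) (hM 2 2) (hM 1 0) (hM 2 0)
        (by linear_combination h1) (by linear_combination h4) hne
      refine hmk ![0, 1, 0] v (fun h => by simpa using congrFun h 1) hv0 ?_
      simp
      linear_combination hv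
    · push Not at hne
      obtain ⟨α, β, h5, h6⟩ := hne
      refine hmk ![0, α, β] ![0, 1, 0] (fun h => ?_) (fun h => by simpa using congrFun h 1) ?_
      · have e1 : α = 0 := by simpa using congrFun h 1
        have e2 : β = 0 := by simpa using congrFun h 2
        exact h6 e1 e2
      · simp
        linear_combination h5

/-- **Matrices of size three on a line of singular matrices.** -/
theorem three_rz [CharZero Cc] {Lt : Submodule k Cc} (hL : Hyp Lt)
    (M : Matrix (Fin 3) (Fin 3) Cc) (hM : ∀ i j, M i j ∈ Lt) (A : Matrix (Fin 3) (Fin 3) k)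
    (hA : A ≠ 0) (h : ∀ x : Cc, (M + x • A.map (algebraMap k Cc)).det = 0) : RZ k M := by
  classical
  obtain ⟨L, L', D, hD⟩ :=
    Matrix.Pivot.exists_list_transvec_mul_mul_list_transvec_eq_diagonal A
  set P := (L.map Matrix.TransvectionStruct.toMatrix).prod with hP
  set Q := (L'.map Matrix.TransvectionStruct.toMatrix).prod with hQ
  have hPd : P.det = 1 := Matrix.TransvectionStruct.det_toMatrix_prod L
  have hQd : Q.det = 1 := Matrix.TransvectionStruct.det_toMatrix_prod L'
  have hD0 : D ≠ 0 := by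
    intro h0
    apply hA
    rw [h0, Pi.zero_def, Matrix.diagonal_zero] at hD
    have hPu : IsUnit P.det := by rw [hPd]; exact isUnit_one
    have hQu : IsUnit Q.det := by rw [hQd]; exact isUnit_one
    have h1 : P⁻¹ * (P * A * Q) * Q⁻¹ = A := by
      rw [Matrix.mul_assoc P A Q, ← Matrix.mul_assoc P⁻¹ P, Matrix.nonsing_inv_mul _ hPu,
        Matrix.one_mul, Matrix.mul_assoc, Matrix.mul_nonsing_inv _ hQu, Matrix.mul_one]
    rw [← h1, hD, Matrix.mul_zero, Matrix.zero_mul]
  apply RZ.of_mul P Q (by rw [hPd]; exact one_ne_zero) (by rw [hQd]; exact one_ne_zero)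
  set M' := P.map (algebraMap k Cc) * M * Q.map (algebraMap k Cc) with hM'
  have hM'L : ∀ i j, M' i j ∈ Lt := by
    intro i j
    rw [hM', Matrix.mul_apply]
    refine Submodule.sum_mem _ fun b _ => ?_
    rw [Matrix.mul_apply, Matrix.map_apply, mul_comm, ← Algebra.smul_def]
    refine Lt.smul_mem _ (Submodule.sum_mem _ fun a _ => ?_)
    rw [Matrix.map_apply, ← Algebra.smul_def]
    exact Lt.smul_mem _ (hM _ _)
  have hdet : ∀ x : Cc, (M' + x • Matrix.diagonal (fun i => algebraMap k Cc (D i))).det = 0 := by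
    intro x
    have h1 : Matrix.diagonal (fun i => algebraMap k Cc (D i)) =
        P.map (algebraMap k Cc) * A.map (algebraMap k Cc) * Q.map (algebraMap k Cc) := by
      rw [← Matrix.map_mul, ← Matrix.map_mul, hD, Matrix.diagonal_map (map_zero _)]
    rw [h1, hM']
    have h2 : P.map (algebraMap k Cc) * M * Q.map (algebraMap k Cc) +
        x • (P.map (algebraMap k Cc) * A.map (algebraMap k Cc) * Q.map (algebraMap k Cc)) =
        P.map (algebraMap k Cc) * (M + x • A.map (algebraMap k Cc)) *
          Q.map (algebraMap k Cc) := by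
      rw [Matrix.mul_add, Matrix.add_mul, Matrix.mul_smul, Matrix.smul_mul]
    rw [h2, Matrix.det_mul, Matrix.det_mul, h x, mul_zero, zero_mul]
  -- the coefficients
  obtain ⟨d, hd⟩ : ∃ d : Fin 3 → Cc, d = fun i => algebraMap k Cc (D i) := ⟨_, rfl⟩
  have hexp : ∀ x : Cc, (M' + x • Matrix.diagonal (fun i => algebraMap k Cc (D i))).det =
      M'.det + x * (d 0 * (M' 1 1 * M' 2 2 - M' 1 2 * M' 2 1) +
        d 1 * (M' 0 0 * M' 2 2 - M' 0 2 * M' 2 0) + d 2 * (M' 0 0 * M' 1 1 - M' 0 1 * M' 1 0)) +
      x ^ 2 * (d 0 * d 1 * M' 2 2 + d 0 * d 2 * M' 1 1 + d 1 * d 2 * M' 0 0) +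
      x ^ 3 * (d 0 * d 1 * d 2) := by
    intro x
    rw [← hd, Matrix.det_fin_three, Matrix.det_fin_three]
    simp only [Matrix.add_apply, Matrix.smul_apply, Matrix.diagonal_apply, smul_eq_mul]
    simp
    ring
  have x0 := hdet 0
  have x1 := hdet 1
  have x2 := hdet (-1)
  have x3 := hdet 2
  rw [hexp] at x0 x1 x2 x3
  have c0 : M'.det = 0 := by linear_combination x0
  have c2 : d 0 * d 1 * M' 2 2 + d 0 * d 2 * M' 1 1 + d 1 * d 2 * M' 0 0 = 0 := by
    linear_combination (x1 + x2) / 2 - x0
  have c3 : d 0 * d 1 * d 2 = 0 := by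
    linear_combination (x3 - x1 - (x1 - x2) / 2 - 3 * ((x1 + x2) / 2 - x0)) / 6
  have c1 : d 0 * (M' 1 1 * M' 2 2 - M' 1 2 * M' 2 1) +
        d 1 * (M' 0 0 * M' 2 2 - M' 0 2 * M' 2 0) +
        d 2 * (M' 0 0 * M' 1 1 - M' 0 1 * M' 1 0) = 0 := by
    linear_combination (x1 - x2) / 2 - c3
  have hz : ∀ i, M' i i = 0 → RZ k M' := by
    intro i hi
    refine ⟨Pi.single i 1, Pi.single i 1, ?_, ?_, ?_⟩
    · intro h0
      have := congrFun h0 i
      simp at this
    · intro h0
      have := congrFun h0 i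
      simp at this
    · rw [Finset.sum_eq_single i, Finset.sum_eq_single i]
      · rw [hi, mul_zero, zero_mul]
      · intro j _ hj
        rw [Pi.single_eq_of_ne hj, map_zero, mul_zero]
      · intro h; exact absurd (Finset.mem_univ _) h
      · intro j _ hj
        refine Finset.sum_eq_zero fun j' _ => ?_
        rw [Pi.single_eq_of_ne hj, map_zero, zero_mul, zero_mul]
      · intro h; exact absurd (Finset.mem_univ _) h
  have hdD : ∀ i, d i = 0 → D i = 0 := by
    intro i hi
    rw [hd] at hi
    exact (map_eq_zero (algebraMap k Cc)).1 hi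
  by_cases d0 : d 0 = 0
  · by_cases d1 : d 1 = 0
    · by_cases d2 : d 2 = 0
      · exfalso
        apply hD0
        funext i
        fin_cases i
        · exact hdD 0 d0
        · exact hdD 1 d1
        · exact hdD 2 d2
      · apply RZ.of_submatrix (Equiv.swap 0 2)
        refine minor_rz hL _ (fun i j => hM'L _ _) ?_ ?_
        · rw [d0, d1, zero_mul, zero_mul, zero_add, zero_add] at c1
          have h1 := (mul_eq_zero.1 c1).resolve_left d2
          have e0 : (Equiv.swap (0 : Fin 3) 2) 1 = 1 := by decide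
          have e1 : (Equiv.swap (0 : Fin 3) 2) 2 = 0 := by decide
          simp only [Matrix.submatrix_apply, e0, e1]
          linear_combination h1
        · rw [Matrix.det_submatrix_equiv_self]; exact c0
    · by_cases d2 : d 2 = 0
      · apply RZ.of_submatrix (Equiv.swap 0 1)
        refine minor_rz hL _ (fun i j => hM'L _ _) ?_ ?_
        · rw [d0, d2, zero_mul, zero_mul, zero_add, add_zero] at c1
          have h1 := (mul_eq_zero.1 c1).resolve_left d1
          have e0 : (Equiv.swap (0 : Fin 3) 1) 1 = 0 := by decide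
          have e1 : (Equiv.swap (0 : Fin 3) 1) 2 = 2 := by decide
          simp only [Matrix.submatrix_apply, e0, e1]
          linear_combination h1
        · rw [Matrix.det_submatrix_equiv_self]; exact c0
      · apply hz 0
        rw [d0, zero_mul, zero_mul, zero_mul, zero_mul, zero_add, zero_add] at c2
        exact (mul_eq_zero.1 c2).resolve_left (mul_ne_zero d1 d2)
  · by_cases d1 : d 1 = 0
    · by_cases d2 : d 2 = 0
      · refine minor_rz hL _ (fun i j => hM'L _ _) ?_ c0
        rw [d1, d2, zero_mul, zero_mul, add_zero, add_zero] at c1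
        exact (mul_eq_zero.1 c1).resolve_left d0
      · apply hz 1
        rw [d1, mul_zero, zero_mul, zero_mul, zero_mul, zero_add, add_zero] at c2
        exact (mul_eq_zero.1 c2).resolve_left (mul_ne_zero d0 d2)
    · by_cases d2 : d 2 = 0
      · apply hz 2
        rw [d2, mul_zero, mul_zero, zero_mul, zero_mul, add_zero, add_zero] at c2
        exact (mul_eq_zero.1 c2).resolve_left (mul_ne_zero d0 d1)
      · exact absurd c3 (mul_ne_zero (mul_ne_zero d0 d1) d2)

end Pool.Agent.Y787.AS
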