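import Pool.Agent.Y787.AS.WM
import Pool.Agent.Y787.AS.Three
import Pool.Agent.W824.BJ.Spec

/-!
# Lines of matrices of bounded rank
-/

set_option autoImplicit false

namespace Pool.Agent.Y787.AS
open Module Matrix

section field

variable {K : Type} [Field K]

/-- an affine family of determinants which vanishes off the origin vanishes at the origin -/
theorem det_at_zero [Infinite K] {m : Type} [Fintype m] [DecidableEq m] (P Q : Matrix m m K)
    (h : ∀ y : K, y ≠ 0 → (P + y • Q).det = 0) : P.det = 0 := by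
  classical
  let f : Polynomial K := (P.map Polynomial.C + (Polynomial.X : Polynomial K) •
    Q.map Polynomial.C).det
  have hf : ∀ y : K, f.eval y = (P + y • Q).det := by
    intro y
    change (Polynomial.evalRingHom y) f = _
    rw [RingHom.map_det]
    congr 1
    ext i j
    simp only [RingHom.mapMatrix_apply, Matrix.map_apply, Matrix.add_apply, Matrix.smul_apply,
      smul_eq_mul, map_add, map_mul, Polynomial.coe_evalRingHom, Polynomial.eval_C,
      Polynomial.eval_X, Polynomial.eval_mul]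
  have h0 : f = 0 := by
    refine Polynomial.eq_zero_of_infinite_isRoot f ?_
    refine Set.Infinite.mono ?_ (Set.finite_singleton (0 : K)).infinite_compl
    intro y hy
    change f.eval y = 0
    rw [hf]
    exact h y hy
  have h1 := hf 0
  rw [h0, Polynomial.eval_zero, zero_smul, add_zero] at h1
  exact h1.symm

theorem rank_three {a b n m r : ℕ} (A : Matrix (Fin a) (Fin n) K)
    (M : Matrix (Fin n) (Fin m) K) (B : Matrix (Fin m) (Fin b) K) (hM : M.rank ≤ r + 1)
    (h : (A * M * B).rank ≤ r) : (A * M).rank ≤ r ∨ (M * B).rank ≤ r := by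
  by_contra hcon
  push Not at hcon
  obtain ⟨h1, h2⟩ := hcon
  have h3 : LinearMap.range (M * B).mulVecLin = LinearMap.range M.mulVecLin := by
    refine Submodule.eq_of_le_of_finrank_le ?_ ?_
    · rw [Matrix.mulVecLin_mul]
      exact LinearMap.range_comp_le_range _ _
    · change M.rank ≤ (M * B).rank
      omega
  have h4 : (A * M * B).rank = (A * M).rank := by
    change finrank K (LinearMap.range (A * M * B).mulVecLin) =
      finrank K (LinearMap.range (A * M).mulVecLin)
    rw [Matrix.mul_assoc, Matrix.mulVecLin_mul A (M * B), Matrix.mulVecLin_mul A M,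
      LinearMap.range_comp, LinearMap.range_comp, h3]
  omega

theorem block_rank [Infinite K] {n r s ρ : ℕ} (M C : Matrix (Fin n) (Fin n) K)
    (h : ∀ x : K, (M + x • C).rank ≤ r) (U : Matrix (Fin s) (Fin n) K)
    (T : Matrix (Fin n) (Fin s) K) (W : Matrix (Fin ρ) (Fin n) K)
    (V : Matrix (Fin n) (Fin ρ) K) (hW : W * C = 0) (hV : C * V = 0)
    (hUT : (U * C * T).det ≠ 0) (hWV : (W * M * V).det ≠ 0) : s + ρ ≤ r := by
  classical
  by_contra hcon
  have h1 : (fromBlocks (U * C * T) 0 (W * M * T) (W * M * V)).det = 0 := by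
    refine det_at_zero _ (fromBlocks (U * M * T) (U * M * V) 0 0) fun y hy => ?_
    have h2 : fromBlocks (U * C * T) 0 (W * M * T) (W * M * V) +
        y • fromBlocks (U * M * T) (U * M * V) 0 0 =
        fromRows (y • U) W * (M + y⁻¹ • C) * fromCols T V := by
      rw [Matrix.fromRows_mul, Matrix.fromRows_mul_fromCols, Matrix.fromBlocks_smul,
        Matrix.fromBlocks_add]
      have e1 : y • U * (M + y⁻¹ • C) = y • (U * M) + U * C := by
        rw [Matrix.mul_add, Matrix.smul_mul, Matrix.mul_smul, Matrix.smul_mul, smul_smul,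
          inv_mul_cancel₀ hy, one_smul]
      have e2 : W * (M + y⁻¹ • C) = W * M := by
        rw [Matrix.mul_add, Matrix.mul_smul, hW, smul_zero, add_zero]
      rw [e1, e2, Matrix.add_mul, Matrix.add_mul, Matrix.smul_mul, Matrix.smul_mul,
        Matrix.mul_assoc U C V, hV]
      simp only [Matrix.mul_zero, smul_zero, add_zero, zero_add]
      rw [add_comm]
    rw [h2]
    by_contra h3
    have h4 := Matrix.rank_of_det_ne_zero h3
    rw [Fintype.card_sum, Fintype.card_fin, Fintype.card_fin] at h4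
    have h5 := (Matrix.rank_mul_le_left (fromRows (y • U) W * (M + y⁻¹ • C))
      (fromCols T V)).trans ((Matrix.rank_mul_le_right (fromRows (y • U) W)
        (M + y⁻¹ • C)).trans (h y⁻¹))
    omega
  rw [Matrix.det_fromBlocks_zero₁₂] at h1
  rcases mul_eq_zero.1 h1 with h2 | h2
  · exact hUT h2
  · exact hWV h2

theorem sub_eq {m n a b : ℕ} (A : Matrix (Fin m) (Fin n) K) (s : Fin a → Fin m)
    (t : Fin b → Fin n) : A.submatrix s t =
      (1 : Matrix (Fin m) (Fin m) K).submatrix s id * A *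
        (1 : Matrix (Fin n) (Fin n) K).submatrix id t := by
  ext i j
  simp only [Matrix.submatrix_apply, Matrix.mul_apply, id, Matrix.one_apply, ite_mul, one_mul,
    zero_mul, mul_ite, mul_one, mul_zero, Finset.sum_ite_eq, Finset.mem_univ, if_true,
    Finset.sum_ite_eq']

/-- **The rank on the complement.** -/
theorem line_rank [Infinite K] {n r a b : ℕ} (M C : Matrix (Fin n) (Fin n) K)
    (h : ∀ x : K, (M + x • C).rank ≤ r) (W : Matrix (Fin a) (Fin n) K)
    (V : Matrix (Fin n) (Fin b) K) (hW : W * C = 0) (hV : C * V = 0) :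
    C.rank + (W * M * V).rank ≤ r := by
  obtain ⟨S, T, hST⟩ := Pool.Agent.W824.BJ.exists_minor C
  obtain ⟨q, hq⟩ : ∃ q, (W * M * V).rank = q := ⟨_, rfl⟩
  obtain ⟨I, J, hIJ⟩ : ∃ (I : Fin q → Fin a) (J : Fin q → Fin b),
      ((W * M * V).submatrix I J).det ≠ 0 := by
    subst hq
    exact Pool.Agent.W824.BJ.exists_minor (W * M * V)
  rw [hq]
  refine block_rank M C h ((1 : Matrix (Fin n) (Fin n) K).submatrix S id)
    ((1 : Matrix (Fin n) (Fin n) K).submatrix id T)
    ((1 : Matrix (Fin a) (Fin a) K).submatrix I id * W)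
    (V * (1 : Matrix (Fin b) (Fin b) K).submatrix id J) ?_ ?_ ?_ ?_
  · rw [Matrix.mul_assoc, hW, Matrix.mul_zero]
  · rw [← Matrix.mul_assoc, hV, Matrix.zero_mul]
  · rw [← sub_eq]; exact hST
  · rw [sub_eq] at hIJ
    simpa only [Matrix.mul_assoc] using hIJ

theorem ker_basis {n s : ℕ} (C : Matrix (Fin n) (Fin n) K) (hs : C.rank = s) :
    ∃ V : Matrix (Fin n) (Fin (n - s)) K, C * V = 0 ∧ ∀ v, V *ᵥ v = 0 → v = 0 := by
  classical
  have h1 : finrank K (LinearMap.ker C.mulVecLin) = n - s := by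
    have h2 := LinearMap.finrank_range_add_finrank_ker C.mulVecLin
    rw [finrank_fintype_fun_eq_card, Fintype.card_fin] at h2
    change C.rank + _ = n at h2
    omega
  let e := finBasisOfFinrankEq K _ h1
  refine ⟨Matrix.of fun i j => (e j : Fin n → K) i, ?_, fun v hv => ?_⟩
  · ext i j
    have h2 : C.mulVecLin (e j : Fin n → K) = 0 := (e j).2
    exact congrFun h2 i
  · have h2 := Fintype.linearIndependent_iff.1 e.linearIndependent v (by
      apply Subtype.ext
      funext i
      have h3 := congrFun hv i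
      rw [Submodule.coe_sum, Finset.sum_apply]
      rw [Matrix.mulVec, dotProduct] at h3
      refine Eq.trans ?_ h3
      refine Finset.sum_congr rfl fun j _ => ?_
      rw [Submodule.coe_smul, Pi.smul_apply, smul_eq_mul, mul_comm]
      rfl)
    funext j
    exact h2 j

theorem coker_basis {n s : ℕ} (C : Matrix (Fin n) (Fin n) K) (hs : C.rank = s) :
    ∃ W : Matrix (Fin (n - s)) (Fin n) K, W * C = 0 ∧ ∀ w, w ᵥ* W = 0 → w = 0 := by
  obtain ⟨V, h1, h2⟩ := ker_basis Cᵀ (by rw [Matrix.rank_transpose, hs])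
  refine ⟨Vᵀ, ?_, fun w hw => h2 w ?_⟩
  · rw [← Matrix.transpose_inj, Matrix.transpose_mul, Matrix.transpose_transpose, h1,
      Matrix.transpose_zero]
  · rwa [Matrix.vecMul_transpose] at hw

end field

section zero

variable {k Cc : Type} [Field k] [Field Cc] [Algebra k Cc]

theorem bil_eq {a b : ℕ} (N : Matrix (Fin a) (Fin b) Cc) (w : Fin a → Cc) (v : Fin b → Cc) :
    ∑ i, ∑ j, w i * N i j * v j = w ⬝ᵥ (N *ᵥ v) := by
  simp only [dotProduct, Matrix.mulVec, Finset.mul_sum, mul_assoc]

theorem rz_of_prod {n a b : ℕ} (M : Matrix (Fin n) (Fin n) Cc) (W : Matrix (Fin a) (Fin n) k)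
    (V : Matrix (Fin n) (Fin b) k) (hW : ∀ w, w ᵥ* W = 0 → w = 0)
    (hV : ∀ v, V *ᵥ v = 0 → v = 0)
    (h : ∃ (w : Fin a → k) (v : Fin b → k), w ≠ 0 ∧ v ≠ 0 ∧ ∑ i, ∑ j, algebraMap k Cc (w i) *
      (W.map (algebraMap k Cc) * M * V.map (algebraMap k Cc)) i j * algebraMap k Cc (v j) = 0) :
    RZ k M := by
  obtain ⟨w, v, hw, hv, h⟩ := h
  refine ⟨w ᵥ* W, V *ᵥ v, fun h0 => hw (hW _ h0), fun h0 => hv (hV _ h0), ?_⟩
  have h1 := bil_eq (W.map (algebraMap k Cc) * M * V.map (algebraMap k Cc))
    (fun i => algebraMap k Cc (w i)) (fun j => algebraMap k Cc (v j))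
  have h2 := bil_eq M (fun i => algebraMap k Cc ((w ᵥ* W) i))
    (fun j => algebraMap k Cc ((V *ᵥ v) j))
  rw [h2]
  rw [h1] at h
  have e1 : (fun i => algebraMap k Cc ((w ᵥ* W) i)) =
      (fun i => algebraMap k Cc (w i)) ᵥ* W.map (algebraMap k Cc) := by
    funext i
    simp only [Matrix.vecMul, dotProduct, map_sum, map_mul, Matrix.map_apply]
  have e2 : (fun j => algebraMap k Cc ((V *ᵥ v) j)) =
      V.map (algebraMap k Cc) *ᵥ (fun j => algebraMap k Cc (v j)) := by
    funext i
    simp only [Matrix.mulVec, dotProduct, map_sum, map_mul, Matrix.map_apply]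
  rw [e1, e2, ← h, ← Matrix.dotProduct_mulVec, Matrix.mulVec_mulVec, Matrix.mulVec_mulVec]

theorem rank_le_map {n : ℕ} (C : Matrix (Fin n) (Fin n) k) :
    C.rank ≤ (C.map (algebraMap k Cc)).rank := by
  obtain ⟨S, T, hST⟩ := Pool.Agent.W824.BJ.exists_minor C
  refine Pool.Agent.W824.BJ.le_rank_of_minor _ S T ?_
  rw [Pool.Agent.W824.BJ.det_map_sub]
  exact fun h => hST ((map_eq_zero (algebraMap k Cc)).1 h)

theorem mem_prod {L : Submodule k Cc} {n a b : ℕ} (M : Matrix (Fin n) (Fin n) Cc)
    (hM : ∀ i j, M i j ∈ L) (W : Matrix (Fin a) (Fin n) k) (V : Matrix (Fin n) (Fin b) k)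
    (i : Fin a) (j : Fin b) :
    (W.map (algebraMap k Cc) * M * V.map (algebraMap k Cc)) i j ∈ L := by
  simp only [Matrix.mul_apply, Matrix.map_apply, Finset.sum_mul]
  refine Submodule.sum_mem _ fun x _ => Submodule.sum_mem _ fun y _ => ?_
  have : algebraMap k Cc (W i y) * M y x * algebraMap k Cc (V x j) = (W i y * V x j) • M y x := by
    rw [Algebra.smul_def, map_mul]; ring
  rw [this]
  exact L.smul_mem _ (hM _ _)

/-- **A line of matrices of small rank gives a zero.** -/
theorem rz_of_line [Infinite Cc] {L : Submodule k Cc} (hL : WMP k L) {n r : ℕ}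
    (M : Matrix (Fin n) (Fin n) Cc) (hM : ∀ i j, M i j ∈ L) (C : Matrix (Fin n) (Fin n) k)
    (hC : C ≠ 0) (hr : r < n)
    (h : ∀ x : Cc, (M + x • C.map (algebraMap k Cc)).rank ≤ r)
    (hcase : 2 * r < n + C.rank ∨ 2 * r ≤ n + 1) : RZ k M := by
  classical
  obtain ⟨s, hs⟩ : ∃ s, C.rank = s := ⟨_, rfl⟩
  have hs1 : 1 ≤ s := by
    rw [← hs]
    by_contra h0
    apply hC
    have h1 : C.rank = 0 := by omega
    have h2 : LinearMap.range C.mulVecLin = ⊥ := Submodule.finrank_eq_zero.1 h1
    have h3 : C.mulVecLin = 0 := LinearMap.range_eq_bot.1 h2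
    ext i j
    have h4 := congrFun (LinearMap.congr_fun h3 (Pi.single j 1)) i
    rw [Matrix.mulVecLin_apply, Matrix.mulVec_single_one] at h4
    exact h4
  obtain ⟨V, hV1, hV2⟩ := ker_basis C hs
  obtain ⟨W, hW1, hW2⟩ := coker_basis C hs
  set A : k →+* Cc := algebraMap k Cc with hA
  have hW1' : W.map A * C.map A = 0 := by
    rw [← Matrix.map_mul, hW1, Matrix.map_zero _ (map_zero A)]
  have hV1' : C.map A * V.map A = 0 := by
    rw [← Matrix.map_mul, hV1, Matrix.map_zero _ (map_zero A)]
  have h1 := line_rank M (C.map A) h (W.map A) (V.map A) hW1' hV1'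
  have h2 : s ≤ (C.map A).rank := by
    rw [← hs]
    exact rank_le_map C
  have hD : (W.map A * M * V.map A).rank ≤ r - s := by omega
  have hsr : s ≤ r := by omega
  by_cases hc : 2 * r < n + s
  · refine rz_of_prod M W V hW2 hV2 (hL (n - s) (n - s) (r - s) (by omega) (by omega) ?_ _
      (mem_prod M hM W V) hD)
    obtain ⟨t, ht⟩ : ∃ t, r = s + t := ⟨r - s, by omega⟩
    obtain ⟨q, hq⟩ : ∃ q, n = s + q := ⟨n - s, by omega⟩
    have e1 : r - s = t := by omega
    have e2 : n - s = q := by omega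
    rw [e1, e2]
    have h3 : 2 * t < q := by omega
    nlinarith
  · have hs' : s = 1 := by omega
    subst hs'
    obtain ⟨t, rfl⟩ : ∃ t, r = t + 1 := ⟨r - 1, by omega⟩
    have hn : n = 2 * t + 1 := by omega
    have hM0 : M.rank ≤ t + 1 := by
      have := h 0
      rwa [zero_smul, add_zero] at this
    rw [Nat.add_sub_cancel] at hD
    rcases rank_three _ M _ hM0 hD with h3 | h3
    · refine rz_of_prod M W 1 hW2 (fun v hv => by rwa [Matrix.one_mulVec] at hv)
        (hL (n - 1) n t (by omega) (by omega) ?_ _ (mem_prod M hM W 1) ?_)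
      · subst hn
        rw [Nat.add_sub_cancel]
        nlinarith
      · rw [Matrix.map_one _ (map_zero A) (map_one A), Matrix.mul_one]
        exact h3
    · refine rz_of_prod M 1 V (fun v hv => by rwa [Matrix.vecMul_one] at hv) hV2
        (hL n (n - 1) t (by omega) (by omega) ?_ _ (mem_prod M hM 1 V) ?_)
      · subst hn
        rw [Nat.add_sub_cancel]
        nlinarith
      · rw [Matrix.map_one _ (map_zero A) (map_one A), Matrix.one_mul]
        exact h3

end zero

end Pool.Agent.Y787.AS
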