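import Pool.Agent.Y787.AS.Three
import Pool.Agent.Y787.ZB.Cnt

/-!
# Singular matrices: dimension and counting
-/

set_option autoImplicit false

namespace Pool.Agent.Y787.AS
open MvPolynomial Module Filter
open Pool.Agent.W254.PA (Hyp)

variable {k Cc : Type} [Field k] [Field Cc] [Algebra k Cc]

/-- the determinant -/
noncomputable def detP (Cc : Type) [Field Cc] (n : ℕ) : MvPolynomial (Fin (n * n) ⊕ Fin 0) Cc :=
  (Matrix.of fun i j : Fin n => (X (Sum.inl (finProdFinEquiv (i, j))) :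
    MvPolynomial (Fin (n * n) ⊕ Fin 0) Cc)).det

theorem eval_detP (n : ℕ) (z : Fin (n * n) ⊕ Fin 0 → Cc) :
    eval z (detP Cc n) = (Matrix.of fun i j : Fin n => z (Sum.inl (finProdFinEquiv (i, j)))).det := by
  rw [detP, RingHom.map_det]
  congr 1
  ext i j
  simp

/-- no line of singular matrices in a direction over `k` -/
def NoLine (k : Type) {Cc : Type} [Field k] [Field Cc] [Algebra k Cc] {n : ℕ}
    (M : Matrix (Fin n) (Fin n) Cc) : Prop :=
  ∀ A : Matrix (Fin n) (Fin n) k, A ≠ 0 → ∃ x : Cc, (M + x • A.map (algebraMap k Cc)).det ≠ 0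

theorem NoLine.not_big {n : ℕ} {M : Matrix (Fin n) (Fin n) Cc} (h : NoLine k M)
    (t : Fin 0 → k) : ¬ Big k (fun _ : Fin 1 => detP Cc n) 0
      (fun p => M (finProdFinEquiv.symm p).1 (finProdFinEquiv.symm p).2) t := by
  rintro ⟨R, hR, h1⟩
  have h2 : R ≠ ⊥ := by
    rintro rfl
    rw [finrank_bot] at hR
    exact lt_irrefl _ hR
  obtain ⟨c, hc, hc0⟩ := Submodule.exists_mem_ne_zero_of_ne_bot h2
  obtain ⟨x, hx⟩ := h (Matrix.of fun i j => c (finProdFinEquiv (i, j))) (by
    intro h0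
    apply hc0
    funext p
    have := congrFun (congrFun h0 (finProdFinEquiv.symm p).1) (finProdFinEquiv.symm p).2
    rw [Matrix.of_apply, Prod.mk.eta, Equiv.apply_symm_apply] at this
    exact this)
  apply hx
  have h3 := h1 0 (x • fun p => algebraMap k Cc (c p))
    (Submodule.smul_mem _ _ (Submodule.subset_span ⟨c, hc, rfl⟩))
  rw [eval_detP] at h3
  rw [← h3]
  congr 1
  ext i j
  simp only [Matrix.of_apply, Sum.elim_inl, Equiv.symm_apply_apply, Matrix.add_apply,
    Matrix.smul_apply, Matrix.map_apply, Pi.smul_apply]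

theorem det_coord [CharZero k] [CharZero Cc] {Lt : Submodule k Cc} (hL : Hyp Lt)
    (hw : Wts' k Cc) {n N : ℕ} (l : Fin N → Cc) (hl : ∀ j, l j ∈ Lt)
    (hli : LinearIndependent k l)
    (φ : Fin (n * n * (n * n - 1) + 1) → (((Fin n × Fin n) × Fin N → k) →ₗ[k] k)) :
    ∃ P : MvPolynomial (Fin (n * n * (n * n - 1) + 1)) k, P ≠ 0 ∧
      ∀ b : Fin n → Fin n → Fin N → k,
      (Matrix.of fun i j => ∑ s, algebraMap k Cc (b i j s) * l s).det = 0 →
      NoLine k (Matrix.of fun i j => ∑ s, algebraMap k Cc (b i j s) * l s) →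
      eval (fun i => φ i (fun p => b p.1.1 p.1.2 p.2)) P = 0 := by
  classical
  obtain ⟨P, h1, h2⟩ := fam_coord (m := n * n) (ρ := 0) (τ := 0)
    (q := n * n * (n * n - 1) + 1) hL hw l hl hli (fun _ : Fin 1 => detP Cc n)
    (by
      intro ρ' hρ'
      obtain rfl : ρ' = 0 := by omega
      rw [zero_mul, Nat.sub_zero]
      omega)
    (fun i => φ i ∘ₗ LinearMap.funLeft k k (fun p : (Fin n × Fin n) × Fin N =>
      ((finProdFinEquiv p.1, p.2) : Fin (n * n) × Fin N)))
  refine ⟨P, h1, fun b hb hb' => ?_⟩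
  have h3 := h2 (fun p s => b (finProdFinEquiv.symm p).1 (finProdFinEquiv.symm p).2 s)
    (fun a => a.elim0) (by
      intro _
      rw [eval_detP]
      rw [← hb]
      congr 1
      ext i j
      simp only [Matrix.of_apply, Sum.elim_inl, Equiv.symm_apply_apply]) (by
      exact hb'.not_big (fun a => a.elim0))
  have h4 : (fun i => φ i (fun p => b p.1.1 p.1.2 p.2)) = fun i =>
      (φ i ∘ₗ LinearMap.funLeft k k (fun p : (Fin n × Fin n) × Fin N =>
        ((finProdFinEquiv p.1, p.2) : Fin (n * n) × Fin N))) fun p =>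
        b (finProdFinEquiv.symm p.1).1 (finProdFinEquiv.symm p.1).2 p.2 := by
    funext i
    rw [LinearMap.comp_apply]
    congr 1
    funext p
    rw [LinearMap.funLeft_apply]
    simp only [Equiv.symm_apply_apply]
  rw [h4]
  exact h3

/-- **Dimension.** -/
theorem det_dim [CharZero k] [CharZero Cc] {Lt : Submodule k Cc} (hL : Hyp Lt)
    (hw : Wts' k Cc) (W : Submodule k Cc) [FiniteDimensional k W] (hW : W ≤ Lt) {n : ℕ}
    (φ : Fin (n * n * (n * n - 1) + 1) → (Matrix (Fin n) (Fin n) W →ₗ[k] k)) :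
    ∃ P : MvPolynomial (Fin (n * n * (n * n - 1) + 1)) k, P ≠ 0 ∧
      ∀ A : Matrix (Fin n) (Fin n) W, (A.map (fun x => (x : Cc))).det = 0 →
      NoLine k (A.map (fun x => (x : Cc))) → eval (fun i => φ i A) P = 0 := by
  obtain ⟨P, h1, h2⟩ := det_coord (n := n) hL hw
    (fun j => (Module.finBasis k W j : Cc)) (fun j => hW (Module.finBasis k W j).2)
    ((Module.finBasis k W).linearIndependent.map' W.subtype
      (LinearMap.ker_eq_bot.2 W.subtype_injective))
    (fun i => φ i ∘ₗ Pool.Agent.Y787.HS.mkM (K := k) (W := W) n)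
  refine ⟨P, h1, fun A hA hA' => ?_⟩
  have h3 : (Matrix.of fun i j => ∑ s, algebraMap k Cc ((Module.finBasis k W).repr (A i j) s) *
      (Module.finBasis k W s : Cc)) = A.map (fun x => (x : Cc)) := by
    ext i j
    have h4 := congrArg (fun w : W => (w : Cc)) ((Module.finBasis k W).sum_repr (A i j))
    simp only [Submodule.coe_sum, Submodule.coe_smul, Algebra.smul_def] at h4
    exact h4
  have h5 : Pool.Agent.Y787.HS.mkM (K := k) (W := W) n
      (fun q => (Module.finBasis k W).repr (A q.1.1 q.1.2) q.2) = A := by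
    ext i j
    exact congrArg _ ((Module.finBasis k W).sum_repr (A i j))
  have h6 := h2 (fun i j s => (Module.finBasis k W).repr (A i j) s) (by rw [h3]; exact hA)
    (by rw [h3]; exact hA')
  simp only [LinearMap.comp_apply, h5] at h6
  exact h6

/-- **Size three, dimension.** -/
theorem three_dim [CharZero k] [CharZero Cc] {Lt : Submodule k Cc} (hL : Hyp Lt)
    (hw : Wts' k Cc) (W : Submodule k Cc) [FiniteDimensional k W] (hW : W ≤ Lt)
    (φ : Fin 73 → (Matrix (Fin 3) (Fin 3) W →ₗ[k] k)) :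
    ∃ P : MvPolynomial (Fin 73) k, P ≠ 0 ∧
      ∀ A : Matrix (Fin 3) (Fin 3) W, (A.map (fun x => (x : Cc))).det = 0 →
      ¬ RZ k (A.map (fun x => (x : Cc))) → eval (fun i => φ i A) P = 0 := by
  obtain ⟨P, h1, h2⟩ := det_dim (n := 3) hL hw W hW φ
  refine ⟨P, h1, fun A hA hA' => h2 A hA fun B hB => ?_⟩
  by_contra hcon
  push Not at hcon
  exact hA' (three_rz hL _ (fun i j => hW (A i j).2) B hB hcon)

/-- **Size three, counting.** -/
theorem three_count [CharZero Cc] [Algebra ℚ Cc] {Lt : Submodule ℚ Cc} (hL : Hyp Lt)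
    (hw : Wts' ℚ Cc) {N : ℕ} (l : Fin N → Cc) (hl : ∀ j, l j ∈ Lt)
    (hli : LinearIndependent ℚ l) :
    ∃ κ : ℕ, ∀ H : ℕ, 1 ≤ H →
      Set.ncard {A : Fin 3 → Fin 3 → Fin N → ℤ | (∀ i j s, |A i j s| ≤ H) ∧
        (Matrix.of fun i j => ∑ s, (A i j s : Cc) * l s).det = 0 ∧
        ¬ RZ ℚ (Matrix.of fun i j => ∑ s, (A i j s : Cc) * l s)} ≤ κ * H ^ 72 ∧
      H ^ (6 * N) ≤ Set.ncard {A : Fin 3 → Fin 3 → Fin N → ℤ | (∀ i j s, |A i j s| ≤ H) ∧
        (Matrix.of fun i j => ∑ s, (A i j s : Cc) * l s).det = 0} := by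
  classical
  have hcast : ∀ (b : Fin 3 → Fin 3 → Fin N → ℤ),
      (Matrix.of fun i j => ∑ s, algebraMap ℚ Cc ((b i j s : ℤ) : ℚ) * l s) =
      (Matrix.of fun i j => ∑ s, (b i j s : Cc) * l s) := by
    intro b
    ext i j
    simp
  obtain ⟨κ, hκ⟩ := Pool.Agent.Y787.HS.count_gen (K := ℚ) (d := 72)
    (σ := (Fin 3 × Fin 3) × Fin N)
    {x | (Matrix.of fun i j => ∑ s, algebraMap ℚ Cc (x ((i, j), s)) * l s).det = 0 ∧
      ¬ RZ ℚ (Matrix.of fun i j => ∑ s, algebraMap ℚ Cc (x ((i, j), s)) * l s)} (by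
      intro φ
      obtain ⟨P, h1, h2⟩ := det_coord (n := 3) hL hw l hl hli φ
      refine ⟨P, h1, fun x hx => ?_⟩
      refine h2 (fun i j s => x ((i, j), s)) hx.1 fun B hB => ?_
      by_contra hcon
      push Not at hcon
      refine hx.2 (three_rz hL _ (fun i j => ?_) B hB hcon)
      rw [Matrix.of_apply]
      refine Submodule.sum_mem _ fun s _ => ?_
      rw [← Algebra.smul_def]
      exact Lt.smul_mem _ (hl s))
  refine ⟨κ, fun H hH => ⟨?_, ?_⟩⟩
  · have hfin : Set.Finite {A : Fin 3 → Fin 3 → Fin N → ℤ | (∀ i j s, |A i j s| ≤ H) ∧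
        (Matrix.of fun i j => ∑ s, (A i j s : Cc) * l s).det = 0 ∧
        ¬ RZ ℚ (Matrix.of fun i j => ∑ s, (A i j s : Cc) * l s)} :=
      Pool.Agent.TH519.HS.sing_finite H _
    rw [Set.ncard_eq_toFinset_card _ hfin]
    let g : (Fin 3 → Fin 3 → Fin N → ℤ) → ((Fin 3 × Fin 3) × Fin N → ℤ) :=
      fun A p => A p.1.1 p.1.2 p.2
    have hg : Function.Injective g := by
      intro A A' h
      funext i j s
      exact congrFun h ((i, j), s)
    rw [← Finset.card_image_of_injective _ hg]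
    refine hκ H hH _ ?_
    intro a ha
    obtain ⟨A, hA, rfl⟩ := Finset.mem_image.1 ha
    rw [Set.Finite.mem_toFinset] at hA
    obtain ⟨h1, h2, h3⟩ := hA
    refine ⟨fun p => h1 _ _ _, ?_, ?_⟩
    · have := hcast A
      change (Matrix.of fun i j => ∑ s, algebraMap ℚ Cc ((A i j s : ℤ) : ℚ) * l s).det = 0
      rw [this]
      exact h2
    · have := hcast A
      change ¬ RZ ℚ (Matrix.of fun i j => ∑ s, algebraMap ℚ Cc ((A i j s : ℤ) : ℚ) * l s)
      rw [this]
      exact h3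
  · exact Pool.Agent.Y787.ZB.sing_lower' (n := 3) (by omega) l H

end Pool.Agent.Y787.AS
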