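import Pool.Agent.Y787.AS.Germ
import Pool.Agent.Y787.FE.Ops

/-!
# Linear spaces through the points of a family
-/

set_option autoImplicit false

namespace Pool.Agent.Y787.AS
open MvPolynomial Module Filter
open Pool.Agent.W254.PA (Hyp)

variable {k Cc : Type} [Field k] [Field Cc] [Algebra k Cc]

theorem RE_span {m n : ℕ} (C : Fin n → Fin m → k) {c : Fin m → Cc}
    (hc : c ∈ RE Cc (Submodule.span k (Set.range C))) :
    ∃ e : Fin n → Cc, ∀ i, c i = ∑ β, e β * algebraMap k Cc (C β i) := by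
  classical
  induction hc using Submodule.span_induction with
  | mem x hx =>
    obtain ⟨c', hc', rfl⟩ := hx
    obtain ⟨e, he⟩ := (Submodule.mem_span_range_iff_exists_fun k).1 hc'
    refine ⟨fun β => algebraMap k Cc (e β), fun i => ?_⟩
    rw [← he]
    change algebraMap k Cc ((∑ β, e β • C β) i) = _
    rw [Finset.sum_apply, map_sum]
    refine Finset.sum_congr rfl fun β _ => ?_
    rw [Pi.smul_apply, smul_eq_mul, map_mul]
  | zero => exact ⟨0, fun i => by simp⟩
  | add x z _ _ hx hz =>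
    obtain ⟨e, he⟩ := hx
    obtain ⟨e', he'⟩ := hz
    refine ⟨e + e', fun i => ?_⟩
    rw [Pi.add_apply, he, he', ← Finset.sum_add_distrib]
    refine Finset.sum_congr rfl fun β _ => ?_
    rw [Pi.add_apply, add_mul]
  | smul t x _ hx =>
    obtain ⟨e, he⟩ := hx
    refine ⟨t • e, fun i => ?_⟩
    rw [Pi.smul_apply, he, smul_eq_mul, Finset.mul_sum]
    refine Finset.sum_congr rfl fun β _ => ?_
    rw [Pi.smul_apply, smul_eq_mul, mul_assoc]

variable {ι : Type} (𝒰 : Ultrafilter ι)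

section poly

variable {m τ : ℕ} (t : ι → Fin τ → k)

/-- the polynomials in the field of germs, with the germs of the parameters -/
noncomputable def polyE (t : ι → Fin τ → k) :
    MvPolynomial (Fin m ⊕ Fin τ) Cc →+* MvPolynomial (Fin m) (GE 𝒰 Cc) :=
  eval₂Hom (C.comp ((ge 𝒰 Cc).comp (Pi.constRingHom ι Cc)))
    (Sum.elim X (fun a => C (geMap 𝒰 (algebraMap k Cc) (ge 𝒰 k (fun x => t x a)))))

theorem polyE_eval (z : ι → Fin m → Cc) (F : MvPolynomial (Fin m ⊕ Fin τ) Cc) :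
    eval (fun i => ge 𝒰 Cc (fun x => z x i)) (polyE 𝒰 t F) =
      ge 𝒰 Cc (fun x => eval (Sum.elim (z x) (fun a => algebraMap k Cc (t x a))) F) := by
  have h : (eval (fun i => ge 𝒰 Cc (fun x => z x i))).comp (polyE 𝒰 t) =
      (ge 𝒰 Cc).comp (RingHom.pi fun x : ι =>
        eval (Sum.elim (z x) (fun a => algebraMap k Cc (t x a)))) := by
    apply MvPolynomial.ringHom_ext
    · intro r
      rw [RingHom.comp_apply, polyE, coe_eval₂Hom, eval₂_C, RingHom.comp_apply, eval_C]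
      change ge 𝒰 Cc (fun _ => r) = ge 𝒰 Cc (fun x => eval _ (C r))
      simp only [eval_C]
    · intro i
      rw [RingHom.comp_apply, polyE, coe_eval₂Hom, eval₂_X]
      change _ = ge 𝒰 Cc (fun x => eval _ (X i))
      simp only [eval_X]
      rcases i with i | a
      · rw [Sum.elim_inl, eval_X]
        rfl
      · rw [Sum.elim_inr, eval_C]
        rfl
  exact RingHom.congr_fun h F

theorem polyE_coefD (D : Derivation ℤ (GE 𝒰 Cc) (GE 𝒰 Cc))
    (hD0 : ∀ z : Cc, D (ge 𝒰 Cc (fun _ => z)) = 0)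
    (hDt : ∀ a, D (geMap 𝒰 (algebraMap k Cc) (ge 𝒰 k (fun x => t x a))) = 0)
    (F : MvPolynomial (Fin m ⊕ Fin τ) Cc) : coefD D (polyE 𝒰 t F) = 0 := by
  induction F using MvPolynomial.induction_on with
  | C a =>
    rw [polyE, coe_eval₂Hom, eval₂_C, RingHom.comp_apply, coefD_C]
    have : D (((ge 𝒰 Cc).comp (Pi.constRingHom ι Cc)) a) = 0 := hD0 a
    rw [this, map_zero]
  | add p q hp hq => rw [map_add, coefD_add, hp, hq, add_zero]
  | mul_X p n hp =>
    rw [map_mul]
    rcases n with i | a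
    · have h1 : polyE 𝒰 t (X (Sum.inl i)) = (X i : MvPolynomial (Fin m) (GE 𝒰 Cc)) := by
        rw [polyE, coe_eval₂Hom, eval₂_X, Sum.elim_inl]
      rw [h1, coefD_mul_X, hp, zero_mul]
    · have h1 : polyE 𝒰 t (X (Sum.inr a)) =
          (C (geMap 𝒰 (algebraMap k Cc) (ge 𝒰 k (fun x => t x a))) :
            MvPolynomial (Fin m) (GE 𝒰 Cc)) := by
        rw [polyE, coe_eval₂Hom, eval₂_X, Sum.elim_inr]
      rw [h1, mul_comm, coefD_C_mul, hDt, map_zero, zero_mul, hp, mul_zero, add_zero]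

end poly

/-- **The theorem for germs.** -/
theorem germ_main [CharZero k] [CharZero Cc] {Lt : Submodule k Cc} (hL : Hyp Lt)
    (hw : Wts' k Cc) {m N q τ r : ℕ} (l : Fin N → Cc) (hl : ∀ j, l j ∈ Lt)
    (hli : LinearIndependent k l) (β : ι → Fin m → Fin N → k) (t : ι → Fin τ → k)
    (F : Fin r → MvPolynomial (Fin m ⊕ Fin τ) Cc)
    (hF : ∀ x s, eval (Sum.elim (fun i => ∑ j, algebraMap k Cc (β x i j) * l j)
      (fun a => algebraMap k Cc (t x a))) (F s) = 0)
    (φ : Fin q → ((Fin m × Fin N → k) →ₗ[k] k))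
    (hgen : ∀ P : MvPolynomial (Fin q) k, P ≠ 0 →
      ∀ᶠ x in (𝒰 : Filter ι), eval (fun i => φ i (fun p => β x p.1 p.2)) P ≠ 0) :
    ∃ ρ', q ≤ τ + (ρ' * N + (m - ρ') * (m - 1)) ∧ ∀ᶠ x in (𝒰 : Filter ι),
      ∃ R : Submodule k (Fin m → k), finrank k R = ρ' ∧ ∀ s, ∀ c ∈ RE Cc R,
        eval (Sum.elim (fun i => ∑ j, algebraMap k Cc (β x i j) * l j + c i)
          (fun a => algebraMap k Cc (t x a))) (F s) = 0 := by
  classical
  letI := algG k Cc 𝒰
  have hch2 : CharZero (GE 𝒰 Cc) :=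
    charZero_of_injective_ringHom ((ge 𝒰 Cc).comp (Pi.constRingHom ι Cc)).injective
  choose d D hD1 hD2 hd3 hd4 using germ_der (Cc := Cc) 𝒰
    (fun x i => φ i (fun p => β x p.1 p.2)) hgen
  have hg : ∀ κ a, D κ (algebraMap (GE 𝒰 k) (GE 𝒰 Cc) a) =
      algebraMap (GE 𝒰 k) (GE 𝒰 Cc) ((fun κ => ⇑(d κ)) κ a) := hD1
  -- the derivations which kill the parameters
  let Θ : (Fin q → GE 𝒰 k) →ₗ[GE 𝒰 k] (Fin τ → GE 𝒰 k) :=
    { toFun := fun δ a => gd (fun κ => ⇑(d κ)) δ (ge 𝒰 k (fun x => t x a))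
      map_add' := fun δ δ' => by
        funext a
        exact gd_add _ δ δ' _
      map_smul' := fun p δ => by
        funext a
        exact gd_smul _ p δ _ }
  have hΘ : q ≤ τ + finrank (GE 𝒰 k) (LinearMap.ker Θ) := by
    have h1 := LinearMap.finrank_range_add_finrank_ker Θ
    rw [finrank_fintype_fun_eq_card, Fintype.card_fin] at h1
    have h2 : finrank (GE 𝒰 k) (LinearMap.range Θ) ≤ τ := by
      have := Submodule.finrank_le (LinearMap.range Θ)
      rwa [finrank_fintype_fun_eq_card, Fintype.card_fin] at this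
    omega
  have hl2 : ∀ j, ge 𝒰 Cc (fun _ => l j) ∈ LG 𝒰 Lt := fun j =>
    ⟨fun _ => l j, rfl, Eventually.of_forall fun _ => hl j⟩
  have hli2 : LinearIndependent (GE 𝒰 k) (fun j => ge 𝒰 Cc (fun _ => l j)) := by
    rw [Fintype.linearIndependent_iff]
    intro c hc
    choose c' hc' using fun j => ge_surj 𝒰 k (c j)
    have h1 : ∑ j, geMap 𝒰 (algebraMap k Cc) (c j) * ge 𝒰 Cc (fun _ => l j) = 0 := by
      rw [← hc]
      refine Finset.sum_congr rfl fun j _ => ?_
      rw [Algebra.smul_def]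
      rfl
    have h2 : ∑ j, geMap 𝒰 (algebraMap k Cc) (c j) * ge 𝒰 Cc (fun _ => l j) =
        ge 𝒰 Cc (fun x => ∑ j, algebraMap k Cc (c' j x) * l j) := by
      simp only [← hc', geMap_ge, ← map_mul, ← map_sum]
      congr 1
      funext x
      rw [Finset.sum_apply]
      rfl
    rw [h2, ge_eq_zero] at h1
    intro j
    rw [← hc', ge_eq_zero]
    refine h1.mono fun x hx => ?_
    refine (Fintype.linearIndependent_iff.1 hli) (fun j => c' j x) ?_ j
    rw [← hx]
    exact Finset.sum_congr rfl fun j _ => Algebra.smul_def _ _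
  -- the point
  have hy : ∀ i, ∑ j, algebraMap (GE 𝒰 k) (GE 𝒰 Cc) (ge 𝒰 k (fun x => β x i j)) *
      ge 𝒰 Cc (fun _ => l j) = ge 𝒰 Cc (fun x => ∑ j, algebraMap k Cc (β x i j) * l j) := by
    intro i
    have h1 : ∀ j, algebraMap (GE 𝒰 k) (GE 𝒰 Cc) (ge 𝒰 k (fun x => β x i j)) *
        ge 𝒰 Cc (fun _ => l j) = ge 𝒰 Cc (fun x => algebraMap k Cc (β x i j) * l j) := by
      intro j
      change geMap 𝒰 (algebraMap k Cc) _ * _ = _
      rw [geMap_ge, ← map_mul]
      rfl
    rw [Finset.sum_congr rfl fun j _ => h1 j, ← map_sum]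
    congr 1
    funext x
    rw [Finset.sum_apply]
  have hinj : ∀ δ ∈ LinearMap.ker Θ, (∀ i j, gd (fun κ => ⇑(d κ)) δ
      (ge 𝒰 k (fun x => β x i j)) = 0) → δ = 0 := by
    intro δ _ hδ
    funext κ
    have h1 : ge 𝒰 k (fun x => φ κ (fun p => β x p.1 p.2)) =
        ∑ p : Fin m × Fin N, ge 𝒰 k (fun _ => φ κ (Pi.single p 1)) *
          ge 𝒰 k (fun x => β x p.1 p.2) := by
      simp only [← map_mul, ← map_sum]
      congr 1
      funext x
      rw [Finset.sum_apply]
      conv_lhs => rw [pi_eq_sum_univ' (fun p : Fin m × Fin N => β x p.1 p.2), map_sum]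
      refine Finset.sum_congr rfl fun p _ => ?_
      rw [map_smul, smul_eq_mul]
      change _ = φ κ (Pi.single p 1) * β x p.1 p.2
      rw [mul_comm]
    have h2 : gd (fun κ => ⇑(d κ)) δ (ge 𝒰 k (fun x => φ κ (fun p => β x p.1 p.2))) = 0 := by
      rw [h1, gd_sum_mul D (fun κ => ⇑(d κ)) hg]
      refine Finset.sum_eq_zero fun p _ => ?_
      rw [hδ, mul_zero, add_zero]
      have h3 : gd (fun κ => ⇑(d κ)) δ (ge 𝒰 k (fun _ => φ κ (Pi.single p 1))) = 0 := by
        rw [gd]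
        refine Finset.sum_eq_zero fun κ' _ => ?_
        rw [hd3, mul_zero]
      rw [h3, zero_mul]
    rw [gd, Finset.sum_eq_single κ] at h2
    · rw [hd4, if_pos rfl, mul_one] at h2
      exact h2
    · intro κ' _ hκ'
      rw [hd4, if_neg (Ne.symm hκ'), mul_zero]
    · intro h; exact absurd (Finset.mem_univ _) h
  obtain ⟨R, hR1, hR2⟩ := abs_main (hyp_germ 𝒰 hL) (wts_of (wts_germ 𝒰 hw))
    (fun j => ge 𝒰 Cc (fun _ => l j)) hl2 hli2 (fun i j => ge 𝒰 k (fun x => β x i j)) D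
    (fun κ => ⇑(d κ)) hg (fun κ j => hD2 κ (l j)) (LinearMap.ker Θ) hinj
    (Set.range fun s => polyE 𝒰 t (F s)) (by
      rintro _ ⟨s, rfl⟩
      simp only [hy]
      rw [polyE_eval, ge_eq_zero]
      exact Eventually.of_forall fun x => hF x s) (by
      rintro δ hδ _ ⟨s, rfl⟩
      refine polyE_coefD 𝒰 t _ (fun z => ?_) (fun a => ?_) _
      · rw [Dd_apply]
        refine Finset.sum_eq_zero fun κ _ => ?_
        rw [hD2, mul_zero]
      · have h1 := Dd_alg D (fun κ => ⇑(d κ)) hg δ (ge 𝒰 k (fun x => t x a))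
        have h2 : gd (fun κ => ⇑(d κ)) δ (ge 𝒰 k (fun x => t x a)) = 0 :=
          congrFun (LinearMap.mem_ker.1 hδ) a
        rw [h2, map_zero] at h1
        exact h1)
  refine ⟨finrank (GE 𝒰 k) R, by omega, ?_⟩
  -- representatives of a basis
  let cB := finBasis (GE 𝒰 k) R
  choose C hC using fun b i => ge_surj 𝒰 k ((cB b : Fin m → GE 𝒰 k) i)
  have e1 : ∀ᶠ x in (𝒰 : Filter ι), ∀ c : Fin (finrank (GE 𝒰 k) R) → k,
      (∀ i, ∑ b, algebraMap k k (c b) * C b i x = 0) → c = 0 := by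
    refine ev_li 𝒰 (fun b (i : Fin m) => C b i) fun c hc => ?_
    funext b
    refine (Fintype.linearIndependent_iff.1 cB.linearIndependent) c ?_ b
    apply Subtype.ext
    funext i
    simp only [Submodule.coe_sum, Submodule.coe_smul, Finset.sum_apply, Pi.smul_apply,
      smul_eq_mul, ← hC]
    have h1 := hc i
    have h2 : ∀ z : GE 𝒰 k, geMap 𝒰 (algebraMap k k) z = z := by
      intro z
      obtain ⟨z', rfl⟩ := ge_surj 𝒰 k z
      rfl
    simp only [h2] at h1
    exact h1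
  have e2 : ∀ᶠ x in (𝒰 : Filter ι), ∀ s, ∀ e : Fin (finrank (GE 𝒰 k) R) → Cc,
      eval (Sum.elim (fun i => ∑ j, algebraMap k Cc (β x i j) * l j +
        ∑ b, e b * algebraMap k Cc (C b i x)) (fun a => algebraMap k Cc (t x a))) (F s) = 0 := by
    rw [eventually_all]
    intro s
    by_contra hcon
    rw [← Ultrafilter.eventually_not] at hcon
    have h1 : ∀ x, ∃ e : Fin (finrank (GE 𝒰 k) R) → Cc,
        (¬ ∀ e : Fin (finrank (GE 𝒰 k) R) → Cc,
          eval (Sum.elim (fun i => ∑ j, algebraMap k Cc (β x i j) * l j +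
            ∑ b, e b * algebraMap k Cc (C b i x)) (fun a => algebraMap k Cc (t x a))) (F s) = 0) →
        eval (Sum.elim (fun i => ∑ j, algebraMap k Cc (β x i j) * l j +
          ∑ b, e b * algebraMap k Cc (C b i x)) (fun a => algebraMap k Cc (t x a))) (F s) ≠ 0 := by
      intro x
      by_cases hx : ∀ e : Fin (finrank (GE 𝒰 k) R) → Cc,
          eval (Sum.elim (fun i => ∑ j, algebraMap k Cc (β x i j) * l j +
            ∑ b, e b * algebraMap k Cc (C b i x)) (fun a => algebraMap k Cc (t x a))) (F s) = 0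
      · exact ⟨0, fun h => absurd hx h⟩
      · obtain ⟨e, he⟩ := not_forall.1 hx
        exact ⟨e, fun _ => he⟩
    choose e he using h1
    have h2 := hR2 _ ⟨s, rfl⟩ (∑ b, ge 𝒰 Cc (fun x => e x b) •
      fun i => algebraMap (GE 𝒰 k) (GE 𝒰 Cc) ((cB b : Fin m → GE 𝒰 k) i))
      (Submodule.sum_mem _ fun b _ => Submodule.smul_mem _ _ (Submodule.subset_span
        ⟨_, (cB b).2, rfl⟩))
    have h3 : (fun i => ∑ j, algebraMap (GE 𝒰 k) (GE 𝒰 Cc) (ge 𝒰 k (fun x => β x i j)) *
        ge 𝒰 Cc (fun _ => l j) + (∑ b, ge 𝒰 Cc (fun x => e x b) •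
      fun i => algebraMap (GE 𝒰 k) (GE 𝒰 Cc) ((cB b : Fin m → GE 𝒰 k) i)) i) =
        fun i => ge 𝒰 Cc (fun x => ∑ j, algebraMap k Cc (β x i j) * l j +
          ∑ b, e x b * algebraMap k Cc (C b i x)) := by
      funext i
      rw [hy, Finset.sum_apply]
      have h4 : ∀ b, (ge 𝒰 Cc (fun x => e x b) • fun i => algebraMap (GE 𝒰 k) (GE 𝒰 Cc)
          ((cB b : Fin m → GE 𝒰 k) i)) i = ge 𝒰 Cc (fun x => e x b * algebraMap k Cc (C b i x)) := by
        intro b
        rw [Pi.smul_apply, smul_eq_mul, ← hC]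
        change ge 𝒰 Cc _ * geMap 𝒰 (algebraMap k Cc) _ = _
        rw [geMap_ge, ← map_mul]
        rfl
      rw [Finset.sum_congr rfl fun b _ => h4 b, ← map_sum, ← map_add]
      congr 1
      funext x
      rw [Pi.add_apply, Finset.sum_apply]
    rw [h3, polyE_eval, ge_eq_zero] at h2
    obtain ⟨x, hx1, hx2⟩ := (hcon.and h2).exists
    exact he x hx1 hx2
  refine (e1.and e2).mono fun x hx => ?_
  have hlix : LinearIndependent k (fun b i => C b i x) := by
    rw [Fintype.linearIndependent_iff]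
    intro c hc b
    refine congrFun (hx.1 c fun i => ?_) b
    have h1 := congrFun hc i
    rw [Finset.sum_apply, Pi.zero_apply] at h1
    exact h1
  refine ⟨Submodule.span k (Set.range fun b i => C b i x), ?_, ?_⟩
  · rw [finrank_span_eq_card hlix, Fintype.card_fin]
  · intro s c hc
    obtain ⟨e, he⟩ := RE_span _ hc
    have h1 := hx.2 s e
    simp only [← he] at h1
    exact h1

end Pool.Agent.Y787.AS
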