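import Pool.Agent.Y787.AS.Blk

/-!
# Spaces of matrices of bounded rank
-/

set_option autoImplicit false

namespace Pool.Agent.Y787.AS
open Module Matrix

variable {k : Type} [Field k]

/-- spaces which are orthogonal for a diagonal form -/
theorem orth_le {ι : Type} [Fintype ι] [DecidableEq ι] (w : ι → k) (hw : ∀ i, w i ≠ 0)
    (A B : Submodule k (ι → k)) (h : ∀ c ∈ A, ∀ b ∈ B, ∑ l, c l * w l * b l = 0) :
    finrank k A + finrank k B ≤ Fintype.card ι := by
  let MA : Matrix (Fin (finrank k A)) ι k := Matrix.of fun i l => (finBasis k A i : ι → k) l * w l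
  let MB : Matrix (Fin (finrank k B)) ι k := Matrix.of fun j l => (finBasis k B j : ι → k) l
  have hAB : MA * MBᵀ = 0 := by
    ext i j
    rw [Matrix.mul_apply, Matrix.zero_apply]
    exact h _ (finBasis k A i).2 _ (finBasis k B j).2
  have hA : MA.rank = finrank k A := by
    have h2 : LinearIndependent k MA.row := by
      rw [Fintype.linearIndependent_iff]
      intro g hg
      refine Fintype.linearIndependent_iff.1 (finBasis k A).linearIndependent g ?_
      apply Subtype.ext
      funext l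
      have h3 := congrFun hg l
      rw [Finset.sum_apply, Pi.zero_apply] at h3
      rw [Submodule.coe_sum, Finset.sum_apply]
      have h4 : (∑ i, ((g i • finBasis k A i : A) : ι → k) l) * w l = 0 := by
        rw [Finset.sum_mul, ← h3]
        refine Finset.sum_congr rfl fun i _ => ?_
        change g i * (finBasis k A i : ι → k) l * w l = g i * ((finBasis k A i : ι → k) l * w l)
        ring
      exact (mul_eq_zero.1 h4).resolve_right (hw l)
    rw [h2.rank_matrix, Fintype.card_fin]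
  have hB : MBᵀ.rank = finrank k B := by
    have h2 : LinearIndependent k MB.row := by
      have h3 := (finBasis k B).linearIndependent.map' B.subtype
        (LinearMap.ker_eq_bot.2 B.subtype_injective)
      exact h3
    rw [Matrix.rank_transpose, h2.rank_matrix, Fintype.card_fin]
  have h2 := Matrix.rank_add_rank_le_card_of_mul_eq_zero hAB
  omega

/-- an isotropic space of pairs -/
theorem iso_le {ι : Type} [Fintype ι] [DecidableEq ι] (w : ι → k) (hw : ∀ i, w i ≠ 0)
    (S : Submodule k ((ι → k) × (ι → k))) (h : ∀ z ∈ S, ∑ l, z.1 l * w l * z.2 l = 0) :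
    finrank k S ≤ Fintype.card ι := by
  have h0 := orth_le w hw (S.map (LinearMap.fst k _ _)) (S.comap (LinearMap.inr k _ _)) (by
    rintro _ ⟨z, hz, rfl⟩ b hb
    have h1 := h _ (S.add_mem hz hb)
    have h2 := h _ hz
    have h3 : ∑ l, z.1 l * w l * b l = (∑ l, (z + LinearMap.inr k _ _ b).1 l * w l *
        (z + LinearMap.inr k _ _ b).2 l) - ∑ l, z.1 l * w l * z.2 l := by
      rw [← Finset.sum_sub_distrib]
      refine Finset.sum_congr rfl fun l _ => ?_
      change z.1 l * w l * b l = (z.1 l + 0) * w l * (z.2 l + b l) - z.1 l * w l * z.2 l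
      ring
    rw [h1, h2, sub_zero] at h3
    exact h3)
  refine le_trans ?_ h0
  have h1 := LinearMap.finrank_range_add_finrank_ker ((LinearMap.fst k (ι → k) (ι → k)).domRestrict S)
  rw [← h1]
  refine Nat.add_le_add (le_of_eq ?_) ?_
  · rw [LinearMap.range_domRestrict]
  · let g : LinearMap.ker ((LinearMap.fst k (ι → k) (ι → k)).domRestrict S) →ₗ[k]
        S.comap (LinearMap.inr k (ι → k) (ι → k)) :=
      LinearMap.codRestrict _ (LinearMap.snd k _ _ ∘ₗ S.subtype ∘ₗ Submodule.subtype _) (by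
        rintro ⟨⟨z, hz⟩, hz'⟩
        have h4 : z.1 = 0 := hz'
        change ((0 : ι → k), z.2) ∈ S
        rw [← h4]
        exact hz)
    refine LinearMap.finrank_le_finrank_of_injective (f := g) ?_
    rintro ⟨⟨z, hz⟩, hz'⟩ ⟨⟨y, hy⟩, hy'⟩ hzy
    have h4 : z.1 = 0 := hz'
    have h5 : y.1 = 0 := hy'
    have h6 : z.2 = y.2 := congrArg Subtype.val hzy
    have h7 : z = y := Prod.ext (h4.trans h5.symm) h6
    subst h7
    rfl

section diag

variable [Infinite k] [DecidableEq k] {n : ℕ} (D : Fin n → k)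

theorem det_zero_of_rank {m : Type} [Fintype m] [DecidableEq m] {ρ : ℕ} (A : Matrix m m k)
    (h : A.rank ≤ ρ) (hm : ρ < Fintype.card m) : A.det = 0 := by
  by_contra h0
  have := Matrix.rank_of_det_ne_zero h0
  omega

theorem diag_rel (X : Matrix (Fin n) (Fin n) k)
    (h : ∀ y : k, (diagonal D + y • X).rank ≤ Fintype.card {l // D l ≠ 0}) (i j : Fin n)
    (hi : D i = 0) (hj : D j = 0) :
    X i j = 0 ∧ ∑ l : {l // D l ≠ 0}, X i l * (D l)⁻¹ * X l j = 0 := by
  classical
  let c : Matrix {l // D l ≠ 0} Unit k := Matrix.of fun l _ => X l j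
  let w : Matrix Unit {l // D l ≠ 0} k := Matrix.of fun _ l => X i l
  let e : Matrix Unit Unit k := Matrix.of fun _ _ => X i j
  let XS : Matrix {l // D l ≠ 0} {l // D l ≠ 0} k := X.submatrix Subtype.val Subtype.val
  let DS : Matrix {l // D l ≠ 0} {l // D l ≠ 0} k := diagonal fun l => D l
  let Di : Matrix {l // D l ≠ 0} {l // D l ≠ 0} k := diagonal fun l => (D l)⁻¹
  let f : {l // D l ≠ 0} ⊕ Unit → Fin n := Sum.elim Subtype.val fun _ => i
  let g : {l // D l ≠ 0} ⊕ Unit → Fin n := Sum.elim Subtype.val fun _ => j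
  have hcard : Fintype.card {l // D l ≠ 0} < Fintype.card ({l // D l ≠ 0} ⊕ Unit) := by
    rw [Fintype.card_sum, Fintype.card_unit]
    omega
  have hsub : ∀ y : k, (diagonal D + y • X).submatrix f g =
      fromBlocks (DS + y • XS) (y • c) (y • w) (y • e) := by
    intro y
    ext (a | a) (b | b)
    · by_cases hab : a = b
      · subst hab
        simp [f, g, DS, XS]
      · have : (a : Fin n) ≠ b := fun h => hab (Subtype.ext h)
        simp [f, g, DS, XS, Matrix.diagonal_apply_ne _ this, Matrix.diagonal_apply_ne _ hab]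
    · have : (a : Fin n) ≠ j := fun h => a.2 (by rw [h]; exact hj)
      simp [f, g, c, Matrix.diagonal_apply_ne _ this]
    · have : i ≠ (b : Fin n) := fun h => b.2 (by rw [← h]; exact hi)
      simp [f, g, w, Matrix.diagonal_apply_ne _ this]
    · by_cases hij : i = j
      · subst hij
        simp [f, g, e, hi]
      · simp [f, g, e, Matrix.diagonal_apply_ne _ hij]
  have hrk : ∀ y : k, ((diagonal D + y • X).submatrix f g).rank ≤
      Fintype.card {l // D l ≠ 0} := fun y => (Matrix.rank_submatrix_le _ _ _).trans (h y)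
  have hDS : DS.det ≠ 0 := by
    rw [Matrix.det_diagonal, Finset.prod_ne_zero_iff]
    exact fun l _ => l.2
  have h1 : (fromBlocks DS c 0 e).det = 0 := by
    refine det_at_zero _ (fromBlocks XS 0 w 0) fun y hy => ?_
    have h2 : fromBlocks DS c 0 e + y • fromBlocks XS 0 w 0 =
        (diagonal D + y • X).submatrix f g * fromBlocks 1 0 0 (y⁻¹ • (1 : Matrix Unit Unit k)) := by
      rw [hsub, Matrix.fromBlocks_smul, Matrix.fromBlocks_add, Matrix.fromBlocks_multiply]
      simp only [Matrix.mul_one, Matrix.mul_zero, add_zero, zero_add, Matrix.mul_smul, smul_zero,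
        smul_smul, inv_mul_cancel₀ hy, one_smul]
    rw [h2]
    exact det_zero_of_rank _ ((Matrix.rank_mul_le_left _ _).trans (hrk y)) hcard
  rw [Matrix.det_fromBlocks_zero₂₁] at h1
  have hX : X i j = 0 := by
    have h2 := (mul_eq_zero.1 h1).resolve_left hDS
    rw [Matrix.det_unique] at h2
    exact h2
  refine ⟨hX, ?_⟩
  have he : e = 0 := by
    ext a b
    exact hX
  have h2 : (fromBlocks DS c w 0).det = 0 := by
    refine det_at_zero _ (fromBlocks XS 0 0 0) fun y hy => ?_
    have h2 : fromBlocks DS c w 0 + y • fromBlocks XS 0 0 0 =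
        fromBlocks 1 0 0 (y⁻¹ • (1 : Matrix Unit Unit k)) *
        ((diagonal D + y • X).submatrix f g *
          fromBlocks 1 0 0 (y⁻¹ • (1 : Matrix Unit Unit k))) := by
      rw [hsub, he, Matrix.fromBlocks_smul, Matrix.fromBlocks_add, Matrix.fromBlocks_multiply,
        Matrix.fromBlocks_multiply]
      simp only [Matrix.mul_one, Matrix.one_mul, Matrix.mul_zero, Matrix.zero_mul, add_zero,
        zero_add, Matrix.mul_smul, Matrix.smul_mul, smul_zero, smul_smul, inv_mul_cancel₀ hy,
        mul_inv_cancel₀ hy, one_smul]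
    rw [h2]
    exact det_zero_of_rank _ ((Matrix.rank_mul_le_right _ _).trans
      ((Matrix.rank_mul_le_left _ _).trans (hrk y))) hcard
  have hDiD : Di * DS = 1 := by
    rw [Matrix.diagonal_mul_diagonal, ← Matrix.diagonal_one]
    congr 1
    funext l
    exact inv_mul_cancel₀ l.2
  have h3 : fromBlocks DS c w 0 = fromBlocks 1 0 (w * Di) 1 * fromBlocks DS c 0 (-(w * Di * c)) := by
    rw [Matrix.fromBlocks_multiply]
    simp only [Matrix.one_mul, Matrix.zero_mul, Matrix.mul_zero, add_zero]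
    rw [Matrix.mul_assoc w Di DS, hDiD, Matrix.mul_one, add_neg_cancel]
  rw [h3, Matrix.det_mul, Matrix.det_fromBlocks_zero₁₂, Matrix.det_fromBlocks_zero₂₁,
    Matrix.det_one, Matrix.det_one, one_mul, one_mul] at h2
  have h4 := (mul_eq_zero.1 h2).resolve_left hDS
  rw [Matrix.det_unique, Matrix.neg_apply, neg_eq_zero, Matrix.mul_apply] at h4
  refine Eq.trans ?_ h4
  refine Finset.sum_congr rfl fun l _ => ?_
  rw [Matrix.mul_diagonal]
  rfl

/-- the row and the column of an index -/
def rc (i : Fin n) : Matrix (Fin n) (Fin n) k →ₗ[k]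
    ({l // D l ≠ 0} → k) × ({l // D l ≠ 0} → k) where
  toFun X := (fun l => X i l, fun l => X l i)
  map_add' _ _ := rfl
  map_smul' _ _ := rfl

/-- the main block -/
def mb : Matrix (Fin n) (Fin n) k →ₗ[k] ({l // D l ≠ 0} → {l // D l ≠ 0} → k) where
  toFun X := fun l l' => X l l'
  map_add' _ _ := rfl
  map_smul' _ _ := rfl

theorem flanders_diag (R : Submodule k (Matrix (Fin n) (Fin n) k)) (hD : diagonal D ∈ R)
    (h : ∀ X ∈ R, X.rank ≤ (diagonal D).rank) : finrank k R ≤ n * (diagonal D).rank := by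
  classical
  have hrk : (diagonal D).rank = Fintype.card {l // D l ≠ 0} := Matrix.rank_diagonal D
  rw [hrk] at h ⊢
  have hrel := fun (X : Matrix (Fin n) (Fin n) k) (hX : X ∈ R) (i j : Fin n) (hi : D i = 0)
    (hj : D j = 0) => diag_rel D X (fun y => h _ (R.add_mem hD (R.smul_mem y hX))) i j hi hj
  let Φ : R →ₗ[k] ({l // D l ≠ 0} → {l // D l ≠ 0} → k) ×
      (∀ i : {i // ¬ D i ≠ 0}, R.map (rc D (i : Fin n))) :=
    LinearMap.prod (mb D ∘ₗ R.subtype) (LinearMap.pi fun i =>
      (rc D (i : Fin n)).restrict fun X hX => Submodule.mem_map_of_mem hX)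
  have hΦ : Function.Injective Φ := by
    rw [injective_iff_map_eq_zero]
    intro X hX
    have h1 : ∀ l l' : {l // D l ≠ 0}, (X : Matrix (Fin n) (Fin n) k) l l' = 0 := fun l l' =>
      congrFun (congrFun (congrArg Prod.fst hX) l) l'
    have h2 : ∀ i : {i // ¬ D i ≠ 0}, rc D (i : Fin n) (X : Matrix (Fin n) (Fin n) k) = 0 :=
      fun i => congrArg Subtype.val (congrFun (congrArg Prod.snd hX) i)
    apply Subtype.ext
    ext i j
    by_cases hi : D i ≠ 0
    · by_cases hj : D j ≠ 0
      · exact h1 ⟨i, hi⟩ ⟨j, hj⟩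
      · exact congrFun (congrArg Prod.snd (h2 ⟨j, hj⟩)) ⟨i, hi⟩
    · by_cases hj : D j ≠ 0
      · exact congrFun (congrArg Prod.fst (h2 ⟨i, hi⟩)) ⟨j, hj⟩
      · exact (hrel X X.2 i j (not_not.1 hi) (not_not.1 hj)).1
  have h1 := LinearMap.finrank_le_finrank_of_injective hΦ
  have e1 : finrank k ({l // D l ≠ 0} → {l // D l ≠ 0} → k) =
      Fintype.card {l // D l ≠ 0} * Fintype.card {l // D l ≠ 0} := by
    rw [Module.finrank_pi_fintype]
    simp only [finrank_fintype_fun_eq_card, Finset.sum_const, Finset.card_univ, smul_eq_mul]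
  have e2 : finrank k (∀ i : {i // ¬ D i ≠ 0}, R.map (rc D (i : Fin n))) =
      ∑ i : {i // ¬ D i ≠ 0}, finrank k (R.map (rc D (i : Fin n))) :=
    Module.finrank_pi_fintype k
  rw [Module.finrank_prod, e1, e2] at h1
  have h2 : ∑ i : {i // ¬ D i ≠ 0}, finrank k (R.map (rc D (i : Fin n))) ≤
      ∑ _i : {i // ¬ D i ≠ 0}, Fintype.card {l // D l ≠ 0} := by
    refine Finset.sum_le_sum fun i _ => ?_
    refine iso_le (fun l : {l // D l ≠ 0} => (D l)⁻¹) (fun l => inv_ne_zero l.2) _ ?_
    rintro z ⟨X, hX, rfl⟩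
    exact (hrel X hX i i (not_not.1 i.2) (not_not.1 i.2)).2
  rw [Finset.sum_const, Finset.card_univ, smul_eq_mul] at h2
  have h3 : Fintype.card {l // D l ≠ 0} + Fintype.card {l // ¬ D l ≠ 0} = n := by
    have := Fintype.card_subtype_compl (fun l => D l ≠ 0)
    have h4 := Fintype.card_subtype_le (fun l => D l ≠ 0)
    rw [Fintype.card_fin] at this h4
    omega
  calc finrank k R ≤ _ := h1
    _ ≤ Fintype.card {l // D l ≠ 0} * Fintype.card {l // D l ≠ 0} +
        Fintype.card {l // ¬ D l ≠ 0} * Fintype.card {l // D l ≠ 0} := Nat.add_le_add_left h2 _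
    _ = n * Fintype.card {l // D l ≠ 0} := by rw [← Nat.add_mul, h3]

end diag

/-- **Flanders.** -/
theorem flanders [Infinite k] {n t : ℕ} (R : Submodule k (Matrix (Fin n) (Fin n) k))
    (h : ∀ X ∈ R, X.rank ≤ t) : finrank k R ≤ n * t := by
  classical
  obtain ⟨X₁, hX₁, hmax⟩ : ∃ X₁ ∈ R, ∀ X ∈ R, X.rank ≤ X₁.rank := by
    have hbdd : BddAbove {m | ∃ X ∈ R, X.rank = m} := ⟨t, by rintro _ ⟨X, hX, rfl⟩; exact h X hX⟩
    obtain ⟨X₁, hX₁, h1⟩ := Nat.sSup_mem (s := {m | ∃ X ∈ R, X.rank = m})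
      ⟨_, 0, R.zero_mem, rfl⟩ hbdd
    exact ⟨X₁, hX₁, fun X hX => by rw [h1]; exact le_csSup hbdd ⟨X, hX, rfl⟩⟩
  obtain ⟨L, L', D, hD⟩ :=
    Matrix.Pivot.exists_list_transvec_mul_mul_list_transvec_eq_diagonal X₁
  obtain ⟨P, hPdef⟩ : ∃ P, P = (List.map Matrix.TransvectionStruct.toMatrix L).prod := ⟨_, rfl⟩
  obtain ⟨Q, hQdef⟩ : ∃ Q, Q = (List.map Matrix.TransvectionStruct.toMatrix L').prod := ⟨_, rfl⟩
  have hP : P.det = 1 := by rw [hPdef]; exact Matrix.TransvectionStruct.det_toMatrix_prod L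
  have hQ : Q.det = 1 := by rw [hQdef]; exact Matrix.TransvectionStruct.det_toMatrix_prod L'
  rw [← hPdef, ← hQdef] at hD
  let Ψ : Matrix (Fin n) (Fin n) k →ₗ[k] Matrix (Fin n) (Fin n) k :=
    LinearMap.mulRight k Q ∘ₗ LinearMap.mulLeft k P
  have hΨ : ∀ X, Ψ X = P * X * Q := fun X => rfl
  have hinj : Function.Injective Ψ := by
    rw [injective_iff_map_eq_zero]
    intro X hX
    rw [hΨ] at hX
    have h1 : P⁻¹ * (P * X * Q) * Q⁻¹ = 0 := by rw [hX, Matrix.mul_zero, Matrix.zero_mul]
    rw [← Matrix.mul_assoc, ← Matrix.mul_assoc, Matrix.nonsing_inv_mul _ (by rw [hP]; exact isUnit_one),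
      Matrix.one_mul, Matrix.mul_assoc, Matrix.mul_nonsing_inv _ (by rw [hQ]; exact isUnit_one),
      Matrix.mul_one] at h1
    exact h1
  have h1 : finrank k (R.map Ψ) = finrank k R :=
    (Submodule.equivMapOfInjective Ψ hinj R).finrank_eq.symm
  have hr1 : (diagonal D).rank = X₁.rank := by
    rw [← hD, Matrix.rank_mul_eq_left_of_isUnit_det _ _ (by rw [hQ]; exact isUnit_one),
      Matrix.rank_mul_eq_right_of_isUnit_det _ _ (by rw [hP]; exact isUnit_one)]
  have h2 := flanders_diag D (R.map Ψ) ⟨X₁, hX₁, hD⟩ (by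
    rintro _ ⟨X, hX, rfl⟩
    rw [hr1, hΨ]
    exact (Matrix.rank_mul_le_left _ _).trans ((Matrix.rank_mul_le_right _ _).trans (hmax X hX)))
  rw [h1, hr1] at h2
  exact h2.trans (Nat.mul_le_mul_left _ (h X₁ hX₁))

end Pool.Agent.Y787.AS
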