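import Pool.Agent.Y787.AS.Abs
import Pool.Agent.Y787.GL.U2

/-!
# Germs: the hyperplane property, weights and derivations
-/

set_option autoImplicit false

namespace Pool.Agent.Y787.AS
open MvPolynomial Module Filter
open Pool.Agent.W254.PA (Hyp)
open Pool.Agent.TH519.GL
open Pool.Agent.Y787.GL (gh gh_eq gh_eq_zero gh_surj germMap germMap_gh)

/-- the field of germs -/
def GE {ι : Type} (𝒰 : Ultrafilter ι) (F : Type) : Type := Germ (𝒰 : Filter ι) F

noncomputable instance instFieldGE {ι : Type} (𝒰 : Ultrafilter ι) (F : Type) [Field F] :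
    Field (GE 𝒰 F) := inferInstanceAs (Field (Germ (𝒰 : Filter ι) F))

/-- the germ of a function -/
noncomputable def ge {ι : Type} (𝒰 : Ultrafilter ι) (F : Type) [Field F] : (ι → F) →+* GE 𝒰 F :=
  gh 𝒰 F

theorem ge_eq {ι : Type} (𝒰 : Ultrafilter ι) {R : Type} [Field R] (f g : ι → R) :
    ge 𝒰 R f = ge 𝒰 R g ↔ ∀ᶠ b in (𝒰 : Filter ι), f b = g b := gh_eq 𝒰 f g

theorem ge_eq_zero {ι : Type} (𝒰 : Ultrafilter ι) {R : Type} [Field R] (f : ι → R) :
    ge 𝒰 R f = 0 ↔ ∀ᶠ b in (𝒰 : Filter ι), f b = 0 := gh_eq_zero 𝒰 f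

theorem ge_surj {ι : Type} (𝒰 : Ultrafilter ι) (R : Type) [Field R] :
    Function.Surjective (ge 𝒰 R) := gh_surj 𝒰 R

/-- ring homomorphisms act on germs -/
noncomputable def geMap {ι : Type} (𝒰 : Ultrafilter ι) {R S : Type} [Field R] [Field S]
    (f : R →+* S) : GE 𝒰 R →+* GE 𝒰 S := germMap 𝒰 f

theorem geMap_ge {ι : Type} (𝒰 : Ultrafilter ι) {R S : Type} [Field R] [Field S] (f : R →+* S)
    (a : ι → R) : geMap 𝒰 f (ge 𝒰 R a) = ge 𝒰 S (fun b => f (a b)) := rfl

/-- the existence of weights for finite families -/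
def Wts' (K E : Type) [Field K] [Field E] [Algebra K E] : Prop :=
  ∀ (r d : ℕ) (G : Fin r → Fin d → E), ∃ γ : Fin r → E, ∀ v : Fin d → K,
    ∑ e, algebraMap K E (v e) * ∑ a, γ a * G a e = 0 →
      ∀ a, ∑ e, algebraMap K E (v e) * G a e = 0

theorem wts_of {K E : Type} [Field K] [Field E] [Algebra K E] (h : Wts' K E) : Wts K E := by
  classical
  intro d H
  let w := finBasis E H
  obtain ⟨γ, hγ⟩ := h _ d (fun a e => (w a : Fin d → E) e)
  refine ⟨∑ a, γ a • (w a : Fin d → E), Submodule.sum_mem _ fun a _ => H.smul_mem _ (w a).2, ?_⟩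
  intro v hv h' hh'
  have h1 := hγ v (by
    rw [← hv]
    refine Finset.sum_congr rfl fun e _ => ?_
    rw [Finset.sum_apply]
    rfl)
  obtain ⟨c, hc⟩ : ∃ c : Fin (finrank E H) → E, ∀ e, h' e = ∑ a, c a * (w a : Fin d → E) e := by
    refine ⟨fun a => w.repr ⟨h', hh'⟩ a, fun e => ?_⟩
    have h2 := w.sum_repr ⟨h', hh'⟩
    have h3 := congrArg (fun x : H => (x : Fin d → E) e) h2
    simp only [Submodule.coe_sum, Submodule.coe_smul, Finset.sum_apply, Pi.smul_apply,
      smul_eq_mul] at h3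
    exact h3.symm
  have h4 : ∑ e, algebraMap K E (v e) * h' e =
      ∑ a, c a * ∑ e, algebraMap K E (v e) * (w a : Fin d → E) e := by
    simp only [hc, Finset.mul_sum]
    rw [Finset.sum_comm]
    refine Finset.sum_congr rfl fun a _ => Finset.sum_congr rfl fun e _ => ?_
    ring
  rw [h4]
  refine Finset.sum_eq_zero fun a _ => ?_
  rw [h1 a, mul_zero]

/-- weights exist for countable subfields of uncountable fields -/
theorem wts_pt {k Cc : Type} [Field k] [Field Cc] [Algebra k Cc] [Countable k] [Uncountable Cc] :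
    Wts' k Cc := by
  classical
  intro r m G
  let q : (Fin m → k) → Polynomial Cc := fun v =>
    ∑ j : Fin r, Polynomial.C (∑ i, algebraMap k Cc (v i) * G j i) * Polynomial.X ^ (j : ℕ)
  have hcount : (⋃ v ∈ {v : Fin m → k | q v ≠ 0}, {τ : Cc | (q v).IsRoot τ}).Countable := by
    apply Set.Countable.biUnion (Set.to_countable _)
    intro v hv
    exact (Polynomial.finite_setOfPred_isRoot hv).countable
  obtain ⟨τ, hτ⟩ : ∃ τ, τ ∉ (⋃ v ∈ {v : Fin m → k | q v ≠ 0}, {τ : Cc | (q v).IsRoot τ}) := by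
    by_contra h
    push Not at h
    have h1 : (Set.univ : Set Cc).Countable := hcount.mono fun x _ => h x
    exact Set.not_countable_univ h1
  refine ⟨fun j => τ ^ (j : ℕ), fun v hv => ?_⟩
  have h1 : q v = 0 := by
    by_contra h
    apply hτ
    refine Set.mem_biUnion (show v ∈ {v : Fin m → k | q v ≠ 0} from h) ?_
    change (q v).IsRoot τ
    rw [Polynomial.IsRoot.def, Polynomial.eval_finsetSum, ← hv]
    simp only [Polynomial.eval_mul, Polynomial.eval_C, Polynomial.eval_pow, Polynomial.eval_X,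
      Finset.mul_sum, Finset.sum_mul]
    rw [Finset.sum_comm]
    refine Finset.sum_congr rfl fun i _ => Finset.sum_congr rfl fun j _ => ?_
    ring
  intro j
  have h2 := congrArg (fun p => Polynomial.coeff p (j : ℕ)) h1
  simp only [q, Polynomial.finsetSum_coeff, Polynomial.coeff_C_mul, Polynomial.coeff_X_pow,
    Polynomial.coeff_zero] at h2
  rw [Finset.sum_eq_single j] at h2
  · simpa using h2
  · intro i _ hij
    rw [if_neg (fun h => hij (Fin.ext h.symm)), mul_zero]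
  · intro h; exact absurd (Finset.mem_univ j) h

variable {k Cc : Type} [Field k] [Field Cc] [Algebra k Cc] {ι : Type} (𝒰 : Ultrafilter ι)

/-- the germs of `Cc` as an algebra over the germs of `k` -/
noncomputable abbrev algG (k Cc : Type) [Field k] [Field Cc] [Algebra k Cc] {ι : Type}
    (𝒰 : Ultrafilter ι) : Algebra (GE 𝒰 k) (GE 𝒰 Cc) :=
  (geMap 𝒰 (algebraMap k Cc)).toAlgebra

/-- independence of germs gives independence almost everywhere -/
theorem ev_li {F : Type} [Field F] [Algebra k F] {n : ℕ} {J : Type} (A : Fin n → J → ι → F)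
    (h : ∀ c : Fin n → GE 𝒰 k,
      (∀ j, ∑ t, geMap 𝒰 (algebraMap k F) (c t) * ge 𝒰 F (A t j) = 0) → c = 0) :
    ∀ᶠ x in (𝒰 : Filter ι), ∀ c : Fin n → k,
      (∀ j, ∑ t, algebraMap k F (c t) * A t j x = 0) → c = 0 := by
  classical
  by_contra hcon
  rw [← Ultrafilter.eventually_not] at hcon
  have h1 : ∀ x, ∃ c : Fin n → k, (¬ ∀ c : Fin n → k,
      (∀ j, ∑ t, algebraMap k F (c t) * A t j x = 0) → c = 0) →
      (∀ j, ∑ t, algebraMap k F (c t) * A t j x = 0) ∧ c ≠ 0 := by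
    intro x
    by_cases hx : ∀ c : Fin n → k, (∀ j, ∑ t, algebraMap k F (c t) * A t j x = 0) → c = 0
    · exact ⟨0, fun h => absurd hx h⟩
    · push Not at hx
      obtain ⟨c, hc1, hc2⟩ := hx
      exact ⟨c, fun _ => ⟨hc1, hc2⟩⟩
  choose c hc using h1
  have h2 := h (fun t => ge 𝒰 k (fun x => c x t)) (by
    intro j
    have h3 : ∑ t, geMap 𝒰 (algebraMap k F) (ge 𝒰 k (fun x => c x t)) * ge 𝒰 F (A t j) =
        ge 𝒰 F (fun x => ∑ t, algebraMap k F (c x t) * A t j x) := by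
      simp only [geMap_ge, ← map_mul, ← map_sum]
      congr 1
      funext x
      rw [Finset.sum_apply]
      rfl
    rw [h3, ge_eq_zero]
    refine hcon.mono fun x hx => (hc x hx).1 j)
  have h4 : ∀ᶠ x in (𝒰 : Filter ι), ∀ t, c x t = 0 := by
    rw [eventually_all]
    intro t
    exact (ge_eq_zero 𝒰 _).1 (congrFun h2 t)
  obtain ⟨x, hx1, hx2⟩ := (hcon.and h4).exists
  exact (hc x hx1).2 (funext hx2)

theorem wts_germ (h : Wts' k Cc) :
    @Wts' (GE 𝒰 k) (GE 𝒰 Cc) _ _ (algG k Cc 𝒰) := by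
  classical
  intro r d G
  choose G' hG' using fun a e => ge_surj 𝒰 Cc (G a e)
  choose γ hγ using fun x => h r d (fun a e => G' a e x)
  refine ⟨fun a => ge 𝒰 Cc (fun x => γ x a), fun v hv a => ?_⟩
  choose v' hv' using fun e => ge_surj 𝒰 k (v e)
  have h1 : ∀ w : Fin d → (ι → Cc), ∑ e, geMap 𝒰 (algebraMap k Cc) (v e) * ge 𝒰 Cc (w e) =
      ge 𝒰 Cc (fun x => ∑ e, algebraMap k Cc (v' e x) * w e x) := by
    intro w
    simp only [← hv', geMap_ge, ← map_mul, ← map_sum]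
    congr 1
    funext x
    rw [Finset.sum_apply]
    rfl
  have h2 : ∀ e, ∑ a, ge 𝒰 Cc (fun x => γ x a) * G a e =
      ge 𝒰 Cc (fun x => ∑ a, γ x a * G' a e x) := by
    intro e
    simp only [← hG', ← map_mul, ← map_sum]
    congr 1
    funext x
    rw [Finset.sum_apply]
    rfl
  have h3 : ∑ e, geMap 𝒰 (algebraMap k Cc) (v e) *
      ∑ a, ge 𝒰 Cc (fun x => γ x a) * G a e = 0 := hv
  simp only [h2] at h3
  rw [h1, ge_eq_zero] at h3
  change ∑ e, geMap 𝒰 (algebraMap k Cc) (v e) * G a e = 0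
  simp only [← hG' a]
  rw [h1, ge_eq_zero]
  exact h3.mono fun x hx => hγ x _ hx a

/-- the germs of a space -/
noncomputable def LG (Lt : Submodule k Cc) :
    @Submodule (GE 𝒰 k) (GE 𝒰 Cc) _ _ (algG k Cc 𝒰).toModule :=
  letI := algG k Cc 𝒰
  { carrier := {z | ∃ f : ι → Cc, z = ge 𝒰 Cc f ∧ ∀ᶠ x in (𝒰 : Filter ι), f x ∈ Lt}
    add_mem' := by
      rintro _ _ ⟨f, rfl, hf⟩ ⟨g, rfl, hg⟩
      refine ⟨f + g, (map_add _ _ _).symm, ?_⟩
      exact (hf.and hg).mono fun x hx => Lt.add_mem hx.1 hx.2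
    zero_mem' := ⟨0, (map_zero _).symm, Eventually.of_forall fun x => Lt.zero_mem⟩
    smul_mem' := by
      rintro c _ ⟨f, rfl, hf⟩
      obtain ⟨c', rfl⟩ := ge_surj 𝒰 k c
      refine ⟨fun x => algebraMap k Cc (c' x) * f x, ?_, ?_⟩
      · rw [Algebra.smul_def]
        change geMap 𝒰 (algebraMap k Cc) (ge 𝒰 k c') * ge 𝒰 Cc f = _
        rw [geMap_ge, ← map_mul]
        rfl
      · refine hf.mono fun x hx => ?_
        change algebraMap k Cc (c' x) * f x ∈ Lt
        rw [← Algebra.smul_def]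
        exact Lt.smul_mem _ hx }

theorem mem_LG (Lt : Submodule k Cc) {z : GE 𝒰 Cc} :
    z ∈ (LG 𝒰 Lt).carrier ↔ ∃ f : ι → Cc, z = ge 𝒰 Cc f ∧ ∀ᶠ x in (𝒰 : Filter ι), f x ∈ Lt := Iff.rfl

theorem hyp_germ {Lt : Submodule k Cc} (hL : Hyp Lt) :
    @Hyp (GE 𝒰 k) (GE 𝒰 Cc) _ _ (algG k Cc 𝒰) (LG 𝒰 Lt) := by
  classical
  letI := algG k Cc 𝒰
  intro d l x a hx ha hxa hcol
  choose X hX using fun i => ge_surj 𝒰 Cc (x i)
  have ha' : ∀ i j, ∃ f : ι → Cc, a i j = ge 𝒰 Cc f ∧ ∀ᶠ x in (𝒰 : Filter ι), f x ∈ Lt :=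
    fun i j => ha i j
  choose A hA1 hA2 using ha'
  have e1 : ∀ᶠ z in (𝒰 : Filter ι), ∀ c : Fin d → k,
      (∀ _ : Unit, ∑ t, algebraMap k Cc (c t) * X t z = 0) → c = 0 := by
    refine ev_li 𝒰 (fun t (_ : Unit) => X t) fun c hc => ?_
    funext t
    refine (Fintype.linearIndependent_iff.1 hx) c ?_ t
    rw [← hc ()]
    refine Finset.sum_congr rfl fun t _ => ?_
    rw [Algebra.smul_def, hX]
    rfl
  have e2 : ∀ᶠ z in (𝒰 : Filter ι), ∀ c : Fin l → k,
      (∀ i : Fin d, ∑ t, algebraMap k Cc (c t) * A i t z = 0) → c = 0 := by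
    refine ev_li 𝒰 (fun t (i : Fin d) => A i t) fun c hc => ?_
    funext t
    refine (Fintype.linearIndependent_iff.1 hcol) c ?_ t
    funext i
    rw [Finset.sum_apply, Pi.zero_apply, ← hc i]
    refine Finset.sum_congr rfl fun t _ => ?_
    rw [Pi.smul_apply, Algebra.smul_def, hA1]
    rfl
  have e3 : ∀ᶠ z in (𝒰 : Filter ι), ∀ i j, A i j z ∈ Lt := by
    rw [eventually_all]
    intro i
    rw [eventually_all]
    exact fun j => hA2 i j
  have e4 : ∀ᶠ z in (𝒰 : Filter ι), ∀ j, ∑ i, X i z * A i j z = 0 := by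
    rw [eventually_all]
    intro j
    rw [← ge_eq_zero, ← hxa j]
    simp only [← hX, hA1, ← map_mul, ← map_sum]
    congr 1
    funext z
    rw [Finset.sum_apply]
    rfl
  obtain ⟨z, ⟨⟨h1, h2⟩, h3⟩, h4⟩ := (((e1.and e2).and e3).and e4).exists
  refine hL d l (fun i => X i z) (fun i j => A i j z) ?_ h3 h4 ?_
  · rw [Fintype.linearIndependent_iff]
    intro c hc t
    refine congrFun (h1 c fun _ => ?_) t
    rw [← hc]
    exact Finset.sum_congr rfl fun t _ => (Algebra.smul_def _ _).symm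
  · rw [Fintype.linearIndependent_iff]
    intro c hc t
    refine congrFun (h2 c fun i => ?_) t
    have h5 := congrFun hc i
    rw [Finset.sum_apply, Pi.zero_apply] at h5
    rw [← h5]
    exact Finset.sum_congr rfl fun t _ => (Algebra.smul_def _ _).symm

/-- **Derivations on germs.** -/
theorem germ_der [CharZero k] [CharZero Cc] {n : ℕ} (G : ι → Fin n → k)
    (hgen : ∀ P : MvPolynomial (Fin n) k, P ≠ 0 →
      ∀ᶠ b in (𝒰 : Filter ι), MvPolynomial.eval (G b) P ≠ 0) (κ : Fin n) :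
    ∃ (d : Derivation ℤ (GE 𝒰 k) (GE 𝒰 k))
      (D : Derivation ℤ (GE 𝒰 Cc) (GE 𝒰 Cc)),
      (∀ a, D (geMap 𝒰 (algebraMap k Cc) a) = geMap 𝒰 (algebraMap k Cc) (d a)) ∧
      (∀ z : Cc, D (ge 𝒰 Cc (fun _ => z)) = 0) ∧
      (∀ a : k, d (ge 𝒰 k (fun _ => a)) = 0) ∧
      ∀ m, d (ge 𝒰 k (fun b => G b m)) = if m = κ then 1 else 0 := by
  classical
  set cQ : k →+* GE 𝒰 k := (ge 𝒰 k).comp (Pi.constRingHom ι k) with hcQ
  set cC : Cc →+* GE 𝒰 Cc := (ge 𝒰 Cc).comp (Pi.constRingHom ι Cc) with hcC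
  have hch1 : CharZero (GE 𝒰 k) := charZero_of_injective_ringHom cQ.injective
  have hch2 : CharZero (GE 𝒰 Cc) := charZero_of_injective_ringHom cC.injective
  set b' : Fin n → GE 𝒰 k := fun m => ge 𝒰 k (fun b => G b m) with hb'
  have hinj : Function.Injective (MvPolynomial.eval₂Hom cQ b') := by
    rw [injective_iff_map_eq_zero]
    intro Δ hΔ
    by_contra h0
    have h1 : MvPolynomial.eval₂Hom cQ b' =
        (ge 𝒰 k).comp (RingHom.pi fun b : ι => MvPolynomial.eval (G b)) := by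
      apply MvPolynomial.ringHom_ext
      · intro r
        rw [MvPolynomial.coe_eval₂Hom, MvPolynomial.eval₂_C]
        change ge 𝒰 k (fun _ => r) = ge 𝒰 k (fun b => MvPolynomial.eval (G b) (MvPolynomial.C r))
        simp only [MvPolynomial.eval_C]
      · intro m
        rw [MvPolynomial.coe_eval₂Hom, MvPolynomial.eval₂_X]
        change ge 𝒰 k (fun b => G b m) = ge 𝒰 k (fun b => MvPolynomial.eval (G b) (MvPolynomial.X m))
        simp only [MvPolynomial.eval_X]
    rw [h1, RingHom.comp_apply, ge_eq_zero] at hΔ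
    obtain ⟨b, hb1, hb2⟩ := (hΔ.and (hgen Δ h0)).exists
    exact hb2 hb1
  obtain ⟨d, hd1, hd2⟩ := exists_partial cQ b' hinj κ
  obtain ⟨D, hD1, hD2⟩ := exists_ext_der (C := Cc) cQ (geMap 𝒰 (algebraMap k Cc)) cC
    (fun a => rfl) (by
      intro J s z c hz hsum m hm
      choose c' hc' using fun m => ge_surj 𝒰 k (c m)
      have h1 : ∑ m ∈ s, geMap 𝒰 (algebraMap k Cc) (c m) * cC (z m) =
          ge 𝒰 Cc (∑ m ∈ s, (fun b => algebraMap k Cc (c' m b)) * fun _ => z m) := by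
        rw [map_sum]
        refine Finset.sum_congr rfl fun m _ => ?_
        rw [map_mul, ← hc' m, geMap_ge]
        rfl
      rw [h1, ge_eq_zero] at hsum
      rw [← hc' m, ge_eq_zero]
      refine hsum.mono fun b hb => ?_
      rw [Finset.sum_apply] at hb
      have h2 : ∑ m ∈ s, c' m b • z m = 0 := by
        rw [← hb]
        refine Finset.sum_congr rfl fun m _ => ?_
        rw [Algebra.smul_def]
        rfl
      exact linearIndependent_iff'.1 hz s (fun m => c' m b) h2 m hm) d hd1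
  exact ⟨d, D, hD1, fun z => hD2 z, fun a => hd1 a, fun m => hd2 m⟩

end Pool.Agent.Y787.AS
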