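import Pool.Agent.Y787.AS.Fam
import Pool.Agent.Y787.HS.SgF

/-!
# Linear spaces through points with coordinates in a finite-dimensional space
-/

set_option autoImplicit false

namespace Pool.Agent.Y787.AS
open MvPolynomial Module Filter
open Pool.Agent.W254.PA (Hyp)

variable {k Cc : Type} [Field k] [Field Cc] [Algebra k Cc]

/-- the zero set contains a translate through `y` of a linear space over `k` of dimension
greater than `ρ` -/
def Big (k : Type) {Cc : Type} [Field k] [Field Cc] [Algebra k Cc] {m τ r : ℕ}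
    (F : Fin r → MvPolynomial (Fin m ⊕ Fin τ) Cc) (ρ : ℕ) (y : Fin m → Cc) (t : Fin τ → k) : Prop :=
  ∃ R : Submodule k (Fin m → k), ρ < finrank k R ∧ ∀ s, ∀ c ∈ RE Cc R,
    eval (Sum.elim (fun i => y i + c i) (fun a => algebraMap k Cc (t a))) (F s) = 0

/-- **The theorem in coordinates.** -/
theorem fam_coord [CharZero k] [CharZero Cc] {Lt : Submodule k Cc} (hL : Hyp Lt)
    (hw : Wts' k Cc) {m N q τ r ρ : ℕ} (l : Fin N → Cc) (hl : ∀ j, l j ∈ Lt)
    (hli : LinearIndependent k l) (F : Fin r → MvPolynomial (Fin m ⊕ Fin τ) Cc)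
    (hq : ∀ ρ' ≤ ρ, τ + (ρ' * N + (m - ρ') * (m - 1)) < q)
    (φ : Fin q → ((Fin m × Fin N → k) →ₗ[k] k)) :
    ∃ P : MvPolynomial (Fin q) k, P ≠ 0 ∧ ∀ (b : Fin m → Fin N → k) (t : Fin τ → k),
      (∀ s, eval (Sum.elim (fun i => ∑ j, algebraMap k Cc (b i j) * l j)
        (fun a => algebraMap k Cc (t a))) (F s) = 0) →
      ¬ Big k F ρ (fun i => ∑ j, algebraMap k Cc (b i j) * l j) t →
      eval (fun i => φ i (fun p => b p.1 p.2)) P = 0 := by
  classical
  by_contra hcon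
  push Not at hcon
  let ι := {x : (Fin m → Fin N → k) × (Fin τ → k) //
    (∀ s, eval (Sum.elim (fun i => ∑ j, algebraMap k Cc (x.1 i j) * l j)
        (fun a => algebraMap k Cc (x.2 a))) (F s) = 0) ∧
      ¬ Big k F ρ (fun i => ∑ j, algebraMap k Cc (x.1 i j) * l j) x.2}
  obtain ⟨𝒰, h𝒰⟩ := Pool.Agent.Y787.FE.exists_ultra' (K := k) (ι := ι) (n := q)
    (fun x i => φ i (fun p => x.1.1 p.1 p.2)) (by
      intro P hP
      obtain ⟨b, t, h1, h2, h3⟩ := hcon P hP
      exact ⟨⟨(b, t), h1, h2⟩, h3⟩)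
  obtain ⟨ρ', h1, h2⟩ := germ_main (ι := ι) 𝒰 hL hw l hl hli (fun x => x.1.1) (fun x => x.1.2) F
    (fun x s => x.2.1 s) φ h𝒰
  obtain ⟨x, R, hR1, hR2⟩ := h2.exists
  have h3 : ρ < ρ' := by
    by_contra h4
    have := hq ρ' (by omega)
    omega
  exact x.2.2 ⟨R, by omega, hR2⟩

/-- the arithmetic of the exponents -/
theorem expo {m N ρ τ : ℕ} (hρ : ρ ≤ m) (hN : m ≤ N + 1) :
    ∀ ρ' ≤ ρ, τ + (ρ' * N + (m - ρ') * (m - 1)) < ρ * N + (m - ρ) * (m - 1) + τ + 1 := by
  intro ρ' hρ'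
  obtain ⟨a, rfl⟩ : ∃ a, ρ = ρ' + a := ⟨ρ - ρ', by omega⟩
  obtain ⟨c, rfl⟩ : ∃ c, m = ρ' + a + c := ⟨m - (ρ' + a), by omega⟩
  have e1 : ρ' + a + c - ρ' = a + c := by omega
  have e2 : ρ' + a + c - (ρ' + a) = c := by omega
  rw [e1, e2]
  have e3 : a * (ρ' + a + c - 1) ≤ a * N := Nat.mul_le_mul_left _ (by omega)
  have e4 : (a + c) * (ρ' + a + c - 1) = a * (ρ' + a + c - 1) + c * (ρ' + a + c - 1) := by ring
  have e5 : (ρ' + a) * N = ρ' * N + a * N := by ring
  omega

/-- coordinates of tuples -/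
noncomputable def mkT {W : Type} [AddCommGroup W] [Module k W] [FiniteDimensional k W] (m : ℕ) :
    ((Fin m × Fin (finrank k W)) → k) →ₗ[k] (Fin m → W) where
  toFun b := fun i => ∑ j, b (i, j) • Module.finBasis k W j
  map_add' b b' := by
    funext i
    simp only [Pi.add_apply, add_smul, Finset.sum_add_distrib]
  map_smul' c b := by
    funext i
    simp only [Pi.smul_apply, smul_eq_mul, mul_smul, Finset.smul_sum, RingHom.id_apply]

/-- **The dimension theorem.** -/
theorem fam_dim [CharZero k] [CharZero Cc] {Lt : Submodule k Cc} (hL : Hyp Lt)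
    (hw : Wts' k Cc) (W : Submodule k Cc) [FiniteDimensional k W] (hW : W ≤ Lt) {m q τ r ρ : ℕ}
    (F : Fin r → MvPolynomial (Fin m ⊕ Fin τ) Cc)
    (hq : ∀ ρ' ≤ ρ, τ + (ρ' * finrank k W + (m - ρ') * (m - 1)) < q)
    (φ : Fin q → ((Fin m → W) →ₗ[k] k)) :
    ∃ P : MvPolynomial (Fin q) k, P ≠ 0 ∧ ∀ (y : Fin m → W) (t : Fin τ → k),
      (∀ s, eval (Sum.elim (fun i => (y i : Cc)) (fun a => algebraMap k Cc (t a))) (F s) = 0) →
      ¬ Big k F ρ (fun i => (y i : Cc)) t →
      eval (fun i => φ i y) P = 0 := by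
  obtain ⟨P, h1, h2⟩ := fam_coord hL hw (N := finrank k W) (m := m)
    (fun j => (Module.finBasis k W j : Cc)) (fun j => hW (Module.finBasis k W j).2)
    ((Module.finBasis k W).linearIndependent.map' W.subtype
      (LinearMap.ker_eq_bot.2 W.subtype_injective)) F hq (fun i => φ i ∘ₗ mkT m)
  refine ⟨P, h1, fun y t hy ht => ?_⟩
  have h3 : (fun i => ∑ j, algebraMap k Cc ((Module.finBasis k W).repr (y i) j) *
      (Module.finBasis k W j : Cc)) = fun i => (y i : Cc) := by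
    funext i
    have h4 := congrArg (fun w : W => (w : Cc)) ((Module.finBasis k W).sum_repr (y i))
    simp only [Submodule.coe_sum, Submodule.coe_smul, Algebra.smul_def] at h4
    exact h4
  have h5 : mkT (k := k) (W := W) m (fun p => (Module.finBasis k W).repr (y p.1) p.2) = y := by
    funext i
    exact (Module.finBasis k W).sum_repr (y i)
  have h6 := h2 (fun i j => (Module.finBasis k W).repr (y i) j) t (by
    rw [h3]; exact hy) (by rw [h3]; exact ht)
  simp only [LinearMap.comp_apply, h5] at h6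
  exact h6

end Pool.Agent.Y787.AS
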