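import Mathlib

/-!
# Polynomials: derivations of the coefficients, directional derivatives, Taylor's formula
-/

set_option autoImplicit false

namespace Pool.Agent.Y787.AS
open MvPolynomial

variable {E : Type} [Field E] {m : ℕ}

/-- a derivation applied to the coefficients -/
noncomputable def coefD (D : Derivation ℤ E E) (F : MvPolynomial (Fin m) E) :
    MvPolynomial (Fin m) E :=
  ∑ s ∈ F.support, monomial s (D (coeff s F))

theorem coeff_coefD (D : Derivation ℤ E E) (F : MvPolynomial (Fin m) E) (s : Fin m →₀ ℕ) :
    coeff s (coefD D F) = D (coeff s F) := by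
  classical
  rw [coefD, coeff_sum]
  simp only [coeff_monomial]
  rw [Finset.sum_ite_eq']
  split_ifs with h
  · rfl
  · rw [notMem_support_iff.1 h, map_zero]

theorem coefD_zero (D : Derivation ℤ E E) : coefD D (0 : MvPolynomial (Fin m) E) = 0 := by
  ext s
  rw [coeff_coefD, coeff_zero, map_zero]

theorem coefD_add (D : Derivation ℤ E E) (F G : MvPolynomial (Fin m) E) :
    coefD D (F + G) = coefD D F + coefD D G := by
  ext s
  rw [coeff_coefD, coeff_add, coeff_add, map_add, coeff_coefD, coeff_coefD]

theorem coefD_C_mul (D : Derivation ℤ E E) (a : E) (F : MvPolynomial (Fin m) E) :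
    coefD D (C a * F) = C (D a) * F + C a * coefD D F := by
  ext s
  rw [coeff_coefD, coeff_C_mul, coeff_add, coeff_C_mul, coeff_C_mul, coeff_coefD, D.leibniz,
    smul_eq_mul, smul_eq_mul]
  ring

theorem coefD_C (D : Derivation ℤ E E) (a : E) :
    coefD D (C a : MvPolynomial (Fin m) E) = C (D a) := by
  classical
  ext s
  rw [coeff_coefD, coeff_C, coeff_C]
  split_ifs with h
  · rfl
  · rw [map_zero]

theorem coefD_mul_X (D : Derivation ℤ E E) (F : MvPolynomial (Fin m) E) (i : Fin m) :
    coefD D (F * X i) = coefD D F * X i := by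
  classical
  ext s
  rw [coeff_coefD, coeff_mul_X', coeff_mul_X']
  split_ifs with h
  · rw [coeff_coefD]
  · rw [map_zero]

theorem coefD_pderiv (D : Derivation ℤ E E) (i : Fin m) (F : MvPolynomial (Fin m) E) :
    coefD D (pderiv i F) = pderiv i (coefD D F) := by
  ext s
  rw [coeff_coefD, coeff_pderiv, coeff_pderiv, coeff_coefD, D.leibniz]
  have h : D ((s i : E) + 1) = 0 := by
    have : ((s i : E) + 1) = ((s i + 1 : ℕ) : E) := by push_cast; rfl
    rw [this, D.map_natCast]
  rw [h, smul_zero, zero_add, smul_eq_mul, mul_comm]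

/-- the chain rule -/
theorem D_eval (D : Derivation ℤ E E) (y : Fin m → E) (F : MvPolynomial (Fin m) E) :
    D (eval y F) = eval y (coefD D F) + ∑ i, D (y i) * eval y (pderiv i F) := by
  classical
  induction F using MvPolynomial.induction_on with
  | C a =>
    rw [eval_C, coefD_C, eval_C]
    simp
  | add p q hp hq =>
    rw [map_add, map_add, hp, hq, coefD_add, map_add]
    simp only [map_add, mul_add, Finset.sum_add_distrib]
    ring
  | mul_X p n hp =>
    rw [map_mul, eval_X, D.leibniz, hp, coefD_mul_X, map_mul, eval_X]
    simp only [smul_eq_mul, pderiv_mul, map_add, map_mul, eval_X, mul_add, Finset.sum_add_distrib]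
    have h : ∑ i, D (y i) * (eval y p * eval y (pderiv i (X n : MvPolynomial (Fin m) E))) =
        D (y n) * eval y p := by
      rw [Finset.sum_eq_single n]
      · rw [pderiv_X_self, map_one, mul_one]
      · intro i _ hi
        rw [pderiv_X_of_ne (Ne.symm hi), map_zero, mul_zero, mul_zero]
      · intro h; exact absurd (Finset.mem_univ _) h
    rw [h, Finset.mul_sum]
    have h2 : ∑ i, D (y i) * (eval y (pderiv i p) * y n) =
        ∑ i, y n * (D (y i) * eval y (pderiv i p)) :=
      Finset.sum_congr rfl fun i _ => by ring
    rw [h2]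
    ring

/-- the directional derivative -/
noncomputable def dirD (c : Fin m → E) (F : MvPolynomial (Fin m) E) : MvPolynomial (Fin m) E :=
  ∑ i, C (c i) * pderiv i F

theorem eval_dirD (c y : Fin m → E) (F : MvPolynomial (Fin m) E) :
    eval y (dirD c F) = ∑ i, c i * eval y (pderiv i F) := by
  rw [dirD, map_sum]
  refine Finset.sum_congr rfl fun i _ => ?_
  rw [map_mul, eval_C]

theorem coefD_sum (D : Derivation ℤ E E) {α : Type} (s : Finset α)
    (f : α → MvPolynomial (Fin m) E) : coefD D (∑ i ∈ s, f i) = ∑ i ∈ s, coefD D (f i) := by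
  classical
  induction s using Finset.induction_on with
  | empty => rw [Finset.sum_empty, Finset.sum_empty, coefD_zero]
  | insert a s ha ih => rw [Finset.sum_insert ha, Finset.sum_insert ha, coefD_add, ih]

theorem coefD_dirD (D : Derivation ℤ E E) (c : Fin m → E) (F : MvPolynomial (Fin m) E) :
    coefD D (dirD c F) = dirD (fun i => D (c i)) F + dirD c (coefD D F) := by
  rw [dirD, coefD_sum, dirD, dirD, ← Finset.sum_add_distrib]
  refine Finset.sum_congr rfl fun i _ => ?_
  rw [coefD_C_mul, coefD_pderiv]

theorem dirD_add (c : Fin m → E) (F G : MvPolynomial (Fin m) E) :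
    dirD c (F + G) = dirD c F + dirD c G := by
  rw [dirD, dirD, dirD, ← Finset.sum_add_distrib]
  refine Finset.sum_congr rfl fun i _ => ?_
  rw [map_add, mul_add]

theorem dirD_C_mul (c : Fin m → E) (a : E) (F : MvPolynomial (Fin m) E) :
    dirD c (C a * F) = C a * dirD c F := by
  rw [dirD, dirD, Finset.mul_sum]
  refine Finset.sum_congr rfl fun i _ => ?_
  rw [pderiv_C_mul]
  ring

theorem dirD_add_left (c c' : Fin m → E) (F : MvPolynomial (Fin m) E) :
    dirD (c + c') F = dirD c F + dirD c' F := by
  rw [dirD, dirD, dirD, ← Finset.sum_add_distrib]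
  refine Finset.sum_congr rfl fun i _ => ?_
  rw [Pi.add_apply, map_add, add_mul]

theorem dirD_smul_left (a : E) (c : Fin m → E) (F : MvPolynomial (Fin m) E) :
    dirD (a • c) F = C a * dirD c F := by
  rw [dirD, dirD, Finset.mul_sum]
  refine Finset.sum_congr rfl fun i _ => ?_
  rw [Pi.smul_apply, smul_eq_mul, map_mul, mul_assoc]

theorem dirD_zero_left (F : MvPolynomial (Fin m) E) : dirD 0 F = 0 := by
  rw [dirD]
  refine Finset.sum_eq_zero fun i _ => ?_
  rw [Pi.zero_apply, map_zero, zero_mul]

theorem dirD_zero (c : Fin m → E) : dirD c (0 : MvPolynomial (Fin m) E) = 0 := by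
  rw [dirD]
  refine Finset.sum_eq_zero fun i _ => ?_
  rw [map_zero, mul_zero]

/-- the restriction to a line -/
noncomputable def lineP (y c : Fin m → E) : MvPolynomial (Fin m) E →+* Polynomial E :=
  eval₂Hom Polynomial.C (fun i => Polynomial.C (y i) + Polynomial.C (c i) * Polynomial.X)

theorem lineP_eval (y c : Fin m → E) (t : E) (F : MvPolynomial (Fin m) E) :
    Polynomial.eval t (lineP y c F) = eval (fun i => y i + t * c i) F := by
  have h : (Polynomial.evalRingHom t).comp (lineP y c) = eval (fun i => y i + t * c i) := by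
    apply MvPolynomial.ringHom_ext
    · intro r
      rw [RingHom.comp_apply, lineP, coe_eval₂Hom, eval₂_C, Polynomial.coe_evalRingHom,
        Polynomial.eval_C, eval_C]
    · intro i
      rw [RingHom.comp_apply, lineP, coe_eval₂Hom, eval₂_X, Polynomial.coe_evalRingHom,
        Polynomial.eval_add, Polynomial.eval_mul, Polynomial.eval_C, Polynomial.eval_C,
        Polynomial.eval_X, eval_X, mul_comm]
  exact RingHom.congr_fun h F

theorem lineP_deriv (y c : Fin m → E) (F : MvPolynomial (Fin m) E) :
    Polynomial.derivative (lineP y c F) = lineP y c (dirD c F) := by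
  classical
  induction F using MvPolynomial.induction_on with
  | C a =>
    have h1 : dirD c (C a) = 0 := by
      rw [dirD]
      refine Finset.sum_eq_zero fun i _ => ?_
      rw [pderiv_C, mul_zero]
    rw [h1, map_zero]
    simp [lineP]
  | add p q hp hq => rw [map_add, map_add, hp, hq, dirD_add, map_add]
  | mul_X p n hp =>
    have h1 : dirD c (p * X n) = dirD c p * X n + C (c n) * p := by
      rw [dirD, dirD, Finset.sum_mul]
      have h2 : C (c n) * p = ∑ i, C (c i) * (p * pderiv i (X n)) := by
        rw [Finset.sum_eq_single n]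
        · rw [pderiv_X_self, mul_one]
        · intro i _ hi
          rw [pderiv_X_of_ne (Ne.symm hi), mul_zero, mul_zero]
        · intro h; exact absurd (Finset.mem_univ _) h
      rw [h2, ← Finset.sum_add_distrib]
      refine Finset.sum_congr rfl fun i _ => ?_
      rw [pderiv_mul]
      ring
    rw [h1, map_mul, Polynomial.derivative_mul, hp, map_add, map_mul, map_mul]
    have h3 : lineP y c (X n) = Polynomial.C (y n) + Polynomial.C (c n) * Polynomial.X := by
      simp [lineP]
    have h4 : lineP y c (C (c n)) = Polynomial.C (c n) := by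
      simp [lineP]
    rw [h3, h4]
    simp only [Polynomial.derivative_add, Polynomial.derivative_C, Polynomial.derivative_mul,
      Polynomial.derivative_X, zero_mul, zero_add, mul_one]
    ring

theorem lineP_iter (y c : Fin m → E) (F : MvPolynomial (Fin m) E) (k : ℕ) :
    Polynomial.derivative^[k] (lineP y c F) = lineP y c ((dirD c)^[k] F) := by
  induction k generalizing F with
  | zero => rfl
  | succ k ih =>
    rw [Function.iterate_succ_apply, Function.iterate_succ_apply, lineP_deriv, ih]

/-- **Taylor's formula**: a polynomial all of whose derivatives in the direction `c` vanish at `y`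
vanishes on the line through `y` in the direction `c`. -/
theorem eval_line [CharZero E] (y c : Fin m → E) (F : MvPolynomial (Fin m) E)
    (h : ∀ k, eval y ((dirD c)^[k] F) = 0) (t : E) : eval (fun i => y i + t * c i) F = 0 := by
  have h1 : lineP y c F = 0 := by
    ext k
    have h2 := Polynomial.coeff_iterate_derivative (k := k) (lineP y c F) 0
    rw [zero_add, Nat.descFactorial_self, lineP_iter] at h2
    have h3 : (lineP y c ((dirD c)^[k] F)).coeff 0 = 0 := by
      rw [Polynomial.coeff_zero_eq_eval_zero, lineP_eval]
      have h4 : (fun i => y i + 0 * c i) = y := by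
        funext i
        ring
      rw [h4, h k]
    rw [h3, nsmul_eq_mul] at h2
    have h5 := (mul_eq_zero.1 h2.symm).resolve_left (by
      exact_mod_cast Nat.factorial_ne_zero k)
    rw [h5, Polynomial.coeff_zero]
  rw [← lineP_eval, h1, Polynomial.eval_zero]

end Pool.Agent.Y787.AS
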