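import Pool.Agent.W254.PA.LogP
import Pool.Agent.W254.HP.PartC
import Pool.Agent.Y787.AS.Germ

/-!
# The hyperplane property over the rational numbers
-/

set_option autoImplicit false

namespace Pool.Agent.Y787.AS
open Module
open Pool.Agent.W254.PA (Hyp logs)
open Pool.Agent.W245.PB (IsIwasawaLog)

/-- the hyperplane property over the bottom field, for a set of complex numbers -/
def HB (T : Set ℂ) : Prop :=
  ∀ (d l : ℕ) (x : Fin d → ℂ) (a : Fin d → Fin l → ℂ),
    (∀ c : Fin d → (⊥ : IntermediateField ℚ ℂ), ∑ i, (c i : ℂ) * x i = 0 → ∀ i, c i = 0) →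
    (∀ i j, a i j ∈ Submodule.span (⊥ : IntermediateField ℚ ℂ) ({1} ∪ T)) →
    (∀ j, ∑ i, x i * a i j = 0) →
    (∀ c : Fin l → (⊥ : IntermediateField ℚ ℂ), (∀ i, ∑ j, (c j : ℂ) * a i j = 0) →
      ∀ j, c j = 0) → l ≤ d * (d - 1)

theorem hb_logs : HB {z : ℂ | IsAlgebraic ℚ (Complex.exp z)} := fun d l x a h1 h2 h3 h4 =>
  Pool.Agent.W254.HP.hypP ⊥ d l x a h1 h2 h3 h4

theorem hb_obs {𝓛 : Submodule ℚ ℂ} (hO : Pool.Agent.W254.PA.ObsProp 𝓛) : HB (𝓛 : Set ℂ) :=
  fun d l x a h1 h2 h3 h4 => Pool.Agent.W254.PA.hypP ⊥ 𝓛 hO d l x a h1 h2 h3 h4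

section

variable {E : Type} [Field E] [CharZero E]

/-- linear forms in `1` and elements of `S` with rational coefficients -/
noncomputable def LtQ (S : Set E) : Submodule ℚ E := Submodule.span ℚ ({1} ∪ S)

theorem bot_rat (c : (⊥ : IntermediateField ℚ ℂ)) : ∃ r : ℚ, (r : ℂ) = (c : ℂ) := by
  obtain ⟨r, hr⟩ := IntermediateField.mem_bot.1 c.2
  exact ⟨r, by rw [← hr]; simp⟩

theorem hyp_bot (Θ : E →+* ℂ) (T : Set ℂ) (hH : HB T) (S : Set E) (hS : ∀ z ∈ S, Θ z ∈ T) :
    Hyp (LtQ S) := by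
  classical
  intro d l x a hx ha hxa hcol
  have hmem : ∀ z ∈ LtQ S, Θ z ∈ Submodule.span (⊥ : IntermediateField ℚ ℂ) ({1} ∪ T) := by
    intro z hz
    refine Submodule.span_induction (p := fun z _ =>
      Θ z ∈ Submodule.span (⊥ : IntermediateField ℚ ℂ) ({1} ∪ T)) ?_ ?_ ?_ ?_ hz
    · rintro z (hz | hz)
      · rw [Set.mem_singleton_iff] at hz
        subst hz
        rw [map_one]
        exact Submodule.subset_span (Or.inl rfl)
      · exact Submodule.subset_span (Or.inr (hS z hz))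
    · rw [map_zero]; exact Submodule.zero_mem _
    · intro z z' _ _ h h'
      rw [map_add]
      exact Submodule.add_mem _ h h'
    · intro r z _ h
      have h1 : Θ (r • z) = (algebraMap ℚ (⊥ : IntermediateField ℚ ℂ) r) • Θ z := by
        rw [Rat.smul_def, map_mul, map_ratCast, Algebra.smul_def]
        congr 1
      rw [h1]
      exact Submodule.smul_mem _ _ h
  choose π hπ using bot_rat
  refine hH d l (fun i => Θ (x i)) (fun i j => Θ (a i j)) ?_ (fun i j => hmem _ (ha i j)) ?_ ?_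
  · intro c hc i
    have h1 := Fintype.linearIndependent_iff.mp hx (fun i => π (c i)) (by
      apply Θ.injective
      rw [map_zero, ← hc, map_sum]
      refine Finset.sum_congr rfl fun i _ => ?_
      rw [Rat.smul_def, map_mul, map_ratCast, hπ]) i
    apply Subtype.ext
    rw [← hπ, h1]
    simp
  · intro j
    rw [← map_zero Θ, ← hxa j, map_sum]
    refine Finset.sum_congr rfl fun i _ => ?_
    rw [map_mul]
  · intro c hc j
    have h1 := Fintype.linearIndependent_iff.mp hcol (fun j => π (c j)) (by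
      funext i
      rw [Finset.sum_apply, Pi.zero_apply]
      apply Θ.injective
      rw [map_zero, ← hc i, map_sum]
      refine Finset.sum_congr rfl fun j _ => ?_
      rw [Pi.smul_apply, Rat.smul_def, map_mul, map_ratCast, hπ]) j
    apply Subtype.ext
    rw [← hπ, h1]
    simp

end

/-- complex logarithms, over the rational numbers -/
theorem hypQ_complex : Hyp (LtQ {z : ℂ | IsAlgebraic ℚ (Complex.exp z)}) :=
  hyp_bot (RingHom.id ℂ) _ hb_logs _ fun _ h => h

/-- `p`-adic logarithms, over the rational numbers -/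
theorem hypQ_padic {p : ℕ} [hp : Fact p.Prime] {L : PadicAlgCl p → PadicAlgCl p}
    (hL : IsIwasawaLog p L) : Hyp (LtQ (logs L)) := by
  obtain ⟨θ⟩ := Pool.Agent.W254.PA.exists_theta p
  refine hyp_bot ((θ : ℂ_[p] →+* ℂ).comp (Pool.Agent.W254.PA.ic p)) _
    (hb_obs (Pool.Agent.W254.PA.obsProp_padic p Pool.Agent.H301R2.SSE.zeg θ)) (logs L) ?_
  rintro z ⟨α, hα, halg, rfl⟩
  change _ ∈ Pool.Agent.W254.PA.Lθ p θ
  rw [Pool.Agent.W254.PA.mem_Lθ]
  have : θ.symm (((θ : ℂ_[p] →+* ℂ).comp (Pool.Agent.W254.PA.ic p)) (L α)) =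
      Pool.Agent.W254.PA.ic p (L α) := θ.symm_apply_apply _
  rw [this]
  exact Pool.Agent.W254.PA.ic_log_mem hL hα halg

end Pool.Agent.Y787.AS
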