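import Pool.Agent.Y787.AS.Poly
import Pool.Agent.W254.PA.Transfer

/-!
# Linear spaces through a point of a variety: the reduction step
-/

set_option autoImplicit false

namespace Pool.Agent.Y787.AS
open MvPolynomial Module
open Pool.Agent.W254.PA (Hyp)

section linalg

variable {K : Type} [Field K]

theorem finrank_split {V W : Type} [AddCommGroup V] [Module K V] [FiniteDimensional K V]
    [AddCommGroup W] [Module K W] (Φ : V →ₗ[K] W) (T : Submodule K V) :
    finrank K T = finrank K (T ⊓ LinearMap.ker Φ : Submodule K V) + finrank K (T.map Φ) := by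
  have h1 := LinearMap.finrank_range_add_finrank_ker (Φ.domRestrict T)
  have h2 : LinearMap.range (Φ.domRestrict T) = T.map Φ := by
    rw [LinearMap.range_domRestrict]
  have h3 : finrank K (LinearMap.ker (Φ.domRestrict T)) =
      finrank K (T ⊓ LinearMap.ker Φ : Submodule K V) := by
    rw [LinearMap.ker_domRestrict, ← Submodule.map_comap_subtype,
      Submodule.finrank_map_subtype_eq]
  rw [h2, h3] at h1
  omega

theorem exists_adapted {V : Type} [AddCommGroup V] [Module K V] [FiniteDimensional K V]
    (R R' : Submodule K V) (h : R' ≤ R) :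
    ∃ (v : ℕ) (r : Fin v → V) (u : V →ₗ[K] (Fin v → K)), v + finrank K R' = finrank K R ∧
      (∀ e, r e ∈ R) ∧ (∀ c ∈ R', u c = 0) ∧ (∀ e, u (r e) = Pi.single e 1) ∧
      ∀ c ∈ R, c - ∑ e, u c e • r e ∈ R' := by
  classical
  let B : Submodule K (V ⧸ R') := R.map R'.mkQ
  let v := finrank K B
  let e : Basis (Fin v) K B := finBasis K B
  have hr : ∀ i, ∃ c ∈ R, R'.mkQ c = (e i : V ⧸ R') := fun i => by
    obtain ⟨c, h1, h2⟩ := Submodule.mem_map.1 (e i).2
    exact ⟨c, h1, h2⟩
  choose r hr1 hr2 using hr
  obtain ⟨f, hf⟩ := LinearMap.exists_extend (e.equivFun.toLinearMap : B →ₗ[K] (Fin v → K))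
  have hf' : ∀ x : B, f (x : V ⧸ R') = e.equivFun x := fun x => LinearMap.congr_fun hf x
  refine ⟨v, r, f ∘ₗ R'.mkQ, ?_, hr1, ?_, ?_, ?_⟩
  · have h1 := finrank_split R'.mkQ R
    rw [Submodule.ker_mkQ, inf_eq_right.2 h] at h1
    rw [h1, add_comm]
  · intro c hc
    have : R'.mkQ c = 0 := by
      rw [Submodule.mkQ_apply, Submodule.Quotient.mk_eq_zero]
      exact hc
    rw [LinearMap.comp_apply, this, map_zero]
  · intro i
    rw [LinearMap.comp_apply, hr2, hf']
    funext j
    rw [Basis.equivFun_apply, Basis.repr_self, Pi.single_apply, Finsupp.single_apply]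
    by_cases hij : i = j
    · simp [hij]
    · simp [hij, Ne.symm hij]
  · intro c hc
    have h1 : R'.mkQ c ∈ B := Submodule.mem_map_of_mem hc
    have h2 := e.sum_equivFun ⟨R'.mkQ c, h1⟩
    have h3 : R'.mkQ (c - ∑ e, (f ∘ₗ R'.mkQ) c e • r e) = 0 := by
      rw [map_sub, map_sum, sub_eq_zero]
      have h4 := congrArg (fun x : B => (x : V ⧸ R')) h2
      simp only [Submodule.coe_sum, Submodule.coe_smul] at h4
      rw [← h4]
      refine Finset.sum_congr rfl fun i _ => ?_
      rw [map_smul, hr2, LinearMap.comp_apply, hf' ⟨R'.mkQ c, h1⟩]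
    rwa [Submodule.mkQ_apply, Submodule.Quotient.mk_eq_zero] at h3

end linalg

variable {K E : Type} [Field K] [Field E] [Algebra K E] {m N q : ℕ}

/-- combinations of derivations -/
noncomputable def Dd (D : Fin q → Derivation ℤ E E) (δ : Fin q → K) : Derivation ℤ E E :=
  ∑ k, algebraMap K E (δ k) • D k

theorem Dd_apply (D : Fin q → Derivation ℤ E E) (δ : Fin q → K) (z : E) :
    Dd D δ z = ∑ k, algebraMap K E (δ k) * D k z := by
  have h : ∀ s : Finset (Fin q), (∑ k ∈ s, algebraMap K E (δ k) • D k) z =
      ∑ k ∈ s, algebraMap K E (δ k) * D k z := by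
    classical
    intro s
    induction s using Finset.induction_on with
    | empty => rw [Finset.sum_empty, Finset.sum_empty]; rfl
    | insert a s ha ih =>
      rw [Finset.sum_insert ha, Finset.sum_insert ha, Derivation.add_apply, ih,
        Derivation.smul_apply, smul_eq_mul]
  exact h Finset.univ

/-- combinations of the operators on the small field -/
def gd (g : Fin q → K → K) (δ : Fin q → K) (a : K) : K := ∑ k, δ k * g k a

theorem gd_add (g : Fin q → K → K) (δ δ' : Fin q → K) (a : K) :
    gd g (δ + δ') a = gd g δ a + gd g δ' a := by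
  rw [gd, gd, gd, ← Finset.sum_add_distrib]
  refine Finset.sum_congr rfl fun k _ => ?_
  rw [Pi.add_apply, add_mul]

theorem gd_smul (g : Fin q → K → K) (p : K) (δ : Fin q → K) (a : K) :
    gd g (p • δ) a = p * gd g δ a := by
  rw [gd, gd, Finset.mul_sum]
  refine Finset.sum_congr rfl fun k _ => ?_
  rw [Pi.smul_apply, smul_eq_mul, mul_assoc]

theorem Dd_alg (D : Fin q → Derivation ℤ E E) (g : Fin q → K → K)
    (hg : ∀ k a, D k (algebraMap K E a) = algebraMap K E (g k a)) (δ : Fin q → K) (a : K) :
    Dd D δ (algebraMap K E a) = algebraMap K E (gd g δ a) := by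
  rw [Dd_apply, gd, map_sum]
  refine Finset.sum_congr rfl fun k _ => ?_
  rw [hg, map_mul]

theorem gd_sum_mul (D : Fin q → Derivation ℤ E E) (g : Fin q → K → K)
    (hg : ∀ k a, D k (algebraMap K E a) = algebraMap K E (g k a)) (δ : Fin q → K) {α : Type}
    (s : Finset α) (x y : α → K) :
    gd g δ (∑ i ∈ s, x i * y i) = ∑ i ∈ s, (gd g δ (x i) * y i + x i * gd g δ (y i)) := by
  apply (algebraMap K E).injective
  rw [← Dd_alg D g hg, map_sum, map_sum, map_sum]
  refine Finset.sum_congr rfl fun i _ => ?_
  rw [map_mul, (Dd D δ).leibniz, Dd_alg D g hg, Dd_alg D g hg, map_add, map_mul, map_mul,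
    smul_eq_mul, smul_eq_mul]
  ring

/-- the valid pairs -/
structure Valid (g : Fin q → K → K) (b : Fin m → Fin N → K) (T0 : Submodule K (Fin q → K))
    (R : Submodule K (Fin m → K)) (T : Submodule K (Fin q → K)) : Prop where
  le : T ≤ T0
  pres : ∀ δ ∈ T, ∀ c ∈ R, (fun i => gd g δ (c i)) ∈ R
  cols : ∀ δ ∈ T, ∀ j, (fun i => gd g δ (b i j)) ∈ R
  bound : finrank K T0 ≤ finrank K T + (m - finrank K R) * (m - 1)

/-- the admissible spaces of polynomials -/
structure Adm (D : Fin q → Derivation ℤ E E) (y : Fin m → E) (T : Submodule K (Fin q → K))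
    (S : Submodule E (MvPolynomial (Fin m) E)) : Prop where
  ev : ∀ G ∈ S, eval y G = 0
  st : ∀ δ ∈ T, ∀ G ∈ S, coefD (Dd D δ) G ∈ S

theorem adm_span (D : Fin q → Derivation ℤ E E) (y : Fin m → E) (T : Submodule K (Fin q → K))
    (𝒢 : Set (MvPolynomial (Fin m) E)) (h1 : ∀ G ∈ 𝒢, eval y G = 0)
    (h2 : ∀ δ ∈ T, ∀ G ∈ 𝒢, coefD (Dd D δ) G ∈ Submodule.span E 𝒢) :
    Adm D y T (Submodule.span E 𝒢) where
  ev := by
    intro G hG
    induction hG using Submodule.span_induction with
    | mem x hx => exact h1 x hx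
    | zero => rw [map_zero]
    | add x z _ _ hx hz => rw [map_add, hx, hz, add_zero]
    | smul t x _ hx => rw [smul_eval, hx, mul_zero]
  st := by
    intro δ hδ G hG
    induction hG using Submodule.span_induction with
    | mem x hx => exact h2 δ hδ x hx
    | zero => rw [coefD_zero]; exact Submodule.zero_mem _
    | add x z _ _ hx hz => rw [coefD_add]; exact Submodule.add_mem _ hx hz
    | smul t x hx' hx =>
      rw [smul_eq_C_mul, coefD_C_mul, ← smul_eq_C_mul, ← smul_eq_C_mul]
      exact Submodule.add_mem _ (Submodule.smul_mem _ _ hx') (Submodule.smul_mem _ _ hx)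

/-- adding the derivatives along rational directions -/
theorem adm_next (D : Fin q → Derivation ℤ E E) (g : Fin q → K → K)
    (hg : ∀ k a, D k (algebraMap K E a) = algebraMap K E (g k a)) (y : Fin m → E)
    (T : Submodule K (Fin q → K)) (R : Submodule K (Fin m → K))
    (pres : ∀ δ ∈ T, ∀ c ∈ R, (fun i => gd g δ (c i)) ∈ R)
    (S : Submodule E (MvPolynomial (Fin m) E)) (hS : Adm D y T S)
    (hz : ∀ G ∈ S, ∀ c ∈ R, eval y (dirD (fun i => algebraMap K E (c i)) G) = 0) :
    ∃ S' : Submodule E (MvPolynomial (Fin m) E), Adm D y T S' ∧ S ≤ S' ∧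
      ∀ G ∈ S, ∀ c ∈ R, dirD (fun i => algebraMap K E (c i)) G ∈ S' := by
  set 𝒢 : Set (MvPolynomial (Fin m) E) := (S : Set (MvPolynomial (Fin m) E)) ∪
    {P | ∃ G ∈ S, ∃ c ∈ R, P = dirD (fun i => algebraMap K E (c i)) G} with h𝒢
  refine ⟨Submodule.span E 𝒢, adm_span D y T 𝒢 ?_ ?_, ?_, ?_⟩
  · rintro G (hG | ⟨G', hG', c, hc, rfl⟩)
    · exact hS.ev G hG
    · exact hz G' hG' c hc
  · rintro δ hδ G (hG | ⟨G', hG', c, hc, rfl⟩)
    · exact Submodule.subset_span (Or.inl (hS.st δ hδ G hG))
    · rw [coefD_dirD]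
      refine Submodule.add_mem _ ?_ ?_
      · refine Submodule.subset_span (Or.inr ⟨G', hG', fun i => gd g δ (c i), pres δ hδ c hc, ?_⟩)
        congr 1
        funext i
        exact Dd_alg D g hg δ (c i)
      · exact Submodule.subset_span (Or.inr ⟨_, hS.st δ hδ G' hG', c, hc, rfl⟩)
  · intro G hG
    exact Submodule.subset_span (Or.inl hG)
  · intro G hG c hc
    exact Submodule.subset_span (Or.inr ⟨G, hG, c, hc, rfl⟩)

/-- the weights -/
def Wts (K E : Type) [Field K] [Field E] [Algebra K E] : Prop :=
  ∀ (d : ℕ) (H : Submodule E (Fin d → E)), ∃ h ∈ H, ∀ v : Fin d → K,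
    ∑ e, algebraMap K E (v e) * h e = 0 → ∀ h' ∈ H, ∑ e, algebraMap K E (v e) * h' e = 0

/-- **The rank step.** -/
theorem rank_step {L : Submodule K E} (hL : Hyp L) (hw : Wts K E) (l : Fin N → E)
    (hl : ∀ j, l j ∈ L) (hli : LinearIndependent K l) (b : Fin m → Fin N → K)
    (D : Fin q → Derivation ℤ E E) (g : Fin q → K → K)
    (hg : ∀ k a, D k (algebraMap K E a) = algebraMap K E (g k a)) (hDl : ∀ k j, D k (l j) = 0)
    (T : Submodule K (Fin q → K)) (R : Submodule K (Fin m → K))
    (pres : ∀ δ ∈ T, ∀ c ∈ R, (fun i => gd g δ (c i)) ∈ R)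
    (cols : ∀ δ ∈ T, ∀ j, (fun i => gd g δ (b i j)) ∈ R)
    (S : Submodule E (MvPolynomial (Fin m) E))
    (hS : Adm D (fun i => ∑ j, algebraMap K E (b i j) * l j) T S) :
    ∃ (R' : Submodule K (Fin m → K)) (T' : Submodule K (Fin q → K)), R' ≤ R ∧ T' ≤ T ∧
      (∀ c ∈ R', ∀ G ∈ S, eval (fun i => ∑ j, algebraMap K E (b i j) * l j)
        (dirD (fun i => algebraMap K E (c i)) G) = 0) ∧
      (∀ δ ∈ T', ∀ c ∈ R', (fun i => gd g δ (c i)) ∈ R') ∧
      (∀ δ ∈ T', ∀ j, (fun i => gd g δ (b i j)) ∈ R') ∧
      finrank K T ≤ finrank K T' + (finrank K R - finrank K R') * (finrank K R - 1) := by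
  classical
  set y : Fin m → E := fun i => ∑ j, algebraMap K E (b i j) * l j with hy
  -- the linear forms on the directions
  let ψ : MvPolynomial (Fin m) E → (Fin m → K) → E := fun G c =>
    eval y (dirD (fun i => algebraMap K E (c i)) G)
  have hψ : ∀ G c, ψ G c = ∑ i, algebraMap K E (c i) * eval y (pderiv i G) := fun G c =>
    eval_dirD _ _ _
  have hψadd : ∀ G c c', ψ G (c + c') = ψ G c + ψ G c' := by
    intro G c c'
    rw [hψ, hψ, hψ, ← Finset.sum_add_distrib]
    refine Finset.sum_congr rfl fun i _ => ?_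
    rw [Pi.add_apply, map_add, add_mul]
  have hψsmul : ∀ G p c, ψ G (p • c) = algebraMap K E p * ψ G c := by
    intro G p c
    rw [hψ, hψ, Finset.mul_sum]
    refine Finset.sum_congr rfl fun i _ => ?_
    rw [Pi.smul_apply, smul_eq_mul, map_mul, mul_assoc]
  have hψzero : ∀ G, ψ G 0 = 0 := by
    intro G
    rw [hψ]
    refine Finset.sum_eq_zero fun i _ => ?_
    rw [Pi.zero_apply, map_zero, zero_mul]
  have hψsum : ∀ G {α : Type} (s : Finset α) (p : α → K) (c : α → Fin m → K),
      ψ G (∑ a ∈ s, p a • c a) = ∑ a ∈ s, algebraMap K E (p a) * ψ G (c a) := by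
    intro G α s p c
    induction s using Finset.induction_on with
    | empty => rw [Finset.sum_empty, Finset.sum_empty, hψzero]
    | insert a s ha ih => rw [Finset.sum_insert ha, Finset.sum_insert ha, hψadd, hψsmul, ih]
  let R' : Submodule K (Fin m → K) :=
    { carrier := {c | c ∈ R ∧ ∀ G ∈ S, ψ G c = 0}
      zero_mem' := ⟨R.zero_mem, fun G _ => hψzero G⟩
      add_mem' := fun {c c'} h h' => ⟨R.add_mem h.1 h'.1, fun G hG => by
        rw [hψadd, h.2 G hG, h'.2 G hG, add_zero]⟩
      smul_mem' := fun p c h => ⟨R.smul_mem p h.1, fun G hG => by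
        rw [hψsmul, h.2 G hG, mul_zero]⟩ }
  have hR'R : R' ≤ R := fun c hc => hc.1
  obtain ⟨v, r, u, hv, hrR, hu0, hur, hudec⟩ := exists_adapted R R' hR'R
  -- the linear maps
  let Φ1 : (Fin q → K) →ₗ[K] (Fin N → Fin v → K) :=
    { toFun := fun δ j => u (fun i => gd g δ (b i j))
      map_add' := fun δ δ' => by
        funext j
        rw [Pi.add_apply, ← map_add]
        congr 1
        funext i
        exact gd_add g δ δ' _
      map_smul' := fun p δ => by
        funext j
        rw [Pi.smul_apply, RingHom.id_apply, ← map_smul]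
        congr 1
        funext i
        exact gd_smul g p δ _ }
  let ρ' := finrank K R'
  let cB : Basis (Fin ρ') K R' := finBasis K R'
  let Φ2 : (Fin q → K) →ₗ[K] (Fin ρ' → Fin v → K) :=
    { toFun := fun δ β => u (fun i => gd g δ ((cB β : Fin m → K) i))
      map_add' := fun δ δ' => by
        funext j
        rw [Pi.add_apply, ← map_add]
        congr 1
        funext i
        exact gd_add g δ δ' _
      map_smul' := fun p δ => by
        funext j
        rw [Pi.smul_apply, RingHom.id_apply, ← map_smul]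
        congr 1
        funext i
        exact gd_smul g p δ _ }
  let T1 : Submodule K (Fin q → K) := T ⊓ LinearMap.ker Φ1
  let T' : Submodule K (Fin q → K) := T1 ⊓ LinearMap.ker Φ2
  have hmemR' : ∀ c ∈ R, u c = 0 → c ∈ R' := by
    intro c hc h0
    have := hudec c hc
    simpa [h0] using this
  refine ⟨R', T', hR'R, fun δ hδ => hδ.1.1, fun c hc G hG => hc.2 G hG, ?_, ?_, ?_⟩
  · rintro δ ⟨⟨hδT, hδ1⟩, hδ2⟩ c hc
    have hbase : ∀ β, (fun i => gd g δ ((cB β : Fin m → K) i)) ∈ R' := by
      intro β
      refine hmemR' _ (pres δ hδT _ (hR'R (cB β).2)) ?_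
      exact congrFun (LinearMap.mem_ker.1 hδ2) β
    obtain ⟨s, hs⟩ : ∃ s : Fin ρ' → K, ∀ i, c i = ∑ β, s β * (cB β : Fin m → K) i := by
      refine ⟨fun β => cB.repr ⟨c, hc⟩ β, fun i => ?_⟩
      have h1 := cB.sum_repr ⟨c, hc⟩
      have h2 := congrArg (fun x : R' => (x : Fin m → K) i) h1
      simp only [Submodule.coe_sum, Submodule.coe_smul, Finset.sum_apply, Pi.smul_apply,
        smul_eq_mul] at h2
      exact h2.symm
    have h3 : (fun i => gd g δ (c i)) = ∑ β, (gd g δ (s β) • (cB β : Fin m → K) +
        s β • fun i => gd g δ ((cB β : Fin m → K) i)) := by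
      funext i
      rw [hs i, gd_sum_mul D g hg, Finset.sum_apply]
      refine Finset.sum_congr rfl fun β _ => ?_
      rfl
    rw [h3]
    refine Submodule.sum_mem _ fun β _ => Submodule.add_mem _ ?_ ?_
    · exact Submodule.smul_mem _ _ (cB β).2
    · exact Submodule.smul_mem _ _ (hbase β)
  · rintro δ ⟨⟨hδT, hδ1⟩, hδ2⟩ j
    refine hmemR' _ (cols δ hδT j) ?_
    exact congrFun (LinearMap.mem_ker.1 hδ1) j
  · have e1 := finrank_split Φ1 T
    have e2 := finrank_split Φ2 T1
    have e3 : finrank K (T1.map Φ2) ≤ ρ' * v := by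
      refine (Submodule.finrank_le _).trans ?_
      rw [Module.finrank_pi_fintype]
      simp
    have e4 : finrank K (T.map Φ1) ≤ v * (v - 1) := by
      let w := finBasis K (T.map Φ1)
      have hwδ : ∀ t, ∃ δ ∈ T, Φ1 δ = (w t : Fin N → Fin v → K) := fun t => by
        obtain ⟨δ, h1, h2⟩ := Submodule.mem_map.1 (w t).2
        exact ⟨δ, h1, h2⟩
      choose δ hδT hδw using hwδ
      -- the generic polynomial
      let HH : MvPolynomial (Fin m) E →ₗ[E] (Fin v → E) :=
        { toFun := fun G e => ψ G (r e)
          map_add' := fun G G' => by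
            funext e
            change eval y _ = eval y _ + eval y _
            rw [dirD_add, map_add]
          map_smul' := fun a G => by
            funext e
            change eval y _ = a * eval y _
            rw [smul_eq_C_mul, dirD_C_mul, map_mul, eval_C] }
      obtain ⟨h, hh, hgen⟩ := hw v (S.map HH)
      obtain ⟨G0, hG0, rfl⟩ := Submodule.mem_map.1 hh
      have hind : LinearIndependent K (fun e => ψ G0 (r e)) := by
        rw [Fintype.linearIndependent_iff]
        intro c hc
        have h1 : ∑ e, algebraMap K E (c e) * HH G0 e = 0 := by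
          rw [← hc]
          refine Finset.sum_congr rfl fun e _ => ?_
          rw [Algebra.smul_def]
          rfl
        have h2 : ∑ e, c e • r e ∈ R' := by
          refine ⟨Submodule.sum_mem _ fun e _ => R.smul_mem _ (hrR e), fun G hG => ?_⟩
          rw [hψsum]
          exact hgen c h1 (HH G) (Submodule.mem_map_of_mem hG)
        have h3 := hu0 _ h2
        rw [map_sum] at h3
        intro e
        have h4 := congrFun h3 e
        simp only [map_smul, hur, Finset.sum_apply, Pi.smul_apply, smul_eq_mul,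
          Pi.zero_apply] at h4
        rw [Finset.sum_eq_single e] at h4
        · rwa [Pi.single_eq_same, mul_one] at h4
        · intro e' _ he'
          rw [Pi.single_eq_of_ne (Ne.symm he'), mul_zero]
        · intro h; exact absurd (Finset.mem_univ _) h
      refine hL v _ (fun e => ψ G0 (r e))
        (fun e t => ∑ j, algebraMap K E ((w t : Fin N → Fin v → K) j e) * l j) hind ?_ ?_ ?_
      · intro e t
        refine Submodule.sum_mem _ fun j _ => ?_
        rw [← Algebra.smul_def]
        exact L.smul_mem _ (hl j)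
      · intro t
        -- the chain rule
        have h1 := D_eval (Dd D (δ t)) y G0
        rw [hS.ev G0 hG0, map_zero, hS.ev _ (hS.st (δ t) (hδT t) G0 hG0), zero_add] at h1
        have h2 : ∀ i, Dd D (δ t) (y i) = ∑ j, algebraMap K E (gd g (δ t) (b i j)) * l j := by
          intro i
          rw [hy, map_sum]
          refine Finset.sum_congr rfl fun j _ => ?_
          rw [(Dd D (δ t)).leibniz, Dd_alg D g hg]
          have h3 : Dd D (δ t) (l j) = 0 := by
            rw [Dd_apply]
            refine Finset.sum_eq_zero fun k _ => ?_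
            rw [hDl, mul_zero]
          rw [h3, smul_zero, zero_add, smul_eq_mul, mul_comm]
        have h4 : ∀ j, ψ G0 (fun i => gd g (δ t) (b i j)) =
            ∑ e, algebraMap K E ((w t : Fin N → Fin v → K) j e) * ψ G0 (r e) := by
          intro j
          have h5 := hudec _ (cols (δ t) (hδT t) j)
          have h6 := h5.2 G0 hG0
          have h7 : (fun i => gd g (δ t) (b i j)) = ((fun i => gd g (δ t) (b i j)) -
              ∑ e, u (fun i => gd g (δ t) (b i j)) e • r e) +
              ∑ e, u (fun i => gd g (δ t) (b i j)) e • r e := by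
            rw [sub_add_cancel]
          rw [h7, hψadd, h6, zero_add, hψsum]
          refine Finset.sum_congr rfl fun e _ => ?_
          rw [← hδw t]
          rfl
        have h8 : ∑ e, ψ G0 (r e) * ∑ j, algebraMap K E ((w t : Fin N → Fin v → K) j e) * l j =
            ∑ j, l j * ψ G0 (fun i => gd g (δ t) (b i j)) := by
          simp only [h4, Finset.mul_sum]
          rw [Finset.sum_comm]
          refine Finset.sum_congr rfl fun j _ => Finset.sum_congr rfl fun e _ => ?_
          ring
        rw [h8]
        have h9 : ∑ j, l j * ψ G0 (fun i => gd g (δ t) (b i j)) =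
            ∑ i, Dd D (δ t) (y i) * eval y (pderiv i G0) := by
          simp only [h2, hψ, Finset.mul_sum, Finset.sum_mul]
          rw [Finset.sum_comm]
          refine Finset.sum_congr rfl fun i _ => Finset.sum_congr rfl fun j _ => ?_
          ring
        rw [h9, ← h1]
      · rw [Fintype.linearIndependent_iff]
        intro p hp
        have h1 : ∀ e j, ∑ t, p t * (w t : Fin N → Fin v → K) j e = 0 := by
          intro e
          have h2 := congrFun hp e
          rw [Finset.sum_apply, Pi.zero_apply] at h2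
          have h3 : ∑ j, (∑ t, p t * (w t : Fin N → Fin v → K) j e) • l j = 0 := by
            rw [← h2]
            simp only [Pi.smul_apply, Algebra.smul_def, map_sum, map_mul, Finset.mul_sum,
              Finset.sum_mul]
            rw [Finset.sum_comm]
            refine Finset.sum_congr rfl fun j _ => Finset.sum_congr rfl fun t _ => ?_
            ring
          exact (Fintype.linearIndependent_iff.1 hli) _ h3
        have h4 : ∑ t, p t • w t = 0 := by
          apply Subtype.ext
          funext j e
          simp only [Submodule.coe_sum, Submodule.coe_smul, Finset.sum_apply, Pi.smul_apply,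
            smul_eq_mul]
          exact h1 e j
        exact (Fintype.linearIndependent_iff.1 w.linearIndependent) p h4
    change finrank K T ≤ finrank K T' + (finrank K R - ρ') * (finrank K R - 1)
    have e5 : finrank K R = v + ρ' := hv.symm
    have e6 : finrank K R - ρ' = v := by omega
    rw [e6, e5]
    change finrank K T = finrank K T1 + _ at e1
    change finrank K T1 = finrank K T' + _ at e2
    rcases Nat.eq_zero_or_pos v with h0 | h0
    · have e8 : ρ' * v = 0 := by rw [h0, mul_zero]
      have e9 : v * (v - 1) = 0 := by rw [h0, zero_mul]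
      rw [e8] at e3
      rw [e9] at e4
      omega
    · have e7 : v * (v + ρ' - 1) = v * (v - 1) + ρ' * v := by
        obtain ⟨v', rfl⟩ : ∃ v', v = v' + 1 := ⟨v - 1, by omega⟩
        have h1 : v' + 1 + ρ' - 1 = v' + ρ' := by omega
        have h2 : v' + 1 - 1 = v' := by omega
        rw [h1, h2]
        ring
      rw [e7]
      omega

end Pool.Agent.Y787.AS
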