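import Pool.Agent.Y787.AS.Main
import Pool.Agent.Y787.AS.Rat
import Pool.Agent.Y787.ZB.Cnt

/-!
# Points on varieties: dimension and counting
-/

set_option autoImplicit false

namespace Pool.Agent.Y787.AS
open MvPolynomial Module Filter
open Pool.Agent.W254.PA (Hyp)

/-- more linear forms than the dimension satisfy a linear relation -/
theorem trivial_rel {k V : Type} [Field k] [AddCommGroup V] [Module k V] [FiniteDimensional k V]
    {q : ℕ} (hq : finrank k V < q) (φ : Fin q → (V →ₗ[k] k)) :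
    ∃ P : MvPolynomial (Fin q) k, P ≠ 0 ∧ ∀ x, eval (fun i => φ i x) P = 0 := by
  classical
  have h1 : ¬ LinearIndependent k φ := by
    intro h
    have h2 := h.fintype_card_le_finrank
    have h3 : finrank k (V →ₗ[k] k) = finrank k V := Subspace.dual_finrank_eq
    rw [Fintype.card_fin, h3] at h2
    omega
  rw [Fintype.not_linearIndependent_iff] at h1
  obtain ⟨g, hg, i, hi⟩ := h1
  refine ⟨∑ i, C (g i) * X i, ?_, fun x => ?_⟩
  · intro h0
    have h2 := congrArg (coeff (Finsupp.single i 1)) h0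
    rw [coeff_sum, coeff_zero] at h2
    rw [Finset.sum_eq_single i] at h2
    · rw [coeff_C_mul, coeff_X', if_pos rfl, mul_one] at h2
      exact hi h2
    · intro j _ hj
      rw [coeff_C_mul, coeff_X', if_neg, mul_zero]
      intro h
      exact hj (Finsupp.single_left_injective one_ne_zero h)
    · intro h; exact absurd (Finset.mem_univ _) h
  · rw [map_sum]
    have h2 := LinearMap.congr_fun hg x
    rw [LinearMap.sum_apply] at h2
    simpa using h2

section general

variable {k Cc : Type} [Field k] [Field Cc] [Algebra k Cc]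

/-- the translate of `R` through `y` lies in the zero set -/
def Trans (k : Type) {Cc : Type} [Field k] [Field Cc] [Algebra k Cc] {m r : ℕ}
    (F : Fin r → MvPolynomial (Fin m) Cc) (y : Fin m → Cc) (R : Submodule k (Fin m → k)) : Prop :=
  ∀ s, ∀ c ∈ Submodule.span Cc {x : Fin m → Cc | ∃ v ∈ R, x = fun i => algebraMap k Cc (v i)},
    eval (fun i => y i + c i) (F s) = 0

theorem eval_emb {m : ℕ} (F : MvPolynomial (Fin m) Cc) (z : Fin m ⊕ Fin 0 → Cc) :
    eval z (rename Sum.inl F) = eval (fun i => z (Sum.inl i)) F := by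
  rw [eval_rename]
  rfl

theorem var_coord [CharZero k] [CharZero Cc] {Lt : Submodule k Cc} (hL : Hyp Lt)
    (hw : Wts' k Cc) {m N r ρ : ℕ} (hρ : ρ ≤ m) (l : Fin N → Cc) (hl : ∀ j, l j ∈ Lt)
    (hli : LinearIndependent k l) (F : Fin r → MvPolynomial (Fin m) Cc)
    (φ : Fin (ρ * N + (m - ρ) * (m - 1) + 1) → ((Fin m × Fin N → k) →ₗ[k] k)) :
    ∃ P : MvPolynomial (Fin (ρ * N + (m - ρ) * (m - 1) + 1)) k, P ≠ 0 ∧
      ∀ b : Fin m → Fin N → k,
      (∀ s, eval (fun i => ∑ j, algebraMap k Cc (b i j) * l j) (F s) = 0) →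
      (∀ R : Submodule k (Fin m → k),
        Trans k F (fun i => ∑ j, algebraMap k Cc (b i j) * l j) R → finrank k R ≤ ρ) →
      eval (fun i => φ i (fun p => b p.1 p.2)) P = 0 := by
  classical
  rcases Nat.lt_or_ge (N + 1) m with h | h
  · obtain ⟨P, h1, h2⟩ := trivial_rel (by
      rw [finrank_fintype_fun_eq_card, Fintype.card_prod, Fintype.card_fin, Fintype.card_fin]
      obtain ⟨c, rfl⟩ : ∃ c, m = ρ + c := ⟨m - ρ, by omega⟩
      rw [Nat.add_sub_cancel_left]
      have : c * N ≤ c * (ρ + c - 1) := Nat.mul_le_mul_left _ (by omega)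
      have e1 : (ρ + c) * N = ρ * N + c * N := by ring
      omega) φ
    exact ⟨P, h1, fun b _ _ => h2 _⟩
  · obtain ⟨P, h1, h2⟩ := fam_coord (m := m) (N := N) (ρ := ρ) (τ := 0)
      (q := ρ * N + (m - ρ) * (m - 1) + 1) hL hw l hl hli (fun s => rename Sum.inl (F s))
      (expo hρ h) φ
    refine ⟨P, h1, fun b hb hb' => ?_⟩
    refine h2 b (fun a => a.elim0) (fun s => ?_) ?_
    · rw [eval_emb]
      exact hb s
    · rintro ⟨R, hR1, hR2⟩
      have h3 := hb' R (fun s c hc => by
        have := hR2 s c hc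
        rw [eval_emb] at this
        exact this)
      omega

/-- **Dimension.** -/
theorem var_dim [CharZero k] [CharZero Cc] {Lt : Submodule k Cc} (hL : Hyp Lt)
    (hw : Wts' k Cc) (W : Submodule k Cc) [FiniteDimensional k W] (hW : W ≤ Lt) {m r ρ : ℕ}
    (hρ : ρ ≤ m) (F : Fin r → MvPolynomial (Fin m) Cc)
    (φ : Fin (ρ * finrank k W + (m - ρ) * (m - 1) + 1) → ((Fin m → W) →ₗ[k] k)) :
    ∃ P : MvPolynomial (Fin (ρ * finrank k W + (m - ρ) * (m - 1) + 1)) k, P ≠ 0 ∧
      ∀ y : Fin m → W, (∀ s, eval (fun i => (y i : Cc)) (F s) = 0) →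
      (∀ R : Submodule k (Fin m → k), Trans k F (fun i => (y i : Cc)) R → finrank k R ≤ ρ) →
      eval (fun i => φ i y) P = 0 := by
  obtain ⟨P, h1, h2⟩ := var_coord hL hw hρ
    (fun j => (Module.finBasis k W j : Cc)) (fun j => hW (Module.finBasis k W j).2)
    ((Module.finBasis k W).linearIndependent.map' W.subtype
      (LinearMap.ker_eq_bot.2 W.subtype_injective)) F (fun i => φ i ∘ₗ mkT m)
  refine ⟨P, h1, fun y hy ht => ?_⟩
  have h3 : (fun i => ∑ j, algebraMap k Cc ((Module.finBasis k W).repr (y i) j) *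
      (Module.finBasis k W j : Cc)) = fun i => (y i : Cc) := by
    funext i
    have h4 := congrArg (fun w : W => (w : Cc)) ((Module.finBasis k W).sum_repr (y i))
    simp only [Submodule.coe_sum, Submodule.coe_smul, Algebra.smul_def] at h4
    exact h4
  have h5 : mkT (k := k) (W := W) m (fun p => (Module.finBasis k W).repr (y p.1) p.2) = y := by
    funext i
    exact (Module.finBasis k W).sum_repr (y i)
  have h6 := h2 (fun i j => (Module.finBasis k W).repr (y i) j) (by
    rw [h3]; exact hy) (by rw [h3]; exact ht)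
  simp only [LinearMap.comp_apply, h5] at h6
  exact h6

end general

section rational

variable {E : Type} [Field E] [CharZero E]

/-- the number of integer matrices of height at most `H` which give points of the variety -/
noncomputable def numV {m r N : ℕ} (F : Fin r → MvPolynomial (Fin m) E) (l : Fin N → E)
    (H : ℕ) : ℕ :=
  Set.ncard {A : Fin m → Fin N → ℤ | (∀ i j, |A i j| ≤ H) ∧
    ∀ s, eval (fun i => ∑ j, (A i j : E) * l j) (F s) = 0}

theorem box_finite' {m N : ℕ} (H : ℕ) (Q : (Fin m → Fin N → ℤ) → Prop) :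
    Set.Finite {A : Fin m → Fin N → ℤ | (∀ i j, |A i j| ≤ H) ∧ Q A} := by
  refine Set.Finite.subset (Set.finite_Icc (fun _ _ => -(H : ℤ)) (fun _ _ => (H : ℤ))) ?_
  rintro A ⟨hA, _⟩
  rw [Set.mem_Icc]
  exact ⟨fun i j => (abs_le.1 (hA i j)).1, fun i j => (abs_le.1 (hA i j)).2⟩

theorem var_upper [Uncountable E] {Lt : Submodule ℚ E} (hL : Hyp Lt) {m N r ρ : ℕ} (hρ : ρ ≤ m)
    (l : Fin N → E) (hl : ∀ j, l j ∈ Lt) (hli : LinearIndependent ℚ l)
    (F : Fin r → MvPolynomial (Fin m) E)
    (hF : ∀ (A : Fin m → Fin N → ℤ) (R : Submodule ℚ (Fin m → ℚ)),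
      Trans ℚ F (fun i => ∑ j, (A i j : E) * l j) R → finrank ℚ R ≤ ρ) :
    ∃ κ : ℕ, ∀ H : ℕ, 1 ≤ H → numV F l H ≤ κ * H ^ (ρ * N + (m - ρ) * (m - 1)) := by
  classical
  have hcast : ∀ A : Fin m → Fin N → ℤ,
      (fun i => ∑ j, algebraMap ℚ E ((A i j : ℤ) : ℚ) * l j) =
      fun i => ∑ j, (A i j : E) * l j := by
    intro A
    funext i
    simp
  obtain ⟨κ, hκ⟩ := Pool.Agent.Y787.HS.count_gen (K := ℚ) (d := ρ * N + (m - ρ) * (m - 1))
    (σ := Fin m × Fin N)
    {x | (∀ s, eval (fun i => ∑ j, algebraMap ℚ E (x (i, j)) * l j) (F s) = 0) ∧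
      ∀ R : Submodule ℚ (Fin m → ℚ),
        Trans ℚ F (fun i => ∑ j, algebraMap ℚ E (x (i, j)) * l j) R → finrank ℚ R ≤ ρ} (by
      intro φ
      obtain ⟨P, h1, h2⟩ := var_coord hL wts_pt hρ l hl hli F φ
      exact ⟨P, h1, fun x hx => h2 (fun i j => x (i, j)) hx.1 hx.2⟩)
  refine ⟨κ, fun H hH => ?_⟩
  rw [numV, Set.ncard_eq_toFinset_card _ (box_finite' H _)]
  let g : (Fin m → Fin N → ℤ) → (Fin m × Fin N → ℤ) := fun A p => A p.1 p.2
  have hg : Function.Injective g := by
    intro A A' h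
    funext i j
    exact congrFun h (i, j)
  rw [← Finset.card_image_of_injective _ hg]
  refine hκ H hH _ ?_
  intro a ha
  obtain ⟨A, hA, rfl⟩ := Finset.mem_image.1 ha
  rw [Set.Finite.mem_toFinset] at hA
  obtain ⟨h1, h2⟩ := hA
  refine ⟨fun p => h1 _ _, fun s => ?_, fun R hR => ?_⟩
  · change eval (fun i => ∑ j, algebraMap ℚ E ((A i j : ℤ) : ℚ) * l j) (F s) = 0
    rw [hcast]
    exact h2 s
  · refine hF A R ?_
    have h3 : Trans ℚ F (fun i => ∑ j, algebraMap ℚ E ((A i j : ℤ) : ℚ) * l j) R := hR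
    rwa [hcast] at h3

/-- integer vectors which are a basis of a rational space -/
theorem int_basis' {m : ℕ} (R : Submodule ℚ (Fin m → ℚ)) :
    ∃ v : Fin (finrank ℚ R) → Fin m → ℤ, LinearIndependent ℚ (fun a i => (v a i : ℚ)) ∧
      ∀ a, (fun i => (v a i : ℚ)) ∈ R := by
  classical
  let e := finBasis ℚ R
  have h : ∀ a, ∃ (D : ℤ) (v : Fin m → ℤ), D ≠ 0 ∧ ∀ i, (v i : ℚ) = D * (e a : Fin m → ℚ) i := by
    intro a
    refine ⟨∏ i, ((e a : Fin m → ℚ) i).den,
      fun i => ((e a : Fin m → ℚ) i).num * ∏ j ∈ Finset.univ.erase i, ((e a : Fin m → ℚ) j).den,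
      ?_, fun i => ?_⟩
    · rw [Ne, Finset.prod_eq_zero_iff]
      push Not
      intro i _
      exact_mod_cast ((e a : Fin m → ℚ) i).den_ne_zero
    · rw [← Finset.mul_prod_erase Finset.univ (fun i => (((e a : Fin m → ℚ) i).den : ℤ))
        (Finset.mem_univ i)]
      push_cast
      have h1 : (((e a : Fin m → ℚ) i).den : ℚ) * (e a : Fin m → ℚ) i =
          ((e a : Fin m → ℚ) i).num := Rat.den_mul_eq_num _
      rw [← h1]
      ring
  choose D v hD hv using h
  refine ⟨v, ?_, fun a => ?_⟩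
  · rw [Fintype.linearIndependent_iff]
    intro g hg a
    have h1 := (Fintype.linearIndependent_iff.1 e.linearIndependent) (fun a => g a * D a) (by
      apply Subtype.ext
      funext i
      have h2 := congrFun hg i
      simp only [Finset.sum_apply, Pi.smul_apply, smul_eq_mul, hv, Pi.zero_apply] at h2
      simp only [Submodule.coe_sum, Submodule.coe_smul, Finset.sum_apply, Pi.smul_apply,
        smul_eq_mul, Submodule.coe_zero, Pi.zero_apply]
      rw [← h2]
      refine Finset.sum_congr rfl fun a _ => ?_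
      ring) a
    exact (mul_eq_zero.1 h1).resolve_right (by exact_mod_cast hD a)
  · have h1 : (fun i => (v a i : ℚ)) = (D a : ℚ) • (e a : Fin m → ℚ) := by
      funext i
      rw [hv, Pi.smul_apply, smul_eq_mul]
    rw [h1]
    exact R.smul_mem _ (e a).2

theorem var_lower {m N r : ℕ} (l : Fin N → E) (F : Fin r → MvPolynomial (Fin m) E)
    (A₀ : Fin m → Fin N → ℤ) (R : Submodule ℚ (Fin m → ℚ))
    (hR : Trans ℚ F (fun i => ∑ j, (A₀ i j : E) * l j) R) :
    ∃ κ : ℕ, 1 ≤ κ ∧ ∀ H : ℕ, κ ≤ H → H ^ (finrank ℚ R * N) ≤ κ * numV F l H := by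
  classical
  obtain ⟨ρ, hρ, v, hv1, hv2⟩ : ∃ ρ, ρ = finrank ℚ R ∧ ∃ v : Fin ρ → Fin m → ℤ,
      LinearIndependent ℚ (fun a i => (v a i : ℚ)) ∧ ∀ a, (fun i => (v a i : ℚ)) ∈ R :=
    ⟨_, rfl, int_basis' R⟩
  rw [← hρ]
  -- a bound for the entries
  obtain ⟨M, hM1, hM2, hM3⟩ : ∃ M : ℕ, 1 ≤ M ∧ (∀ i j, |A₀ i j| ≤ M) ∧
      ∀ i, ∑ a, |v a i| ≤ M := by
    refine ⟨1 + (∑ i, ∑ j, (A₀ i j).natAbs) + ∑ i, ∑ a, (v a i).natAbs, by omega, ?_, ?_⟩
    · intro i j
      have h1 : (A₀ i j).natAbs ≤ ∑ i, ∑ j, (A₀ i j).natAbs :=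
        (Finset.single_le_sum (f := fun j => (A₀ i j).natAbs) (fun _ _ => Nat.zero_le _)
          (Finset.mem_univ j)).trans
          (Finset.single_le_sum (f := fun i => ∑ j, (A₀ i j).natAbs) (fun _ _ => Nat.zero_le _)
            (Finset.mem_univ i))
      rw [Int.abs_eq_natAbs]
      exact_mod_cast (by omega : (A₀ i j).natAbs ≤ 1 + (∑ i, ∑ j, (A₀ i j).natAbs) +
        ∑ i, ∑ a, (v a i).natAbs)
    · intro i
      have h1 : ∑ a, (v a i).natAbs ≤ ∑ i, ∑ a, (v a i).natAbs :=
        Finset.single_le_sum (f := fun i => ∑ a, (v a i).natAbs) (fun _ _ => Nat.zero_le _)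
          (Finset.mem_univ i)
      have h2 : ∑ a, |v a i| = ((∑ a, (v a i).natAbs : ℕ) : ℤ) := by
        push_cast
        rfl
      rw [h2]
      exact_mod_cast (by omega : ∑ a, (v a i).natAbs ≤ 1 + (∑ i, ∑ j, (A₀ i j).natAbs) +
        ∑ i, ∑ a, (v a i).natAbs)
  -- the arrays
  refine ⟨(4 * M) ^ (ρ * N) + 2 * M, by omega, fun H hH => ?_⟩
  set T := H / (2 * M) with hT
  have hT1 : 1 ≤ T := by
    rw [hT, Nat.one_le_div_iff (by omega)]
    omega
  have hT2 : H ≤ 4 * M * T := by
    have h1 := Nat.div_add_mod H (2 * M)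
    have h2 := Nat.mod_lt H (by omega : 0 < 2 * M)
    rw [← hT] at h1
    nlinarith
  have hT3 : 2 * M * T ≤ H := Nat.mul_div_le H (2 * M)
  let G : (Fin ρ → Fin N → ℤ) → (Fin m → Fin N → ℤ) := fun n i j =>
    A₀ i j + ∑ a, n a j * v a i
  have hG : Function.Injective G := by
    intro n n' h
    funext a j
    have h1 := (Fintype.linearIndependent_iff.1 hv1) (fun a => ((n a j - n' a j : ℤ) : ℚ)) (by
      funext i
      have h2 := congrFun (congrFun h i) j
      simp only [G] at h2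
      have h3 : ∑ a, n a j * v a i = ∑ a, n' a j * v a i := by linarith
      rw [Finset.sum_apply, Pi.zero_apply]
      simp only [Pi.smul_apply, smul_eq_mul]
      have h4 : ∑ a, ((n a j - n' a j : ℤ) : ℚ) * (v a i : ℚ) =
          ((∑ a, n a j * v a i - ∑ a, n' a j * v a i : ℤ) : ℚ) := by
        rw [← Finset.sum_sub_distrib]
        push_cast
        refine Finset.sum_congr rfl fun a _ => ?_
        ring
      rw [h4, h3, sub_self, Int.cast_zero]) a
    have h2 : n a j - n' a j = 0 := by exact_mod_cast h1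
    linarith
  let B : Finset (Fin ρ → Fin N → ℤ) :=
    Fintype.piFinset fun _ => Fintype.piFinset fun _ => Finset.Icc (0 : ℤ) (T : ℤ)
  have hB : B.card = (T + 1) ^ (ρ * N) := by
    rw [Fintype.card_piFinset]
    simp only [Fintype.card_piFinset, Int.card_Icc, Finset.prod_const, Finset.card_univ,
      Fintype.card_fin, sub_zero]
    rw [← pow_mul, mul_comm N ρ]
    congr 1
  have h1 : B.card ≤ numV F l H := by
    rw [← Finset.card_image_of_injective _ hG, ← Set.ncard_coe_finset, numV]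
    refine Set.ncard_le_ncard ?_ (box_finite' H _)
    intro A hA
    rw [Finset.mem_coe, Finset.mem_image] at hA
    obtain ⟨n, hn, rfl⟩ := hA
    simp only [B, Fintype.mem_piFinset, Finset.mem_Icc] at hn
    refine ⟨fun i j => ?_, fun s => ?_⟩
    · have e1 : |∑ a, n a j * v a i| ≤ T * M := by
        refine (Finset.abs_sum_le_sum_abs _ _).trans ?_
        have e2 : ∑ a, |n a j * v a i| ≤ ∑ a, (T : ℤ) * |v a i| := by
          refine Finset.sum_le_sum fun a _ => ?_
          rw [abs_mul]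
          refine mul_le_mul_of_nonneg_right ?_ (abs_nonneg _)
          rw [abs_le]
          have := hn a j
          constructor <;> omega
        refine e2.trans ?_
        rw [← Finset.mul_sum]
        exact mul_le_mul_of_nonneg_left (hM3 i) (by positivity)
      have e3 : |G n i j| ≤ |A₀ i j| + |∑ a, n a j * v a i| := abs_add_le _ _
      have e4 : (M : ℤ) + T * M ≤ H := by
        have : (2 * M * T : ℤ) ≤ H := by exact_mod_cast hT3
        have h5 : (1 : ℤ) ≤ T := by exact_mod_cast hT1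
        nlinarith
      exact e3.trans ((add_le_add (hM2 i j) e1).trans e4)
    · have e1 := hR s (∑ a, (∑ j, (n a j : E) * l j) • fun i => algebraMap ℚ E (v a i : ℚ))
        (Submodule.sum_mem _ fun a _ => Submodule.smul_mem _ _
          (Submodule.subset_span ⟨_, hv2 a, rfl⟩))
      rw [← e1]
      congr 1
      congr 1
      funext i
      rw [Finset.sum_apply]
      simp only [G, Pi.smul_apply, smul_eq_mul, Int.cast_add, Int.cast_sum, Int.cast_mul,
        map_intCast, add_mul, Finset.sum_add_distrib, Finset.sum_mul]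
      congr 1
      rw [Finset.sum_comm]
      refine Finset.sum_congr rfl fun a _ => Finset.sum_congr rfl fun j _ => ?_
      ring
  have h2 : H ^ (ρ * N) ≤ (4 * M) ^ (ρ * N) * B.card := by
    rw [hB, ← mul_pow]
    refine Nat.pow_le_pow_left ?_ _
    refine hT2.trans ?_
    exact Nat.mul_le_mul_left _ (by omega)
  refine h2.trans ?_
  refine Nat.mul_le_mul ?_ h1
  omega

end rational

end Pool.Agent.Y787.AS
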