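import Pool.Agent.Y787.AS.Fl
import Pool.Agent.Y787.AS.Var

/-!
# Matrices of small rank: dimension and counting
-/

set_option autoImplicit false

namespace Pool.Agent.Y787.AS
open MvPolynomial Module
open Pool.Agent.W254.PA (Hyp)

/-- the coefficient of the dimension of the space in the bound -/
def rho (n r : ℕ) : ℕ := if 2 * r ≤ n + 1 then 0 else n * (2 * r - n)

theorem rho_le {n r : ℕ} (hr : r ≤ n) : rho n r ≤ n * n := by
  unfold rho
  split_ifs
  · exact Nat.zero_le _
  · exact Nat.mul_le_mul_left _ (by omega)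

theorem rank_le_of_minors {K : Type} [Field K] {n r : ℕ} (M : Matrix (Fin n) (Fin n) K)
    (h : ∀ s t : Fin (r + 1) → Fin n, (M.submatrix s t).det = 0) : M.rank ≤ r := by
  classical
  by_contra hcon
  obtain ⟨ρ, hρ⟩ : ∃ ρ, M.rank = ρ := ⟨_, rfl⟩
  obtain ⟨S, T, hST⟩ : ∃ (S : Fin ρ → Fin n) (T : Fin ρ → Fin n),
      (M.submatrix S T).det ≠ 0 := by
    subst hρ
    exact Pool.Agent.W824.BJ.exists_minor M
  have hle : r + 1 ≤ ρ := by omega
  have h1 : LinearIndependent K (M.submatrix S T).row :=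
    Matrix.linearIndependent_rows_iff_isUnit.2
      ((Matrix.isUnit_iff_isUnit_det _).2 (isUnit_iff_ne_zero.2 hST))
  let N : Matrix (Fin (r + 1)) (Fin ρ) K := (M.submatrix S T).submatrix (Fin.castLE hle) id
  have h2 : LinearIndependent K N.row := h1.comp _ (Fin.castLE_injective hle)
  obtain ⟨q, hq⟩ : ∃ q, N.rank = q := ⟨_, rfl⟩
  have hq' : q = r + 1 := by
    rw [← hq, h2.rank_matrix, Fintype.card_fin]
  obtain ⟨s, c, hsc⟩ : ∃ (s : Fin q → Fin (r + 1)) (c : Fin q → Fin ρ),
      (N.submatrix s c).det ≠ 0 := by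
    subst hq
    exact Pool.Agent.W824.BJ.exists_minor N
  subst hq'
  exact hsc (h (fun i => S (Fin.castLE hle (s i))) (fun i => T (c i)))

section poly

variable (Cc : Type) [Field Cc]

/-- the minors of size `r + 1` -/
noncomputable def minP (n r : ℕ) (s : (Fin (r + 1) → Fin n) × (Fin (r + 1) → Fin n)) :
    MvPolynomial (Fin (n * n)) Cc :=
  (Matrix.of fun i j : Fin (r + 1) => (X (finProdFinEquiv (s.1 i, s.2 j)) :
    MvPolynomial (Fin (n * n)) Cc)).det

/-- the same, numbered -/
noncomputable def minF (n r : ℕ)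
    (a : Fin (Fintype.card ((Fin (r + 1) → Fin n) × (Fin (r + 1) → Fin n)))) :
    MvPolynomial (Fin (n * n)) Cc :=
  minP Cc n r ((Fintype.equivFin _).symm a)

variable {Cc}

theorem eval_minP {n r : ℕ} (s : (Fin (r + 1) → Fin n) × (Fin (r + 1) → Fin n))
    (z : Fin (n * n) → Cc) : eval z (minP Cc n r s) =
      ((Matrix.of fun i j : Fin n => z (finProdFinEquiv (i, j))).submatrix s.1 s.2).det := by
  rw [minP, RingHom.map_det]
  congr 1
  ext i j
  simp

theorem minF_zero_iff {n r : ℕ} (z : Fin (n * n) → Cc) :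
    (∀ a, eval z (minF Cc n r a) = 0) ↔
      (Matrix.of fun i j : Fin n => z (finProdFinEquiv (i, j))).rank ≤ r := by
  constructor
  · intro h
    refine rank_le_of_minors _ fun s t => ?_
    have h1 := h (Fintype.equivFin _ (s, t))
    rw [minF, Equiv.symm_apply_apply, eval_minP] at h1
    exact h1
  · intro h a
    rw [minF, eval_minP]
    by_contra h0
    have := Pool.Agent.W824.BJ.le_rank_of_minor _ _ _ h0
    omega

end poly

section main

variable {k Cc : Type} [Field k] [Field Cc] [Algebra k Cc]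

/-- **The rational directions.** -/
theorem trans_le [Infinite k] [Infinite Cc] {L : Submodule k Cc} (hL : WMP k L) {n r : ℕ}
    (hr : r < n) (M : Matrix (Fin n) (Fin n) Cc) (hM : ∀ i j, M i j ∈ L) (hz : ¬ RZ k M)
    (R : Submodule k (Fin (n * n) → k))
    (h : Trans k (minF Cc n r)
      (fun p => M (finProdFinEquiv.symm p).1 (finProdFinEquiv.symm p).2) R) :
    finrank k R ≤ rho n r := by
  classical
  let e : (Fin (n * n) → k) →ₗ[k] Matrix (Fin n) (Fin n) k :=
    { toFun := fun c => Matrix.of fun i j => c (finProdFinEquiv (i, j))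
      map_add' := fun _ _ => rfl
      map_smul' := fun _ _ => rfl }
  have he : Function.Injective e := by
    rw [injective_iff_map_eq_zero]
    intro c hc
    funext p
    have := congrFun (congrFun hc (finProdFinEquiv.symm p).1) (finProdFinEquiv.symm p).2
    change c (finProdFinEquiv ((finProdFinEquiv.symm p).1, (finProdFinEquiv.symm p).2)) = 0 at this
    rw [Prod.mk.eta, Equiv.apply_symm_apply] at this
    exact this
  have hfr : finrank k (R.map e) = finrank k R :=
    (Submodule.equivMapOfInjective e he R).finrank_eq.symm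
  have hline : ∀ C ∈ R.map e, ∀ x : Cc, (M + x • C.map (algebraMap k Cc)).rank ≤ r := by
    rintro _ ⟨c, hc, rfl⟩ x
    have h1 := (minF_zero_iff _).1 fun a => h a (x • fun p => algebraMap k Cc (c p))
      (Submodule.smul_mem _ _ (Submodule.subset_span ⟨c, hc, rfl⟩))
    have h2 : (Matrix.of fun i j : Fin n => M (finProdFinEquiv.symm (finProdFinEquiv (i, j))).1
        (finProdFinEquiv.symm (finProdFinEquiv (i, j))).2 +
        (x • fun p => algebraMap k Cc (c p)) (finProdFinEquiv (i, j))) =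
        M + x • (e c).map (algebraMap k Cc) := by
      ext i j
      simp only [Matrix.of_apply, Equiv.symm_apply_apply, Matrix.add_apply, Matrix.smul_apply,
        Matrix.map_apply, Pi.smul_apply]
      rfl
    rw [h2] at h1
    exact h1
  rw [← hfr]
  unfold rho
  split_ifs with hc
  · by_contra h1
    have h2 : R.map e ≠ ⊥ := by
      intro h0
      rw [h0, finrank_bot] at h1
      exact h1 le_rfl
    obtain ⟨C, hC, hC0⟩ := Submodule.exists_mem_ne_zero_of_ne_bot h2
    exact hz (rz_of_line hL M hM C hC0 hr (hline C hC) (Or.inr hc))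
  · refine flanders _ fun C hC => ?_
    by_contra h1
    refine hz (rz_of_line hL M hM C ?_ hr (hline C hC) (Or.inl (by omega)))
    rintro rfl
    rw [Matrix.rank_zero] at h1
    omega

/-- **Dimension.** -/
theorem rank_dim [CharZero k] [CharZero Cc] {Lt L : Submodule k Cc} (hL : Hyp Lt)
    (hw : Wts' k Cc) (hWM : WMP k L) (W : Submodule k Cc) [FiniteDimensional k W]
    (hW : W ≤ Lt) (hW' : W ≤ L) {n r : ℕ} (hr : r < n)
    (φ : Fin (rho n r * finrank k W + (n * n - rho n r) * (n * n - 1) + 1) →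
      (Matrix (Fin n) (Fin n) W →ₗ[k] k)) :
    ∃ P : MvPolynomial (Fin (rho n r * finrank k W + (n * n - rho n r) * (n * n - 1) + 1)) k,
      P ≠ 0 ∧ ∀ A : Matrix (Fin n) (Fin n) W, (A.map (fun x => (x : Cc))).rank ≤ r →
      ¬ RZ k (A.map (fun x => (x : Cc))) → eval (fun i => φ i A) P = 0 := by
  classical
  let e : (Fin (n * n) → W) →ₗ[k] Matrix (Fin n) (Fin n) W :=
    { toFun := fun c => Matrix.of fun i j => c (finProdFinEquiv (i, j))
      map_add' := fun _ _ => rfl
      map_smul' := fun _ _ => rfl }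
  obtain ⟨P, h1, h2⟩ := var_dim hL hw W hW (rho_le hr.le) (minF Cc n r) (fun i => φ i ∘ₗ e)
  refine ⟨P, h1, fun A hA hz => ?_⟩
  have h3 : e (fun p => A (finProdFinEquiv.symm p).1 (finProdFinEquiv.symm p).2) = A := by
    ext i j
    change ((A (finProdFinEquiv.symm (finProdFinEquiv (i, j))).1
      (finProdFinEquiv.symm (finProdFinEquiv (i, j))).2 : W) : Cc) = _
    rw [Equiv.symm_apply_apply]
  have h4 := h2 (fun p => A (finProdFinEquiv.symm p).1 (finProdFinEquiv.symm p).2) (by
    refine (minF_zero_iff _).2 ?_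
    have h5 : (Matrix.of fun i j : Fin n => ((A (finProdFinEquiv.symm (finProdFinEquiv (i, j))).1
        (finProdFinEquiv.symm (finProdFinEquiv (i, j))).2 : W) : Cc)) =
        A.map (fun x => (x : Cc)) := by
      ext i j
      rw [Matrix.of_apply, Equiv.symm_apply_apply]
      rfl
    rw [h5]
    exact hA) (by
    intro R hR
    exact trans_le hWM hr (A.map (fun x => (x : Cc))) (fun i j => hW' (A i j).2) hz R hR)
  simp only [LinearMap.comp_apply, h3] at h4
  exact h4

/-- **Counting, upper bound.** -/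
theorem rank_upper [CharZero Cc] [Algebra ℚ Cc] {Lt L : Submodule ℚ Cc} (hL : Hyp Lt)
    (hw : Wts' ℚ Cc) (hWM : WMP ℚ L) {n r N : ℕ} (hr : r < n) (l : Fin N → Cc)
    (hl : ∀ j, l j ∈ Lt) (hl' : ∀ j, l j ∈ L) (hli : LinearIndependent ℚ l) :
    ∃ κ : ℕ, ∀ H : ℕ, 1 ≤ H →
      Set.ncard {A : Fin n → Fin n → Fin N → ℤ | (∀ i j s, |A i j s| ≤ H) ∧
        (Matrix.of fun i j => ∑ s, (A i j s : Cc) * l s).rank ≤ r ∧
        ¬ RZ ℚ (Matrix.of fun i j => ∑ s, (A i j s : Cc) * l s)} ≤
      κ * H ^ (rho n r * N + (n * n - rho n r) * (n * n - 1)) := by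
  classical
  have hcast : ∀ (b : Fin n → Fin n → Fin N → ℤ),
      (Matrix.of fun i j => ∑ s, algebraMap ℚ Cc ((b i j s : ℤ) : ℚ) * l s) =
      (Matrix.of fun i j => ∑ s, (b i j s : Cc) * l s) := by
    intro b
    ext i j
    simp
  obtain ⟨κ, hκ⟩ := Pool.Agent.Y787.HS.count_gen (K := ℚ)
    (d := rho n r * N + (n * n - rho n r) * (n * n - 1)) (σ := Fin (n * n) × Fin N)
    {x | (Matrix.of fun i j : Fin n => ∑ s, algebraMap ℚ Cc
        (x (finProdFinEquiv (i, j), s)) * l s).rank ≤ r ∧
      ¬ RZ ℚ (Matrix.of fun i j : Fin n => ∑ s, algebraMap ℚ Cc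
        (x (finProdFinEquiv (i, j), s)) * l s)} (by
      intro φ
      obtain ⟨P, h1, h2⟩ := var_coord hL hw (rho_le hr.le) l hl hli (minF Cc n r) φ
      refine ⟨P, h1, fun x hx => ?_⟩
      refine h2 (fun p s => x (p, s)) ?_ ?_
      · exact (minF_zero_iff _).2 hx.1
      · intro R hR
        refine trans_le hWM hr _ (fun i j => ?_) hx.2 R ?_
        · rw [Matrix.of_apply]
          refine Submodule.sum_mem _ fun s _ => ?_
          rw [← Algebra.smul_def]
          exact L.smul_mem _ (hl' s)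
        · have h3 : (fun p : Fin (n * n) => (Matrix.of fun i j : Fin n => ∑ s, algebraMap ℚ Cc
              (x (finProdFinEquiv (i, j), s)) * l s) (finProdFinEquiv.symm p).1
              (finProdFinEquiv.symm p).2) = fun p => ∑ s, algebraMap ℚ Cc (x (p, s)) * l s := by
            funext p
            rw [Matrix.of_apply, Prod.mk.eta, Equiv.apply_symm_apply]
          rw [h3]
          exact hR)
  refine ⟨κ, fun H hH => ?_⟩
  have hfin : Set.Finite {A : Fin n → Fin n → Fin N → ℤ | (∀ i j s, |A i j s| ≤ H) ∧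
      (Matrix.of fun i j => ∑ s, (A i j s : Cc) * l s).rank ≤ r ∧
      ¬ RZ ℚ (Matrix.of fun i j => ∑ s, (A i j s : Cc) * l s)} :=
    Pool.Agent.TH519.HS.sing_finite H _
  rw [Set.ncard_eq_toFinset_card _ hfin]
  let g : (Fin n → Fin n → Fin N → ℤ) → (Fin (n * n) × Fin N → ℤ) :=
    fun A p => A (finProdFinEquiv.symm p.1).1 (finProdFinEquiv.symm p.1).2 p.2
  have hg : Function.Injective g := by
    intro A A' h
    funext i j s
    have := congrFun h (finProdFinEquiv (i, j), s)
    simp only [g, Equiv.symm_apply_apply] at this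
    exact this
  rw [← Finset.card_image_of_injective _ hg]
  refine hκ H hH _ ?_
  intro a ha
  obtain ⟨A, hA, rfl⟩ := Finset.mem_image.1 ha
  rw [Set.Finite.mem_toFinset] at hA
  obtain ⟨h1, h2, h3⟩ := hA
  have h4 : (Matrix.of fun i j : Fin n => ∑ s, algebraMap ℚ Cc
      ((g A (finProdFinEquiv (i, j), s) : ℤ) : ℚ) * l s) =
      (Matrix.of fun i j => ∑ s, (A i j s : Cc) * l s) := by
    rw [← hcast A]
    ext i j
    simp only [Matrix.of_apply, g, Equiv.symm_apply_apply]
  refine ⟨fun p => h1 _ _ _, ?_, ?_⟩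
  · change (Matrix.of fun i j : Fin n => ∑ s, algebraMap ℚ Cc
      ((g A (finProdFinEquiv (i, j), s) : ℤ) : ℚ) * l s).rank ≤ r
    rw [h4]
    exact h2
  · change ¬ RZ ℚ (Matrix.of fun i j : Fin n => ∑ s, algebraMap ℚ Cc
      ((g A (finProdFinEquiv (i, j), s) : ℤ) : ℚ) * l s)
    rw [h4]
    exact h3

end main

/-- **Counting, lower bound.** -/
theorem rank_lower {Cc : Type} [Field Cc] {n r N : ℕ} (hr : r ≤ n) (l : Fin N → Cc) (H : ℕ) :
    H ^ (r * n * N) ≤ Set.ncard {A : Fin n → Fin n → Fin N → ℤ | (∀ i j s, |A i j s| ≤ H) ∧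
      (Matrix.of fun i j => ∑ s, (A i j s : Cc) * l s).rank ≤ r} := by
  classical
  let g : (Fin r → Fin n → Fin N → ℤ) → (Fin n → Fin n → Fin N → ℤ) :=
    fun B i => if h : (i : ℕ) < r then B ⟨i, h⟩ else 0
  have hg : Function.Injective g := by
    intro B B' h
    funext i
    have h1 := congrFun h ⟨i, lt_of_lt_of_le i.2 hr⟩
    simp only [g, i.2, dif_pos] at h1
    exact h1
  refine (Pool.Agent.TH519.HS.card_box (a := r) (n := n) (N := N) (H := H)).trans ?_
  rw [← Finset.card_image_of_injective _ hg, ← Set.ncard_coe_finset]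
  refine Set.ncard_le_ncard ?_ (Pool.Agent.TH519.HS.sing_finite H _)
  intro A hA
  rw [Finset.mem_coe, Finset.mem_image] at hA
  obtain ⟨B, hB, rfl⟩ := hA
  rw [Pool.Agent.TH519.HS.mem_box] at hB
  refine ⟨fun i j s => ?_, ?_⟩
  · simp only [g]
    split_ifs with h
    · exact hB _ j s
    · simp
  · refine (Matrix.rank_le_card_of_support_subset _ (Finset.univ.filter fun i : Fin n =>
      (i : ℕ) < r) ?_).trans ?_
    · intro i hi
      rw [Function.mem_support] at hi
      rw [Finset.mem_coe, Finset.mem_filter]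
      refine ⟨Finset.mem_univ _, ?_⟩
      by_contra h
      apply hi
      funext j
      simp only [Matrix.row, Matrix.of_apply, g, dif_neg h]
      simp
    · rw [Fin.card_filter_val_lt]
      exact min_le_right _ _

end Pool.Agent.Y787.AS
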