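import Pool.Agent.Y787.AS.Det
import Pool.Agent.Y787.AS.Rat
import Pool.Agent.Y787.CStrat
import Pool.Agent.Y787.PStrat

/-!
# Size three: complex and `p`-adic logarithms
-/

set_option autoImplicit false

namespace Pool.Agent.Y787.AS
open MvPolynomial Module
open Pool.Agent.W254.PA (Hyp logs)
open Pool.Agent.W245.PB (IsIwasawaLog)

/-- nonzero rational vectors with `wᵗ M v = 0` -/
def RatZero {E : Type} [Field E] [CharZero E] {n : ℕ} (M : Matrix (Fin n) (Fin n) E) : Prop :=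
  ∃ w v : Fin n → ℚ, w ≠ 0 ∧ v ≠ 0 ∧ ∑ i, ∑ j, (w i : E) * M i j * (v j : E) = 0

theorem RatZero.of_rz {E : Type} [Field E] [CharZero E] {n : ℕ}
    {M : Matrix (Fin n) (Fin n) E} (h : RZ ℚ M) : RatZero M := by
  obtain ⟨w, v, hw, hv, h⟩ := h
  exact ⟨w, v, hw, hv, by simpa only [eq_ratCast] using h⟩

section

variable {E : Type} [Field E] [CharZero E] [Uncountable E]

theorem three_dimQ {Lt : Submodule ℚ E} (hL : Hyp Lt) (W : Submodule ℚ E)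
    [FiniteDimensional ℚ W] (hW : W ≤ Lt)
    (φ : Fin 73 → (Matrix (Fin 3) (Fin 3) W →ₗ[ℚ] ℚ)) :
    ∃ P : MvPolynomial (Fin 73) ℚ, P ≠ 0 ∧
      ∀ A : Matrix (Fin 3) (Fin 3) W, (A.map (fun x => (x : E))).det = 0 →
      ¬ RatZero (A.map (fun x => (x : E))) → eval (fun i => φ i A) P = 0 := by
  obtain ⟨P, h1, h2⟩ := three_dim hL wts_pt W hW φ
  exact ⟨P, h1, fun A hA hA' => h2 A hA fun h => hA' (RatZero.of_rz h)⟩

theorem three_countQ {Lt : Submodule ℚ E} (hL : Hyp Lt) {N : ℕ} (l : Fin N → E)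
    (hl : ∀ j, l j ∈ Lt) (hli : LinearIndependent ℚ l) :
    ∃ κ : ℕ, ∀ H : ℕ, 1 ≤ H →
      Set.ncard {A : Fin 3 → Fin 3 → Fin N → ℤ | (∀ i j s, |A i j s| ≤ H) ∧
        (Matrix.of fun i j => ∑ s, (A i j s : E) * l s).det = 0 ∧
        ¬ RatZero (Matrix.of fun i j => ∑ s, (A i j s : E) * l s)} ≤ κ * H ^ 72 ∧
      H ^ (6 * N) ≤ Set.ncard {A : Fin 3 → Fin 3 → Fin N → ℤ | (∀ i j s, |A i j s| ≤ H) ∧
        (Matrix.of fun i j => ∑ s, (A i j s : E) * l s).det = 0} := by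
  obtain ⟨κ, hκ⟩ := three_count hL wts_pt l hl hli
  refine ⟨κ, fun H hH => ⟨le_trans (Set.ncard_le_ncard ?_ ?_) (hκ H hH).1, (hκ H hH).2⟩⟩
  · rintro A ⟨h1, h2, h3⟩
    exact ⟨h1, h2, fun h => h3 (RatZero.of_rz h)⟩
  · exact Pool.Agent.TH519.HS.sing_finite H _

end

theorem threeC_dim (W : Submodule ℚ ℂ) [FiniteDimensional ℚ W]
    (hW : ∀ z ∈ W, IsAlgebraic ℚ (Complex.exp z))
    (φ : Fin 73 → (Matrix (Fin 3) (Fin 3) W →ₗ[ℚ] ℚ)) :
    ∃ P : MvPolynomial (Fin 73) ℚ, P ≠ 0 ∧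
      ∀ A : Matrix (Fin 3) (Fin 3) W, (A.map (fun x => (x : ℂ))).det = 0 →
      ¬ RatZero (A.map (fun x => (x : ℂ))) → eval (fun i => φ i A) P = 0 := by
  have := Pool.Agent.Y787.uncountable_complex
  exact three_dimQ hypQ_complex W (fun z hz => Submodule.subset_span (Or.inr (hW z hz))) φ

theorem threeC_count {N : ℕ} (l : Fin N → ℂ) (halg : ∀ j, IsAlgebraic ℚ (Complex.exp (l j)))
    (hli : LinearIndependent ℚ l) :
    ∃ κ : ℕ, ∀ H : ℕ, 1 ≤ H →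
      Set.ncard {A : Fin 3 → Fin 3 → Fin N → ℤ | (∀ i j s, |A i j s| ≤ H) ∧
        (Matrix.of fun i j => ∑ s, (A i j s : ℂ) * l s).det = 0 ∧
        ¬ RatZero (Matrix.of fun i j => ∑ s, (A i j s : ℂ) * l s)} ≤ κ * H ^ 72 ∧
      H ^ (6 * N) ≤ Set.ncard {A : Fin 3 → Fin 3 → Fin N → ℤ | (∀ i j s, |A i j s| ≤ H) ∧
        (Matrix.of fun i j => ∑ s, (A i j s : ℂ) * l s).det = 0} := by
  have := Pool.Agent.Y787.uncountable_complex
  exact three_countQ hypQ_complex l (fun j => Submodule.subset_span (Or.inr (halg j))) hli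

section padic

variable {p : ℕ} [hp : Fact p.Prime] {L : PadicAlgCl p → PadicAlgCl p}

theorem threeP_dim (hL : IsIwasawaLog p L) (W : Submodule ℚ (PadicAlgCl p))
    [FiniteDimensional ℚ W]
    (hW : ∀ z ∈ W, ∃ α : PadicAlgCl p, α ≠ 0 ∧ IsAlgebraic ℚ α ∧ z = L α)
    (φ : Fin 73 → (Matrix (Fin 3) (Fin 3) W →ₗ[ℚ] ℚ)) :
    ∃ P : MvPolynomial (Fin 73) ℚ, P ≠ 0 ∧
      ∀ A : Matrix (Fin 3) (Fin 3) W, (A.map (fun x => (x : PadicAlgCl p))).det = 0 →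
      ¬ RatZero (A.map (fun x => (x : PadicAlgCl p))) → eval (fun i => φ i A) P = 0 :=
  three_dimQ (hypQ_padic hL) W (fun z hz => Submodule.subset_span (Or.inr (hW z hz))) φ

theorem threeP_count (hL : IsIwasawaLog p L) {N : ℕ} (l : Fin N → PadicAlgCl p)
    (hl : ∀ j, ∃ α : PadicAlgCl p, α ≠ 0 ∧ IsAlgebraic ℚ α ∧ l j = L α)
    (hli : LinearIndependent ℚ l) :
    ∃ κ : ℕ, ∀ H : ℕ, 1 ≤ H →
      Set.ncard {A : Fin 3 → Fin 3 → Fin N → ℤ | (∀ i j s, |A i j s| ≤ H) ∧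
        (Matrix.of fun i j => ∑ s, (A i j s : PadicAlgCl p) * l s).det = 0 ∧
        ¬ RatZero (Matrix.of fun i j => ∑ s, (A i j s : PadicAlgCl p) * l s)} ≤ κ * H ^ 72 ∧
      H ^ (6 * N) ≤ Set.ncard {A : Fin 3 → Fin 3 → Fin N → ℤ | (∀ i j s, |A i j s| ≤ H) ∧
        (Matrix.of fun i j => ∑ s, (A i j s : PadicAlgCl p) * l s).det = 0} :=
  three_countQ (hypQ_padic hL) l (fun j => Submodule.subset_span (Or.inr (hl j))) hli

end padic

end Pool.Agent.Y787.AS
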