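import Pool.Agent.Y787.AS.Strata
import Pool.Agent.Y787.AS.ThreeFin

/-!
# Matrices of small rank: complex and `p`-adic logarithms
-/

set_option autoImplicit false

namespace Pool.Agent.Y787.AS
open MvPolynomial Module
open Pool.Agent.W254.PA (Hyp logs)
open Pool.Agent.W245.PB (IsIwasawaLog)

/-- complex logarithms of algebraic numbers, rational span -/
theorem wmp_complex :
    WMP ℚ (Submodule.span ℚ {z : ℂ | IsAlgebraic ℚ (Complex.exp z)}) :=
  wmp_span (RingHom.id ℂ) obs_complex _ fun _ h => h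

theorem wmp_padic {p : ℕ} [hp : Fact p.Prime] {L : PadicAlgCl p → PadicAlgCl p}
    (hL : IsIwasawaLog p L) : WMP ℚ (Submodule.span ℚ (logs L)) := by
  obtain ⟨θ⟩ := Pool.Agent.W254.PA.exists_theta p
  refine wmp_span ((θ : ℂ_[p] →+* ℂ).comp (Pool.Agent.W254.PA.ic p))
    (Pool.Agent.W254.PA.obsProp_padic p Pool.Agent.H301R2.SSE.zeg θ) (logs L) ?_
  rintro z ⟨α, hα, halg, rfl⟩
  rw [Pool.Agent.W254.PA.mem_Lθ]
  have : θ.symm (((θ : ℂ_[p] →+* ℂ).comp (Pool.Agent.W254.PA.ic p)) (L α)) =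
      Pool.Agent.W254.PA.ic p (L α) := θ.symm_apply_apply _
  rw [this]
  exact Pool.Agent.W254.PA.ic_log_mem hL hα halg

section

variable {E : Type} [Field E] [CharZero E] [Uncountable E]

theorem rank_dimQ {Lt L : Submodule ℚ E} (hL : Hyp Lt) (hWM : WMP ℚ L) (W : Submodule ℚ E)
    [FiniteDimensional ℚ W] (hW : W ≤ Lt) (hW' : W ≤ L) {n r : ℕ} (hr : r < n)
    (φ : Fin (rho n r * finrank ℚ W + (n * n - rho n r) * (n * n - 1) + 1) →
      (Matrix (Fin n) (Fin n) W →ₗ[ℚ] ℚ)) :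
    ∃ P : MvPolynomial (Fin (rho n r * finrank ℚ W + (n * n - rho n r) * (n * n - 1) + 1)) ℚ,
      P ≠ 0 ∧ ∀ A : Matrix (Fin n) (Fin n) W, (A.map (fun x => (x : E))).rank ≤ r →
      ¬ RatZero (A.map (fun x => (x : E))) → eval (fun i => φ i A) P = 0 := by
  obtain ⟨P, h1, h2⟩ := rank_dim hL wts_pt hWM W hW hW' hr φ
  exact ⟨P, h1, fun A hA hA' => h2 A hA fun h => hA' (RatZero.of_rz h)⟩

theorem rank_countQ {Lt L : Submodule ℚ E} (hL : Hyp Lt) (hWM : WMP ℚ L) {n r N : ℕ}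
    (hr : r < n) (l : Fin N → E) (hl : ∀ j, l j ∈ Lt) (hl' : ∀ j, l j ∈ L)
    (hli : LinearIndependent ℚ l) :
    ∃ κ : ℕ, ∀ H : ℕ, 1 ≤ H →
      Set.ncard {A : Fin n → Fin n → Fin N → ℤ | (∀ i j s, |A i j s| ≤ H) ∧
        ((Matrix.of fun i j => ∑ s, (A i j s : E) * l s).rank ≤ r ∧
        ¬ RatZero (Matrix.of fun i j => ∑ s, (A i j s : E) * l s))} ≤
      κ * H ^ (rho n r * N + (n * n - rho n r) * (n * n - 1)) := by
  obtain ⟨κ, hκ⟩ := rank_upper hL wts_pt hWM hr l hl hl' hli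
  refine ⟨κ, fun H hH => le_trans (Set.ncard_le_ncard ?_ ?_) (hκ H hH)⟩
  · rintro A ⟨h1, h2, h3⟩
    exact ⟨h1, h2, fun h => h3 (RatZero.of_rz h)⟩
  · exact Pool.Agent.TH519.HS.sing_finite H _

end

theorem rankC_dim (W : Submodule ℚ ℂ) [FiniteDimensional ℚ W]
    (hW : ∀ z ∈ W, IsAlgebraic ℚ (Complex.exp z)) {n r : ℕ} (hr : r < n)
    (φ : Fin (rho n r * finrank ℚ W + (n * n - rho n r) * (n * n - 1) + 1) →
      (Matrix (Fin n) (Fin n) W →ₗ[ℚ] ℚ)) :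
    ∃ P : MvPolynomial (Fin (rho n r * finrank ℚ W + (n * n - rho n r) * (n * n - 1) + 1)) ℚ,
      P ≠ 0 ∧ ∀ A : Matrix (Fin n) (Fin n) W, (A.map (fun x => (x : ℂ))).rank ≤ r →
      ¬ RatZero (A.map (fun x => (x : ℂ))) → eval (fun i => φ i A) P = 0 := by
  have := Pool.Agent.Y787.uncountable_complex
  exact rank_dimQ hypQ_complex wmp_complex W
    (fun z hz => Submodule.subset_span (Or.inr (hW z hz)))
    (fun z hz => Submodule.subset_span (hW z hz)) hr φ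

theorem rankC_count {n r N : ℕ} (hr : r < n) (l : Fin N → ℂ)
    (halg : ∀ j, IsAlgebraic ℚ (Complex.exp (l j))) (hli : LinearIndependent ℚ l) :
    ∃ κ : ℕ, ∀ H : ℕ, 1 ≤ H →
      Set.ncard {A : Fin n → Fin n → Fin N → ℤ | (∀ i j s, |A i j s| ≤ H) ∧
        ((Matrix.of fun i j => ∑ s, (A i j s : ℂ) * l s).rank ≤ r ∧
        ¬ RatZero (Matrix.of fun i j => ∑ s, (A i j s : ℂ) * l s))} ≤
      κ * H ^ (rho n r * N + (n * n - rho n r) * (n * n - 1)) := by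
  have := Pool.Agent.Y787.uncountable_complex
  exact rank_countQ hypQ_complex wmp_complex hr l
    (fun j => Submodule.subset_span (Or.inr (halg j)))
    (fun j => Submodule.subset_span (halg j)) hli

section padic

variable {p : ℕ} [hp : Fact p.Prime] {L : PadicAlgCl p → PadicAlgCl p}

theorem rankP_dim (hL : IsIwasawaLog p L) (W : Submodule ℚ (PadicAlgCl p))
    [FiniteDimensional ℚ W]
    (hW : ∀ z ∈ W, ∃ α : PadicAlgCl p, α ≠ 0 ∧ IsAlgebraic ℚ α ∧ z = L α) {n r : ℕ}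
    (hr : r < n)
    (φ : Fin (rho n r * finrank ℚ W + (n * n - rho n r) * (n * n - 1) + 1) →
      (Matrix (Fin n) (Fin n) W →ₗ[ℚ] ℚ)) :
    ∃ P : MvPolynomial (Fin (rho n r * finrank ℚ W + (n * n - rho n r) * (n * n - 1) + 1)) ℚ,
      P ≠ 0 ∧ ∀ A : Matrix (Fin n) (Fin n) W, (A.map (fun x => (x : PadicAlgCl p))).rank ≤ r →
      ¬ RatZero (A.map (fun x => (x : PadicAlgCl p))) → eval (fun i => φ i A) P = 0 :=
  rank_dimQ (hypQ_padic hL) (wmp_padic hL) W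
    (fun z hz => Submodule.subset_span (Or.inr (hW z hz)))
    (fun z hz => Submodule.subset_span (hW z hz)) hr φ

theorem rankP_count (hL : IsIwasawaLog p L) {n r N : ℕ} (hr : r < n) (l : Fin N → PadicAlgCl p)
    (hl : ∀ j, ∃ α : PadicAlgCl p, α ≠ 0 ∧ IsAlgebraic ℚ α ∧ l j = L α)
    (hli : LinearIndependent ℚ l) :
    ∃ κ : ℕ, ∀ H : ℕ, 1 ≤ H →
      Set.ncard {A : Fin n → Fin n → Fin N → ℤ | (∀ i j s, |A i j s| ≤ H) ∧
        ((Matrix.of fun i j => ∑ s, (A i j s : PadicAlgCl p) * l s).rank ≤ r ∧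
        ¬ RatZero (Matrix.of fun i j => ∑ s, (A i j s : PadicAlgCl p) * l s))} ≤
      κ * H ^ (rho n r * N + (n * n - rho n r) * (n * n - 1)) :=
  rank_countQ (hypQ_padic hL) (wmp_padic hL) hr l
    (fun j => Submodule.subset_span (Or.inr (hl j))) (fun j => Submodule.subset_span (hl j)) hli

end padic

end Pool.Agent.Y787.AS
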