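import Pool.Agent.Y787.AS.Var
import Pool.Agent.Y787.CStrat
import Pool.Agent.Y787.PStrat

/-!
# Points on varieties: complex and `p`-adic logarithms
-/

set_option autoImplicit false

namespace Pool.Agent.Y787.AS
open MvPolynomial Module
open Pool.Agent.W254.PA (Hyp logs LtE)
open Pool.Agent.W245.PB (IsIwasawaLog)
open Pool.Agent.Y787 (QC HypC)

/-- the points of the variety through which it contains no translate of dimension greater than
`ρ` -/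
theorem varC_dim (W : Submodule (QC ℂ) ℂ) [FiniteDimensional (QC ℂ) W]
    (hW : W ≤ Pool.Agent.H301R2.SSE.Lt) {m r ρ : ℕ} (hρ : ρ ≤ m)
    (F : Fin r → MvPolynomial (Fin m) ℂ)
    (φ : Fin (ρ * finrank (QC ℂ) W + (m - ρ) * (m - 1) + 1) →
      ((Fin m → W) →ₗ[QC ℂ] QC ℂ)) :
    ∃ P : MvPolynomial (Fin (ρ * finrank (QC ℂ) W + (m - ρ) * (m - 1) + 1)) (QC ℂ), P ≠ 0 ∧
      ∀ y : Fin m → W, (∀ s, eval (fun i => (y i : ℂ)) (F s) = 0) →
      (∀ R : Submodule (QC ℂ) (Fin m → QC ℂ), Trans (QC ℂ) F (fun i => (y i : ℂ)) R →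
        finrank (QC ℂ) R ≤ ρ) → eval (fun i => φ i y) P = 0 := by
  have := Pool.Agent.Y787.uncountable_complex
  exact var_dim (HypC.hyp (Lt := Pool.Agent.H301R2.SSE.Lt)) wts_pt W hW hρ F φ

theorem varC_count {m N r ρ : ℕ} (hρ : ρ ≤ m) (l : Fin N → ℂ)
    (halg : ∀ j, IsAlgebraic ℚ (Complex.exp (l j))) (hli : LinearIndependent ℚ l)
    (F : Fin r → MvPolynomial (Fin m) ℂ)
    (hF : ∀ (A : Fin m → Fin N → ℤ) (R : Submodule ℚ (Fin m → ℚ)),
      Trans ℚ F (fun i => ∑ j, (A i j : ℂ) * l j) R → finrank ℚ R ≤ ρ) :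
    ∃ κ : ℕ, ∀ H : ℕ, 1 ≤ H → numV F l H ≤ κ * H ^ (ρ * N + (m - ρ) * (m - 1)) := by
  have := Pool.Agent.Y787.uncountable_complex
  exact var_upper hypQ_complex hρ l (fun j => Submodule.subset_span (Or.inr (halg j))) hli F hF

section padic

variable {p : ℕ} [hp : Fact p.Prime] {L : PadicAlgCl p → PadicAlgCl p}

theorem varP_dim (hL : IsIwasawaLog p L) (W : Submodule (QC (PadicAlgCl p)) (PadicAlgCl p))
    [FiniteDimensional (QC (PadicAlgCl p)) W] (hW : W ≤ LtE (logs L)) {m r ρ : ℕ} (hρ : ρ ≤ m)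
    (F : Fin r → MvPolynomial (Fin m) (PadicAlgCl p))
    (φ : Fin (ρ * finrank (QC (PadicAlgCl p)) W + (m - ρ) * (m - 1) + 1) →
      ((Fin m → W) →ₗ[QC (PadicAlgCl p)] QC (PadicAlgCl p))) :
    ∃ P : MvPolynomial (Fin (ρ * finrank (QC (PadicAlgCl p)) W + (m - ρ) * (m - 1) + 1))
      (QC (PadicAlgCl p)), P ≠ 0 ∧
      ∀ y : Fin m → W, (∀ s, eval (fun i => (y i : PadicAlgCl p)) (F s) = 0) →
      (∀ R : Submodule (QC (PadicAlgCl p)) (Fin m → QC (PadicAlgCl p)),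
        Trans (QC (PadicAlgCl p)) F (fun i => (y i : PadicAlgCl p)) R →
        finrank (QC (PadicAlgCl p)) R ≤ ρ) → eval (fun i => φ i y) P = 0 :=
  var_dim (Pool.Agent.W254.PA.hyp_padic hL) wts_pt W hW hρ F φ

theorem varP_count (hL : IsIwasawaLog p L) {m N r ρ : ℕ} (hρ : ρ ≤ m) (l : Fin N → PadicAlgCl p)
    (hl : ∀ j, ∃ α : PadicAlgCl p, α ≠ 0 ∧ IsAlgebraic ℚ α ∧ l j = L α)
    (hli : LinearIndependent ℚ l) (F : Fin r → MvPolynomial (Fin m) (PadicAlgCl p))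
    (hF : ∀ (A : Fin m → Fin N → ℤ) (R : Submodule ℚ (Fin m → ℚ)),
      Trans ℚ F (fun i => ∑ j, (A i j : PadicAlgCl p) * l j) R → finrank ℚ R ≤ ρ) :
    ∃ κ : ℕ, ∀ H : ℕ, 1 ≤ H → numV F l H ≤ κ * H ^ (ρ * N + (m - ρ) * (m - 1)) :=
  var_upper (hypQ_padic hL) hρ l (fun j => Submodule.subset_span (Or.inr (hl j))) hli F hF

end padic

end Pool.Agent.Y787.AS
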