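import Pool.Agent.Y787.AS.Rat

/-!
# The theorem of Waldschmidt and Masser on matrices of small rank
-/

set_option autoImplicit false

namespace Pool.Agent.Y787.AS
open Module
open Pool.Agent.W254.PA (ObsProp)

theorem obs_complex : ObsProp Pool.Agent.H301R2.SSE.Lg := by
  intro w b l r A γ ω u x y h1 h2 h3 h4 κ μ σ hκ hc
  obtain ⟨Af', Rm', W0, G0, g1, g2, g3, g4, g5⟩ :=
    Pool.Agent.H335R2.Obs.obstruction_of Pool.Agent.H301R2.SSE.zeg A γ ω u x y h1 h2 h3 h4
      κ μ σ hκ hc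
  exact ⟨Af', Rm', W0, G0, g1, g2, g3, fun s hs => (g4 s).1 hs, g5⟩

theorem finrank_addSubgroup_le {c : ℕ} (H : AddSubgroup (Fin c → ℤ)) : finrank ℤ H ≤ c := by
  have h := LinearMap.finrank_le_finrank_of_injective (R := ℤ) (f := H.subtype.toIntLinearMap)
    Subtype.val_injective
  rwa [finrank_fintype_fun_eq_card, Fintype.card_fin] at h

theorem exists_ne_of_finrank {c : ℕ} (H : AddSubgroup (Fin c → ℤ)) (hH : 1 ≤ finrank ℤ H) :
    ∃ x ∈ H, x ≠ 0 := by
  by_contra hcon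
  push Not at hcon
  have : Subsingleton H := ⟨fun x y => by
    apply Subtype.ext
    rw [hcon x x.2, hcon y y.2]⟩
  rw [finrank_zero_of_subsingleton] at hH
  omega

theorem two_kernel {c : ℕ} (H : AddSubgroup (Fin c → ℤ)) (hH : 2 ≤ finrank ℤ H)
    (F : (Fin c → ℤ) → ℂ)
    (hF : ∀ (n₁ n₂ : ℤ) (x₁ x₂ : Fin c → ℤ), F (n₁ • x₁ + n₂ • x₂) = n₁ * F x₁ + n₂ * F x₂)
    (z : ℂ) (hz : ∀ x ∈ H, ∃ n : ℤ, F x = n * z) : ∃ x : Fin c → ℤ, x ≠ 0 ∧ F x = 0 := by
  obtain ⟨v, hv⟩ := exists_linearIndependent_of_le_finrank (R := ℤ) (M := H) hH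
  obtain ⟨n₁, h1⟩ := hz _ (v 0).2
  obtain ⟨n₂, h2⟩ := hz _ (v 1).2
  have hind : ∀ a b : ℤ, a • (v 0 : Fin c → ℤ) + b • (v 1 : Fin c → ℤ) = 0 → a = 0 ∧ b = 0 := by
    intro a b hab
    have h3 := Fintype.linearIndependent_iff.1 hv ![a, b] (by
      rw [Fin.sum_univ_two]
      apply Subtype.ext
      simpa using hab)
    exact ⟨h3 0, h3 1⟩
  by_cases h0 : n₁ = 0
  · refine ⟨v 0, ?_, by rw [h1, h0]; simp⟩
    intro h3
    have h4 := hind 1 0 (by rw [h3]; simp)
    exact one_ne_zero h4.1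
  · refine ⟨n₂ • (v 0 : Fin c → ℤ) + (-n₁) • (v 1 : Fin c → ℤ), ?_, ?_⟩
    · intro h3
      exact h0 (neg_eq_zero.1 (hind _ _ h3).2)
    · rw [hF, h1, h2]
      push_cast
      ring

theorem wm_int {𝓛 : Submodule ℚ ℂ} (hO : ObsProp 𝓛) {b l r : ℕ} (hb : 1 ≤ b) (hl : 1 ≤ l)
    (hr : r * (b + l) < b * l) (u : Fin b → Fin l → ℂ) (hu : ∀ j q, u j q ∈ 𝓛)
    (x : Fin r → Fin b → ℂ) (y : Fin r → Fin l → ℂ)
    (huv : ∀ j q, u j q = ∑ ρ, x ρ j * y ρ q) :
    ∃ (m : Fin b → ℤ) (s : Fin l → ℤ), m ≠ 0 ∧ s ≠ 0 ∧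
      ∑ j, ∑ q, (m j : ℂ) * (s q : ℂ) * u j q = 0 := by
  classical
  rcases Nat.eq_zero_or_pos r with h0 | hr1
  · subst h0
    refine ⟨fun _ => 1, fun _ => 1, fun h => ?_, fun h => ?_, ?_⟩
    · exact one_ne_zero (congrFun h ⟨0, hb⟩)
    · exact one_ne_zero (congrFun h ⟨0, hl⟩)
    · refine Finset.sum_eq_zero fun j _ => Finset.sum_eq_zero fun q _ => ?_
      rw [huv]
      simp
  have hb2 : 2 ≤ b := by
    by_contra h
    obtain rfl : b = 1 := by omega
    nlinarith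
  have hl2 : 2 ≤ l := by
    by_contra h
    obtain rfl : l = 1 := by omega
    nlinarith
  obtain ⟨Af', Rm', W0, G0, -, g2, -, g4, g5⟩ := hO 0 b l r ∅ (fun i => i.elim0)
    (fun i => i.elim0) u x y (fun i => i.elim0) (fun i => i.elim0) hu (fun j q => by
      rw [huv]; simp) (l * (r + 1) + b * (r + 1)) (l * (r + 1)) (b * (r + 1)) rfl (by
      rw [Finset.card_empty, zero_mul, zero_add, add_zero]
      have h1 : r * (b + l) + 1 ≤ b * l := hr
      have h2 : (r * (b + l) + 1) * (r + 1) ≤ b * l * (r + 1) := Nat.mul_le_mul_right _ h1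
      nlinarith)
  have hA : Af' = ⊥ := Subsingleton.elim _ _
  have hR : Rm' ≠ ⊥ := fun h => g2 ⟨hA, h⟩
  have hA0 : finrank ℂ Af' = 0 := by
    have : Subsingleton Af' := ⟨fun x y => Subtype.ext (Subsingleton.elim _ _)⟩
    exact finrank_zero_of_subsingleton
  have ha1 : 1 ≤ finrank ℤ Rm' := by
    obtain ⟨z, hz, hz0⟩ := (AddSubgroup.bot_or_exists_ne_zero Rm').resolve_left hR
    have : Nontrivial Rm' := ⟨⟨z, hz⟩, 0, fun h => hz0 (congrArg Subtype.val h)⟩
    have : Module.Finite ℤ Rm' :=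
      Module.Finite.of_injective Rm'.subtype.toIntLinearMap Subtype.val_injective
    exact Module.finrank_pos
  have ha2 := finrank_addSubgroup_le Rm'
  have hg2 := finrank_addSubgroup_le G0
  rw [hA0, zero_mul, Nat.zero_sub, zero_mul, zero_add, zero_add] at g5
  set a := finrank ℤ Rm' with ha
  set g := finrank ℤ G0 with hg
  have hmain : (l - g) * b < a * l := by
    rcases g5 with h | ⟨h, -, h'⟩
    · have h1 : (l - g) * b * (r + 1) < a * l * (r + 1) := by
        calc _ = (l - g) * (b * (r + 1)) := by ring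
          _ < a * (l * (r + 1)) := h
          _ = _ := by ring
      exact Nat.lt_of_mul_lt_mul_right h1
    · rw [h', zero_mul] at h
      have h1 : 0 < a * (l * (r + 1)) := by positivity
      omega
  have hval : ∀ s ∈ G0, ∀ m ∈ Rm', ∃ n : ℤ, ∑ j, ∑ q, (m j : ℂ) * (s q : ℂ) * u j q =
      n * (2 * Real.pi * Complex.I) := fun s hs m hm => (g4 s hs).2 m hm
  have hcases : (2 ≤ a ∧ 1 ≤ g) ∨ 2 ≤ g := by
    by_contra hcon
    have hg1 : g ≤ 1 := by omega
    rcases Nat.lt_or_ge a 2 with h | h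
    · obtain ha' : a = 1 := by omega
      rw [ha', one_mul] at hmain
      have h1 : (l - 1) * 2 ≤ (l - g) * b := Nat.mul_le_mul (by omega) hb2
      omega
    · obtain hg' : g = 0 := by omega
      rw [hg', Nat.sub_zero] at hmain
      have h1 : a * l ≤ b * l := Nat.mul_le_mul_right _ ha2
      rw [mul_comm l b] at hmain
      omega
  rcases hcases with ⟨h1, h2⟩ | h1
  · obtain ⟨s, hs, hs0⟩ := exists_ne_of_finrank G0 h2
    obtain ⟨m, hm, hm0⟩ := two_kernel Rm' h1
      (fun m => ∑ j, ∑ q, (m j : ℂ) * (s q : ℂ) * u j q) (by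
        intro n₁ n₂ x₁ x₂
        simp only [Finset.mul_sum, ← Finset.sum_add_distrib]
        refine Finset.sum_congr rfl fun j _ => Finset.sum_congr rfl fun q _ => ?_
        simp only [Pi.add_apply, Pi.smul_apply, smul_eq_mul]
        push_cast
        ring) _ (fun m hm => hval s hs m hm)
    exact ⟨m, s, hm, hs0, hm0⟩
  · obtain ⟨m, hm, hm0⟩ := exists_ne_of_finrank Rm' ha1
    obtain ⟨s, hs, hs0⟩ := two_kernel G0 h1
      (fun s => ∑ j, ∑ q, (m j : ℂ) * (s q : ℂ) * u j q) (by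
        intro n₁ n₂ x₁ x₂
        simp only [Finset.mul_sum, ← Finset.sum_add_distrib]
        refine Finset.sum_congr rfl fun j _ => Finset.sum_congr rfl fun q _ => ?_
        simp only [Pi.add_apply, Pi.smul_apply, smul_eq_mul]
        push_cast
        ring) _ (fun s hs => hval s hs m hm)
    exact ⟨m, s, hm0, hs, hs0⟩

/-- a matrix of rank at most `r` is a sum of `r` products -/
theorem rank_fac {K : Type} [Field K] {b l r : ℕ} (u : Matrix (Fin b) (Fin l) K)
    (h : u.rank ≤ r) : ∃ (x : Fin r → Fin b → K) (y : Fin r → Fin l → K),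
      ∀ i j, u i j = ∑ ρ, x ρ i * y ρ j := by
  classical
  let S := LinearMap.range u.mulVecLin
  have hS : finrank K S ≤ r := h
  let g : (Fin r → K) →ₗ[K] (Fin b → K) := S.subtype ∘ₗ
    (finBasis K S).equivFun.symm.toLinearMap ∘ₗ LinearMap.funLeft K K (Fin.castLE hS)
  have hg : ∀ j, ∃ y : Fin r → K, g y = u.mulVecLin (Pi.single j 1) := by
    intro j
    obtain ⟨y, hy⟩ := LinearMap.funLeft_surjective_of_injective K K (Fin.castLE hS)
      (Fin.castLE_injective hS) ((finBasis K S).equivFun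
        ⟨u.mulVecLin (Pi.single j 1), LinearMap.mem_range_self _ _⟩)
    refine ⟨y, ?_⟩
    simp only [g, LinearMap.comp_apply, hy, LinearEquiv.coe_coe, LinearEquiv.symm_apply_apply,
      Submodule.subtype_apply]
  choose y hy using hg
  refine ⟨fun ρ => g (Pi.single ρ 1), fun ρ j => y j ρ, fun i j => ?_⟩
  have h1 : u i j = u.mulVecLin (Pi.single j 1) i := by
    rw [Matrix.mulVecLin_apply, Matrix.mulVec_single_one]
    rfl
  rw [h1, ← hy j, LinearMap.pi_apply_eq_sum_univ g (y j), Finset.sum_apply]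
  refine Finset.sum_congr rfl fun ρ _ => ?_
  have h3 : (fun a => if ρ = a then (1 : K) else 0) = Pi.single ρ 1 := by
    funext a
    rw [Pi.single_apply]
    by_cases h4 : a = ρ
    · rw [if_pos h4, if_pos h4.symm]
    · rw [if_neg h4, if_neg (Ne.symm h4)]
  rw [Pi.smul_apply, smul_eq_mul, mul_comm, h3]

/-- the theorem of Waldschmidt and Masser for the space `L` -/
def WMP (k : Type) {E : Type} [Field k] [Field E] [Algebra k E] (L : Submodule k E) : Prop :=
  ∀ b l r : ℕ, 1 ≤ b → 1 ≤ l → r * (b + l) < b * l → ∀ u : Matrix (Fin b) (Fin l) E,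
    (∀ i j, u i j ∈ L) → u.rank ≤ r → ∃ (w : Fin b → k) (v : Fin l → k), w ≠ 0 ∧ v ≠ 0 ∧
      ∑ i, ∑ j, algebraMap k E (w i) * u i j * algebraMap k E (v j) = 0

theorem wmp_span {E : Type} [Field E] [CharZero E] (Θ : E →+* ℂ) {𝓛 : Submodule ℚ ℂ}
    (hO : ObsProp 𝓛) (S : Set E) (hS : ∀ z ∈ S, Θ z ∈ 𝓛) : WMP ℚ (Submodule.span ℚ S) := by
  classical
  intro b l r hb hl hr u hu hur
  have hmem : ∀ z ∈ Submodule.span ℚ S, Θ z ∈ 𝓛 := by
    intro z hz
    refine Submodule.span_induction (p := fun z _ => Θ z ∈ 𝓛) hS ?_ ?_ ?_ hz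
    · rw [map_zero]; exact Submodule.zero_mem _
    · intro z z' _ _ h h'
      rw [map_add]
      exact Submodule.add_mem _ h h'
    · intro c z _ h
      have h1 : Θ (c • z) = c • Θ z := by
        rw [Rat.smul_def, map_mul, map_ratCast, Rat.smul_def]
      rw [h1]
      exact Submodule.smul_mem _ _ h
  obtain ⟨x, y, hxy⟩ := rank_fac u hur
  obtain ⟨m, s, hm, hs, h⟩ := wm_int hO hb hl hr (fun i j => Θ (u i j))
    (fun i j => hmem _ (hu i j)) (fun ρ i => Θ (x ρ i)) (fun ρ j => Θ (y ρ j)) (by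
      intro i j
      rw [hxy, map_sum]
      exact Finset.sum_congr rfl fun ρ _ => map_mul _ _ _)
  refine ⟨fun i => (m i : ℚ), fun j => (s j : ℚ), ?_, ?_, ?_⟩
  · intro h0
    apply hm
    funext i
    exact Int.cast_eq_zero.1 (congrFun h0 i)
  · intro h0
    apply hs
    funext i
    exact Int.cast_eq_zero.1 (congrFun h0 i)
  · apply Θ.injective
    rw [map_zero, ← h, map_sum]
    refine Finset.sum_congr rfl fun i _ => ?_
    rw [map_sum]
    refine Finset.sum_congr rfl fun j _ => ?_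
    simp only [map_mul, eq_ratCast, Rat.cast_intCast, map_intCast]
    ring

end Pool.Agent.Y787.AS
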